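import Pool.Agent.Lib_helper15.EXC.DefsG
import Mathlib.Analysis.Complex.Liouville
/-! EXC, block GF2: the linear functional. -/

set_option autoImplicit false

namespace Pool.Agent.EXC

open Finset Complex Metric Filter
open scoped Topology

theorem gf2_ci {r : ℝ} (hr : 0 < r) {F : ℂ → ℂ} (hF : DifferentiableOn ℂ F (closedBall 0 r))
    (n : ℕ) : ci r (fun z => F z / z ^ (n + 1)) = iteratedDeriv n F 0 / n.factorial := by
  have h := hF.circleIntegral_one_div_sub_center_pow_smul hr n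
  have e : (∮ z in C(0, r), F z / z ^ (n + 1)) = ∮ z in C(0, r), (1 / (z - 0) ^ (n + 1)) • F z := by
    congr 1
    funext z
    rw [sub_zero, smul_eq_mul]
    ring
  unfold ci
  rw [e, h, smul_eq_mul]
  have h1 : (2 * (Real.pi : ℂ) * I) ≠ 0 := Complex.two_pi_I_ne_zero
  have h2 : (n.factorial : ℂ) ≠ 0 := by exact_mod_cast n.factorial_ne_zero
  field_simp

/-- derivatives of a product with an explicit function -/
theorem gf2_der {R : ℝ} (hR : 0 < R) {H : ℂ → ℂ} (hH : DifferentiableOn ℂ H (ball 0 R))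
    (L δ : ℂ) :
    iteratedDeriv 1 (fun z => (z + δ) * Complex.exp (L * z / 2) * H z) 0 =
      (1 + δ * (L / 2)) * H 0 + δ * deriv H 0 ∧
    iteratedDeriv 2 (fun z => (z + δ) * Complex.exp (L * z / 2) * H z) 0 =
      (L + δ * (L / 2) ^ 2) * H 0 + 2 * (1 + δ * (L / 2)) * deriv H 0 +
        δ * deriv (deriv H) 0 := by
  have hopen : IsOpen (ball (0:ℂ) R) := isOpen_ball
  have h0 : (0:ℂ) ∈ ball (0:ℂ) R := mem_ball_self hR
  have hE : ∀ z : ℂ, HasDerivAt (fun z => Complex.exp (L * z / 2))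
      (Complex.exp (L * z / 2) * (L / 2)) z := by
    intro z
    have h1 : HasDerivAt (fun z : ℂ => L * z / 2) (L / 2) z := by
      have := ((hasDerivAt_id z).const_mul L).div_const 2
      simpa using this
    exact h1.cexp
  have hA : ∀ z : ℂ, HasDerivAt (fun z => (z + δ) * Complex.exp (L * z / 2))
      (Complex.exp (L * z / 2) + (z + δ) * (Complex.exp (L * z / 2) * (L / 2))) z := by
    intro z
    have h2 : HasDerivAt (fun z => (z + δ) * Complex.exp (L * z / 2))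
        (1 * Complex.exp (L * z / 2) + (z + δ) * (Complex.exp (L * z / 2) * (L / 2))) z :=
      ((hasDerivAt_id z).add_const δ).mul (hE z)
    rwa [one_mul] at h2
  have hf : ∀ z ∈ ball (0:ℂ) R, HasDerivAt (fun z => (z + δ) * Complex.exp (L * z / 2) * H z)
      ((Complex.exp (L * z / 2) + (z + δ) * (Complex.exp (L * z / 2) * (L / 2))) * H z +
        (z + δ) * Complex.exp (L * z / 2) * deriv H z) z := by
    intro z hz
    exact (hA z).mul ((hH.differentiableAt (hopen.mem_nhds hz)).hasDerivAt)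
  have hev : deriv (fun z => (z + δ) * Complex.exp (L * z / 2) * H z) =ᶠ[𝓝 0] fun z =>
      (Complex.exp (L * z / 2) + (z + δ) * (Complex.exp (L * z / 2) * (L / 2))) * H z +
        (z + δ) * Complex.exp (L * z / 2) * deriv H z := by
    filter_upwards [hopen.mem_nhds h0] with z hz
    exact (hf z hz).deriv
  constructor
  · rw [iteratedDeriv_one, hev.self_of_nhds]
    simp
  · have e2 : iteratedDeriv 2 (fun z => (z + δ) * Complex.exp (L * z / 2) * H z) 0 =
        deriv (deriv (fun z => (z + δ) * Complex.exp (L * z / 2) * H z)) 0 := by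
      rw [iteratedDeriv_succ, iteratedDeriv_one]
    rw [e2, hev.deriv_eq]
    have hH' : HasDerivAt (deriv H) (deriv (deriv H) 0) 0 :=
      ((hH.deriv hopen).differentiableAt (hopen.mem_nhds h0)).hasDerivAt
    have hH0 : HasDerivAt H (deriv H 0) 0 := (hH.differentiableAt (hopen.mem_nhds h0)).hasDerivAt
    have hB : HasDerivAt (fun z => Complex.exp (L * z / 2) +
        (z + δ) * (Complex.exp (L * z / 2) * (L / 2)))
        (Complex.exp (L * 0 / 2) * (L / 2) + (1 * (Complex.exp (L * 0 / 2) * (L / 2)) +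
          (0 + δ) * (Complex.exp (L * 0 / 2) * (L / 2) * (L / 2)))) 0 := by
      have h1 := ((hasDerivAt_id (0:ℂ)).add_const δ).mul ((hE 0).mul_const (L / 2))
      exact (hE 0).add h1
    have h := (hB.mul hH0).add ((hA 0).mul hH')
    have h' := h.deriv
    refine Eq.trans h' ?_
    simp
    ring

theorem lin_abs_pr : ∃ C : ℝ, 1 ≤ C ∧ ∀ (L R δ h₀ C₀ : ℝ) (H : ℂ → ℂ), 0 < L → 4 ≤ R * L → 0 ≤ δ →
    δ * L ≤ 1 → 0 < h₀ → 1 ≤ C₀ → DifferentiableOn ℂ H (ball 0 R) →
    (∀ z ∈ ball (0 : ℂ) R, ‖H z‖ ≤ C₀ * h₀) → H 0 = (h₀ : ℂ) →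
    ci (1 / L) (fun z => (z + δ) * Complex.exp (L * z / 2) * H z / z ^ (0 + 1)) = δ * h₀ ∧
    ‖ci (1 / L) (fun z => (z + δ) * Complex.exp (L * z / 2) * H z / z ^ (1 + 1)) - h₀‖ ≤
      C * C₀ * (1 / (R * L) + δ * L) * h₀ ∧
    ‖ci (1 / L) (fun z => (z + δ) * Complex.exp (L * z / 2) * H z / z ^ (2 + 1)) -
      L / 2 * h₀‖ ≤ C * C₀ * (1 / (R * L) + δ * L) * (L * h₀) := by
  refine ⟨4, by norm_num, ?_⟩
  intro L R δ h₀ C₀ H hL hRL hδ hδL hh hC hH hb h0
  have hR : 0 < R := by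
    by_contra hcon
    push Not at hcon
    have : R * L ≤ 0 := mul_nonpos_of_nonpos_of_nonneg hcon hL.le
    linarith
  have hr : 0 < 1 / L := by positivity
  have hrR : 1 / L < R := by
    rw [div_lt_iff₀ hL]; linarith
  have hF : DifferentiableOn ℂ (fun z : ℂ => (z + δ) * Complex.exp (L * z / 2) * H z)
      (closedBall 0 (1 / L)) := by
    apply DifferentiableOn.mul
    · apply Differentiable.differentiableOn
      fun_prop
    · exact hH.mono (closedBall_subset_ball hrR)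
  have hc := fun n => gf2_ci hr hF n
  obtain ⟨d1, d2⟩ := gf2_der hR hH (L : ℂ) (δ : ℂ)
  -- Cauchy estimates on the ball of radius R/2
  have hR2 : 0 < R / 2 := by linarith
  have hcl : DiffContOnCl ℂ H (ball 0 (R / 2)) := by
    apply DifferentiableOn.diffContOnCl
    apply hH.mono
    refine closure_ball_subset_closedBall.trans (closedBall_subset_ball (by linarith))
  have hs : ∀ z ∈ sphere (0:ℂ) (R / 2), ‖H z‖ ≤ C₀ * h₀ := by
    intro z hz
    apply hb
    rw [mem_sphere_zero_iff_norm] at hz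
    rw [mem_ball_zero_iff, hz]
    linarith
  have b1 := Complex.norm_iteratedDeriv_le_of_forall_mem_sphere_norm_le 1 hR2 hcl hs
  have b2 := Complex.norm_iteratedDeriv_le_of_forall_mem_sphere_norm_le 2 hR2 hcl hs
  have e2 : iteratedDeriv 2 H 0 = deriv (deriv H) 0 := by
    rw [iteratedDeriv_succ, iteratedDeriv_one]
  rw [iteratedDeriv_one] at b1
  rw [e2] at b2
  set u := deriv H 0 with hu
  set v := deriv (deriv H) 0 with hv
  have hu' : ‖u‖ ≤ 2 * C₀ * h₀ / R := by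
    refine b1.trans (le_of_eq ?_)
    simp
    field_simp
  have hv' : ‖v‖ ≤ 8 * C₀ * h₀ / R ^ 2 := by
    refine b2.trans (le_of_eq ?_)
    simp only [Nat.factorial]
    push_cast
    field_simp
    ring
  set x := 1 / (R * L) with hx
  have hRL0 : 0 < R * L := by positivity
  have hx0 : 0 < x := by positivity
  have hx4 : x ≤ 1 / 4 := by
    rw [hx, div_le_div_iff₀ hRL0 (by norm_num)]
    linarith
  set y := δ * L with hy
  have hy0 : 0 ≤ y := by positivity
  have hRe : 1 / R = x * L := by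
    rw [hx]; field_simp
  have hδe : δ = y / L := by rw [hy]; field_simp
  have hC0 : 0 < C₀ := by linarith
  have hu2 : ‖u‖ ≤ 2 * C₀ * h₀ * (x * L) := by
    rw [← hRe]
    refine hu'.trans (le_of_eq (by ring))
  have hv2 : ‖v‖ ≤ 8 * C₀ * h₀ * (x * L) ^ 2 := by
    rw [← hRe]
    refine hv'.trans (le_of_eq (by ring))
  have nδ : ‖(δ : ℂ)‖ = δ := by simp [abs_of_nonneg hδ]
  have nh : ‖(h₀ : ℂ)‖ = h₀ := by simp [abs_of_pos hh]
  have nL : ‖(L : ℂ)‖ = L := by simp [abs_of_pos hL]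
  have n22 : ‖(2 : ℂ)‖ = 2 := by simp
  refine ⟨?_, ?_, ?_⟩
  · rw [hc 0]
    simp [h0]
  · rw [hc 1, d1, h0]
    have e : ((1 + (δ:ℂ) * (L / 2)) * h₀ + δ * u) / (Nat.factorial 1 : ℕ) - h₀ =
        (δ:ℂ) * (L / 2) * h₀ + δ * u := by
      simp only [Nat.factorial]
      push_cast
      ring
    rw [e]
    have n1 : ‖(δ:ℂ) * (L / 2) * h₀‖ = y / 2 * h₀ := by
      rw [norm_mul, norm_mul, norm_div, nδ, nL, nh, n22, hy]
      ring
    have n2 : ‖(δ:ℂ) * u‖ ≤ δ * (2 * C₀ * h₀ * (x * L)) := by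
      rw [norm_mul, nδ]
      exact mul_le_mul_of_nonneg_left hu2 hδ
    refine (norm_add_le _ _).trans ?_
    rw [n1]
    have n3 : δ * (2 * C₀ * h₀ * (x * L)) = 2 * C₀ * h₀ * x * y := by rw [hy]; ring
    rw [n3] at n2
    have n4 : 2 * C₀ * h₀ * x * y ≤ 2 * C₀ * h₀ * x * 1 :=
      mul_le_mul_of_nonneg_left hδL (by positivity)
    have n5 : 1 / 2 * (y * h₀) ≤ C₀ * (y * h₀) :=
      mul_le_mul_of_nonneg_right (by linarith) (by positivity)
    have n6 : 0 ≤ C₀ * h₀ * x := by positivity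
    have n7 : 0 ≤ C₀ * h₀ * y := by positivity
    have n8 : 4 * C₀ * (x + y) * h₀ = 4 * (C₀ * h₀ * x) + 4 * (C₀ * h₀ * y) := by ring
    rw [n8]
    linarith
  · rw [hc 2, d2, h0]
    have e : (((L:ℂ) + (δ:ℂ) * (L / 2) ^ 2) * h₀ + 2 * (1 + δ * (L / 2)) * u + δ * v) /
        (Nat.factorial 2 : ℕ) - L / 2 * h₀ =
        (δ:ℂ) * (L / 2) ^ 2 / 2 * h₀ + (1 + δ * (L / 2)) * u + δ / 2 * v := by
      simp only [Nat.factorial]
      push_cast
      ring
    rw [e]
    have n1 : ‖(δ:ℂ) * (L / 2) ^ 2 / 2 * h₀‖ = y / 8 * (L * h₀) := by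
      rw [norm_mul, norm_div, norm_mul, norm_pow, norm_div, nδ, nL, nh, n22, hy]
      ring
    have n2 : ‖(1 + (δ:ℂ) * (L / 2)) * u‖ ≤ 3 / 2 * (2 * C₀ * h₀ * (x * L)) := by
      rw [norm_mul]
      apply mul_le_mul _ hu2 (norm_nonneg _) (by norm_num)
      refine (norm_add_le _ _).trans ?_
      rw [norm_one, norm_mul, norm_div, nδ, nL, n22]
      have : δ * (L / 2) = y / 2 := by rw [hy]; ring
      rw [this]
      linarith
    have n3 : ‖(δ:ℂ) / 2 * v‖ ≤ δ / 2 * (8 * C₀ * h₀ * (x * L) ^ 2) := by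
      rw [norm_mul, norm_div, nδ, n22]
      exact mul_le_mul_of_nonneg_left hv2 (by positivity)
    have n4 : δ / 2 * (8 * C₀ * h₀ * (x * L) ^ 2) = 4 * C₀ * (L * h₀) * x * (x * y) := by
      rw [hy]; ring
    rw [n4] at n3
    have n5 : 4 * C₀ * (L * h₀) * x * (x * y) ≤ 4 * C₀ * (L * h₀) * x * (1 / 4) := by
      have h1 : x * y ≤ 1 / 4 * 1 := mul_le_mul hx4 hδL hy0 (by norm_num)
      exact mul_le_mul_of_nonneg_left (by linarith) (by positivity)
    refine (norm_add_le _ _).trans ?_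
    have h9 := norm_add_le ((δ:ℂ) * (L / 2) ^ 2 / 2 * h₀) ((1 + (δ:ℂ) * (L / 2)) * u)
    rw [n1] at h9
    have n6 : 0 ≤ C₀ * (L * h₀) * x := by positivity
    have n7 : 1 / 8 * (y * (L * h₀)) ≤ 4 * C₀ * (y * (L * h₀)) :=
      mul_le_mul_of_nonneg_right (by linarith) (by positivity)
    have n8 : 3 / 2 * (2 * C₀ * h₀ * (x * L)) = 3 * (C₀ * (L * h₀) * x) := by ring
    rw [n8] at n2
    have n9 : 4 * C₀ * (x + y) * (L * h₀) = 4 * (C₀ * (L * h₀) * x) + 4 * C₀ * y * (L * h₀) := by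
      ring
    rw [n9]
    linarith

end Pool.Agent.EXC
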