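import Pool.Agent.Lib_helper15.EXC.DefsG
/-! EXC, blocks GA and GB: rotation and average of a triple circle integral. -/

set_option autoImplicit false

namespace Pool.Agent.EXC

open Finset Complex Metric Filter MeasureTheory
open scoped Topology

theorem ga_unfold (r : ℝ) (f : ℂ → ℂ) : ci r f = (2 * Real.pi * I)⁻¹ *
    ∫ θ in (0 : ℝ)..2 * Real.pi, circleMap 0 r θ * I * f (circleMap 0 r θ) := by
  unfold ci circleIntegral
  simp only [deriv_circleMap, smul_eq_mul]

theorem ga_congr {r : ℝ} (hr : 0 < r) {f g : ℂ → ℂ} (h : ∀ z, ‖z‖ = r → f z = g z) :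
    ci r f = ci r g := by
  unfold ci
  rw [circleIntegral.integral_congr hr.le fun z hz => h z (by simpa using hz)]

theorem ga_const_mul (r : ℝ) (a : ℂ) (f : ℂ → ℂ) : ci r (fun z => a * f z) = a * ci r f := by
  unfold ci
  rw [circleIntegral.integral_const_mul]
  ring

/-- rotation of a circle integral -/
theorem ga_rot {r φ : ℝ} (f : ℂ → ℂ) :
    ci r f = ci r (fun z => cexp (φ * I) * f (cexp (φ * I) * z)) := by
  rw [ga_unfold, ga_unfold]
  congr 1
  set g : ℝ → ℂ := fun θ => circleMap 0 r θ * I * f (circleMap 0 r θ) with hg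
  have hp : Function.Periodic g (2 * Real.pi) := by
    intro θ
    simp only [hg, periodic_circleMap 0 r θ]
  have h1 : ∀ θ : ℝ, circleMap 0 r (θ + φ) = cexp (φ * I) * circleMap 0 r θ := by
    intro θ
    simp only [circleMap_zero]
    push_cast
    rw [add_mul, Complex.exp_add]
    ring
  have h2 : ∀ θ : ℝ, circleMap 0 r θ * I *
      (cexp (φ * I) * f (cexp (φ * I) * circleMap 0 r θ)) = g (θ + φ) := by
    intro θ
    simp only [hg, h1]
    ring
  simp only [h2]
  rw [intervalIntegral.integral_comp_add_right g φ]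
  have h3 := hp.intervalIntegral_add_eq 0 (0 + φ)
  rw [zero_add] at h3
  rw [h3]
  congr 1
  ring

/-- the triple integral -/
noncomputable def ga_T (r r' : ℝ) (Ψ : ℂ → ℂ → ℂ → ℂ) : ℂ :=
  ci r (fun s => ci r fun w => ci r' fun z => Ψ w s z)

theorem ga_rot3 (r r' φ : ℝ) (Ψ : ℂ → ℂ → ℂ → ℂ) : ga_T r r' Ψ = cexp (φ * I) ^ 3 *
    ga_T r r' (fun w s z => Ψ (cexp (φ * I) * w) (cexp (φ * I) * s) (cexp (φ * I) * z)) := by
  unfold ga_T
  rw [ga_rot (φ := φ) (fun s => ci r fun w => ci r' fun z => Ψ w s z), ga_const_mul]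
  have h1 : (fun s => ci r fun w => ci r' fun z => Ψ w (cexp (φ * I) * s) z) = fun s =>
      cexp (φ * I) ^ 2 * ci r fun w => ci r' fun z =>
        Ψ (cexp (φ * I) * w) (cexp (φ * I) * s) (cexp (φ * I) * z) := by
    funext s
    rw [ga_rot (φ := φ) (fun w => ci r' fun z => Ψ w (cexp (φ * I) * s) z), ga_const_mul]
    have h2 : (fun w => ci r' fun z => Ψ (cexp (φ * I) * w) (cexp (φ * I) * s) z) = fun w =>
        cexp (φ * I) * ci r' fun z =>
          Ψ (cexp (φ * I) * w) (cexp (φ * I) * s) (cexp (φ * I) * z) := by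
      funext w
      rw [ga_rot (φ := φ) (fun z => Ψ (cexp (φ * I) * w) (cexp (φ * I) * s) z), ga_const_mul]
    rw [h2, ga_const_mul]
    ring
  rw [h1, ga_const_mul]
  ring

/-! ### continuity and exchange -/

theorem ga_cont {X : Type*} [TopologicalSpace X] [FirstCountableTopology X] {f : X → ℂ → ℂ}
    {r : ℝ} (hf : Continuous (fun p : X × ℝ => f p.1 (circleMap 0 r p.2))) :
    Continuous (fun x => ci r (f x)) := by
  simp only [ga_unfold]
  refine continuous_const.mul ?_
  refine intervalIntegral.continuous_parametric_intervalIntegral_of_continuous' ?_ _ _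
  have h1 : Continuous (fun p : X × ℝ => circleMap 0 r p.2) :=
    (continuous_circleMap 0 r).comp continuous_snd
  exact (h1.mul continuous_const).mul hf

theorem ga_swap {f : ℂ → ℂ → ℂ} {r r' : ℝ}
    (hf : Continuous (fun p : ℝ × ℝ => f (circleMap 0 r p.1) (circleMap 0 r' p.2))) :
    ci r (fun z => ci r' fun w => f z w) = ci r' (fun w => ci r fun z => f z w) := by
  simp only [ga_unfold]
  have h1 : ∀ θ : ℝ, circleMap 0 r θ * I * ((2 * Real.pi * I)⁻¹ *
      ∫ φ in (0 : ℝ)..2 * Real.pi, circleMap 0 r' φ * I * f (circleMap 0 r θ) (circleMap 0 r' φ)) =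
      (2 * Real.pi * I)⁻¹ * ∫ φ in (0 : ℝ)..2 * Real.pi, circleMap 0 r θ * I *
        (circleMap 0 r' φ * I * f (circleMap 0 r θ) (circleMap 0 r' φ)) := by
    intro θ
    rw [intervalIntegral.integral_const_mul]
    ring
  have h2 : ∀ φ : ℝ, circleMap 0 r' φ * I * ((2 * Real.pi * I)⁻¹ *
      ∫ θ in (0 : ℝ)..2 * Real.pi, circleMap 0 r θ * I * f (circleMap 0 r θ) (circleMap 0 r' φ)) =
      (2 * Real.pi * I)⁻¹ * ∫ θ in (0 : ℝ)..2 * Real.pi, circleMap 0 r θ * I *
        (circleMap 0 r' φ * I * f (circleMap 0 r θ) (circleMap 0 r' φ)) := by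
    intro φ
    have h3 : ∀ θ : ℝ, circleMap 0 r θ * I *
        (circleMap 0 r' φ * I * f (circleMap 0 r θ) (circleMap 0 r' φ)) =
        circleMap 0 r' φ * I * (circleMap 0 r θ * I * f (circleMap 0 r θ) (circleMap 0 r' φ)) := by
      intro θ
      ring
    simp only [h3]
    rw [intervalIntegral.integral_const_mul]
    ring
  simp only [h1, h2]
  rw [intervalIntegral.integral_const_mul, intervalIntegral.integral_const_mul]
  congr 2
  refine MeasureTheory.intervalIntegral_intervalIntegral_swap ?_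
  have hc : Continuous (Function.uncurry fun θ φ : ℝ => circleMap 0 r θ * I *
      (circleMap 0 r' φ * I * f (circleMap 0 r θ) (circleMap 0 r' φ))) := by
    have c1 : Continuous (fun p : ℝ × ℝ => circleMap 0 r p.1) :=
      (continuous_circleMap 0 r).comp continuous_fst
    have c2 : Continuous (fun p : ℝ × ℝ => circleMap 0 r' p.2) :=
      (continuous_circleMap 0 r').comp continuous_snd
    exact (c1.mul continuous_const).mul ((c2.mul continuous_const).mul hf)
  have hk : IntegrableOn (Function.uncurry fun θ φ : ℝ => circleMap 0 r θ * I *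
      (circleMap 0 r' φ * I * f (circleMap 0 r θ) (circleMap 0 r' φ)))
      (Set.Icc (0 : ℝ) (2 * Real.pi) ×ˢ Set.Icc (0 : ℝ) (2 * Real.pi)) :=
    hc.continuousOn.integrableOn_compact (isCompact_Icc.prod isCompact_Icc)
  refine hk.mono_set ?_
  rw [Set.uIoc_of_le (by positivity)]
  exact Set.prod_mono Set.Ioc_subset_Icc_self Set.Ioc_subset_Icc_self

theorem ga_one (a : ℂ) : ci 1 (fun t => t⁻¹ * a) = a := by
  have h1 : (fun t : ℂ => t⁻¹ * a) = fun t : ℂ => a * t⁻¹ := by
    funext t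
    ring
  rw [h1, ga_const_mul]
  have h2 : ci 1 (fun t : ℂ => t⁻¹) = 1 := by
    unfold ci
    have h3 : (∮ z in C(0, 1), z⁻¹) = 2 * Real.pi * I := by
      have h4 := circleIntegral.integral_sub_center_inv (0 : ℂ) (one_ne_zero : (1 : ℝ) ≠ 0)
      simpa using h4
    rw [h3]
    have h5 : (2 * (Real.pi : ℂ) * I) ≠ 0 := by
      simp [Real.pi_ne_zero]
    exact inv_mul_cancel₀ h5
  rw [h2, mul_one]

/-- continuity of the rotated integrand in the four angles -/
theorem ga_angles {Ψ : ℂ → ℂ → ℂ → ℂ} {r r' : ℝ} (hr : 0 < r) (hr' : 0 < r')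
    (hc : ContinuousOn (un Ψ) (tor r r')) :
    Continuous (fun p : ℝ × ℝ × ℝ × ℝ => circleMap 0 1 p.1 ^ 2 *
      Ψ (circleMap 0 1 p.1 * circleMap 0 r p.2.1) (circleMap 0 1 p.1 * circleMap 0 r p.2.2.1)
        (circleMap 0 1 p.1 * circleMap 0 r' p.2.2.2)) := by
  have c1 : Continuous (fun p : ℝ × ℝ × ℝ × ℝ => circleMap 0 1 p.1) :=
    (continuous_circleMap 0 1).comp continuous_fst
  have c2 : Continuous (fun p : ℝ × ℝ × ℝ × ℝ => circleMap 0 r p.2.1) :=
    (continuous_circleMap 0 r).comp (continuous_fst.comp continuous_snd)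
  have c3 : Continuous (fun p : ℝ × ℝ × ℝ × ℝ => circleMap 0 r p.2.2.1) :=
    (continuous_circleMap 0 r).comp (continuous_fst.comp (continuous_snd.comp continuous_snd))
  have c4 : Continuous (fun p : ℝ × ℝ × ℝ × ℝ => circleMap 0 r' p.2.2.2) :=
    (continuous_circleMap 0 r').comp (continuous_snd.comp (continuous_snd.comp continuous_snd))
  have c5 : Continuous (fun p : ℝ × ℝ × ℝ × ℝ => un Ψ
      (circleMap 0 1 p.1 * circleMap 0 r p.2.1, circleMap 0 1 p.1 * circleMap 0 r p.2.2.1,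
        circleMap 0 1 p.1 * circleMap 0 r' p.2.2.2)) := by
    refine hc.comp_continuous ((c1.mul c2).prodMk ((c1.mul c3).prodMk (c1.mul c4))) ?_
    intro p
    simp only [tor, Set.mem_ofPred_eq, norm_mul, norm_circleMap_zero, abs_one, one_mul,
      abs_of_pos hr, abs_of_pos hr', and_self]
  exact (c1.pow 2).mul c5

theorem ga_circ {r : ℝ} {z : ℂ} (h : ‖z‖ = r) : ∃ θ : ℝ, z = circleMap 0 r θ := by
  refine ⟨z.arg, ?_⟩
  rw [circleMap_zero, ← h]
  exact (Complex.norm_mul_exp_arg_mul_I z).symm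

theorem t3_avg_pr {Ψ : ℂ → ℂ → ℂ → ℂ} {r r' : ℝ} (hr : 0 < r) (hr' : 0 < r')
    (hc : ContinuousOn (un Ψ) (tor r r')) :
    ci r (fun s => ci r fun w => ci r' fun z => Ψ w s z) =
      ci r (fun s => ci r fun w => ci r' fun z =>
        ci 1 fun t => t ^ 2 * Ψ (t * w) (t * s) (t * z)) := by
  have hang := ga_angles hr hr' hc
  -- step 1
  have s1 : ∀ s w : ℂ, ‖s‖ = r → ‖w‖ = r →
      ci r' (fun z => ci 1 fun t => t ^ 2 * Ψ (t * w) (t * s) (t * z)) =
        ci 1 (fun t => ci r' fun z => t ^ 2 * Ψ (t * w) (t * s) (t * z)) := by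
    intro s w hs hw
    obtain ⟨a, rfl⟩ := ga_circ hs
    obtain ⟨b, rfl⟩ := ga_circ hw
    refine ga_swap (f := fun z t => t ^ 2 * Ψ (t * circleMap 0 r b) (t * circleMap 0 r a)
      (t * z)) ?_
    have hm : Continuous (fun p : ℝ × ℝ => ((p.2, b, a, p.1) : ℝ × ℝ × ℝ × ℝ)) := by
      fun_prop
    have h := hang.comp hm
    simp only [Function.comp_def] at h
    exact h
  -- step 2
  have s2 : ∀ s : ℂ, ‖s‖ = r →
      ci r (fun w => ci 1 fun t => ci r' fun z => t ^ 2 * Ψ (t * w) (t * s) (t * z)) =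
        ci 1 (fun t => ci r fun w => ci r' fun z => t ^ 2 * Ψ (t * w) (t * s) (t * z)) := by
    intro s hs
    obtain ⟨a, rfl⟩ := ga_circ hs
    refine ga_swap (f := fun w t => ci r' fun z => t ^ 2 * Ψ (t * w) (t * circleMap 0 r a)
      (t * z)) ?_
    refine ga_cont (X := ℝ × ℝ) (f := fun p z => circleMap 0 1 p.2 ^ 2 *
      Ψ (circleMap 0 1 p.2 * circleMap 0 r p.1) (circleMap 0 1 p.2 * circleMap 0 r a)
      (circleMap 0 1 p.2 * z)) ?_
    have hm : Continuous (fun p : (ℝ × ℝ) × ℝ => ((p.1.2, p.1.1, a, p.2) : ℝ × ℝ × ℝ × ℝ)) := by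
      fun_prop
    have h := hang.comp hm
    simp only [Function.comp_def] at h
    exact h
  -- step 3
  have s3 : ci r (fun s => ci 1 fun t => ci r fun w => ci r' fun z =>
        t ^ 2 * Ψ (t * w) (t * s) (t * z)) =
      ci 1 (fun t => ci r fun s => ci r fun w => ci r' fun z =>
        t ^ 2 * Ψ (t * w) (t * s) (t * z)) := by
    refine ga_swap (f := fun s t => ci r fun w => ci r' fun z =>
      t ^ 2 * Ψ (t * w) (t * s) (t * z)) ?_
    refine ga_cont (X := ℝ × ℝ) (f := fun p w => ci r' fun z => circleMap 0 1 p.2 ^ 2 *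
      Ψ (circleMap 0 1 p.2 * w) (circleMap 0 1 p.2 * circleMap 0 r p.1)
      (circleMap 0 1 p.2 * z)) ?_
    refine ga_cont (X := (ℝ × ℝ) × ℝ) (f := fun q z => circleMap 0 1 q.1.2 ^ 2 *
      Ψ (circleMap 0 1 q.1.2 * circleMap 0 r q.2) (circleMap 0 1 q.1.2 * circleMap 0 r q.1.1)
      (circleMap 0 1 q.1.2 * z)) ?_
    have hm : Continuous (fun p : ((ℝ × ℝ) × ℝ) × ℝ =>
        ((p.1.1.2, p.1.2, p.1.1.1, p.2) : ℝ × ℝ × ℝ × ℝ)) := by
      fun_prop
    have h := hang.comp hm
    simp only [Function.comp_def] at h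
    exact h
  have e1 : ci r (fun s => ci r fun w => ci r' fun z =>
        ci 1 fun t => t ^ 2 * Ψ (t * w) (t * s) (t * z)) =
      ci 1 (fun t => ci r fun s => ci r fun w => ci r' fun z =>
        t ^ 2 * Ψ (t * w) (t * s) (t * z)) := by
    rw [← s3]
    refine ga_congr hr fun s hs => ?_
    rw [← s2 s hs]
    exact ga_congr hr fun w hw => s1 s w hs hw
  rw [e1]
  have e2 : ci 1 (fun t => ci r fun s => ci r fun w => ci r' fun z =>
        t ^ 2 * Ψ (t * w) (t * s) (t * z)) = ci 1 (fun t => t⁻¹ * ga_T r r' Ψ) := by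
    refine ga_congr one_pos fun t ht => ?_
    obtain ⟨φ, hφ⟩ := ga_circ ht
    have ht2 : t = cexp (φ * I) := by
      rw [hφ, circleMap_zero, Complex.ofReal_one, one_mul]
    have ht0 : t ≠ 0 := by
      rw [ht2]
      exact Complex.exp_ne_zero _
    have h3 := ga_rot3 r r' φ Ψ
    rw [← ht2] at h3
    rw [h3]
    simp only [ga_const_mul]
    unfold ga_T
    field_simp
  rw [e2, ga_one]
  rfl

end Pool.Agent.EXC
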