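import Pool.Agent.Lib_helper15.EXC.DefsG
/-! EXC, block GD: bound and linearity of the triple circle integral `T3`. -/

set_option autoImplicit false

namespace Pool.Agent.EXC

open Finset Complex Metric Filter MeasureTheory
open scoped Topology

theorem gd_ci_bound {r B : ℝ} (hr : 0 ≤ r) {f : ℂ → ℂ} (h : ∀ z, ‖z‖ = r → ‖f z‖ ≤ B) :
    ‖ci r f‖ ≤ r * B := by
  have h1 := circleIntegral.norm_two_pi_i_inv_smul_integral_le_of_norm_le_const (c := 0)
    (f := f) (C := B) hr (fun z hz => h z (by simpa using hz))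
  simpa [ci] using h1

theorem gd_ci_smul (r : ℝ) (a : ℂ) (f : ℂ → ℂ) : ci r (fun z => a * f z) = a * ci r f := by
  unfold ci
  rw [circleIntegral.integral_const_mul]
  ring

theorem gd_ci_congr {r : ℝ} (hr : 0 ≤ r) {f g : ℂ → ℂ} (h : ∀ z, ‖z‖ = r → f z = g z) :
    ci r f = ci r g := by
  unfold ci
  congr 1
  exact circleIntegral.integral_congr hr (fun z hz => h z (by simpa using hz))

theorem gd_ci_add {r : ℝ} {f g : ℂ → ℂ} (hf : Continuous (fun θ : ℝ => f (circleMap 0 r θ)))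
    (hg : Continuous (fun θ : ℝ => g (circleMap 0 r θ))) :
    ci r (fun z => f z + g z) = ci r f + ci r g := by
  unfold ci
  have h1 : CircleIntegrable f 0 r := hf.intervalIntegrable _ _
  have h2 : CircleIntegrable g 0 r := hg.intervalIntegrable _ _
  rw [circleIntegral.integral_add h1 h2]
  ring

theorem gd_ci_cont {X : Type} [TopologicalSpace X] {r : ℝ} {f : X → ℂ → ℂ}
    (hf : Continuous (fun p : X × ℝ => f p.1 (circleMap 0 r p.2))) :
    Continuous (fun x => ci r (f x)) := by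
  unfold ci circleIntegral
  refine continuous_const.mul ?_
  refine intervalIntegral.continuous_parametric_intervalIntegral_of_continuous' ?_ _ _
  have h1 : Continuous (fun p : X × ℝ => deriv (circleMap 0 r) p.2) := by
    simp only [deriv_circleMap]
    exact ((continuous_circleMap 0 r).comp continuous_snd).mul continuous_const
  exact h1.smul hf

/-- the kernel of `T3` -/
noncomputable def gd_K (i j : ℕ) (Φ : ℂ → ℂ → ℂ → ℂ) (w s z : ℂ) : ℂ :=
  Φ w s z / (w ^ 2 * s ^ (i + 1) * (z ^ (j + 1) * (z + s)))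

theorem gd_sum_ne {r r' : ℝ} {s z : ℂ} (hs : ‖s‖ = r) (hz : ‖z‖ = r') :
    r' - r ≤ ‖z + s‖ := by
  have h1 := norm_sub_norm_le z (-s)
  rw [norm_neg, sub_neg_eq_add, hs, hz] at h1
  exact h1

theorem gd_K_cont (i j : ℕ) {r r' : ℝ} (hr : 0 < r) (hrr : r < r') {Φ : ℂ → ℂ → ℂ → ℂ}
    (h : ContinuousOn (un Φ) (tor r r')) :
    Continuous (fun p : (ℝ × ℝ) × ℝ =>
      gd_K i j Φ (circleMap 0 r p.1.2) (circleMap 0 r p.1.1) (circleMap 0 r' p.2)) := by
  have hr' : 0 < r' := hr.trans hrr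
  have hw : Continuous (fun p : (ℝ × ℝ) × ℝ => circleMap 0 r p.1.2) :=
    (continuous_circleMap 0 r).comp (continuous_snd.comp continuous_fst)
  have hs : Continuous (fun p : (ℝ × ℝ) × ℝ => circleMap 0 r p.1.1) :=
    (continuous_circleMap 0 r).comp (continuous_fst.comp continuous_fst)
  have hz : Continuous (fun p : (ℝ × ℝ) × ℝ => circleMap 0 r' p.2) :=
    (continuous_circleMap 0 r').comp continuous_snd
  have nw : ∀ (ρ : ℝ), 0 < ρ → ∀ θ : ℝ, ‖circleMap 0 ρ θ‖ = ρ := by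
    intro ρ hρ θ
    rw [norm_circleMap_zero, abs_of_pos hρ]
  have h1 : Continuous (fun p : (ℝ × ℝ) × ℝ =>
      un Φ (circleMap 0 r p.1.2, circleMap 0 r p.1.1, circleMap 0 r' p.2)) := by
    refine h.comp_continuous (hw.prodMk (hs.prodMk hz)) fun p => ?_
    exact ⟨nw r hr _, nw r hr _, nw r' hr' _⟩
  unfold gd_K
  refine Continuous.div h1 ?_ fun p => ?_
  · exact ((hw.pow 2).mul (hs.pow (i + 1))).mul ((hz.pow (j + 1)).mul (hz.add hs))
  · have n1 : circleMap 0 r p.1.2 ≠ 0 := by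
      rw [← norm_pos_iff, nw r hr]
      exact hr
    have n2 : circleMap 0 r p.1.1 ≠ 0 := by
      rw [← norm_pos_iff, nw r hr]
      exact hr
    have n3 : circleMap 0 r' p.2 ≠ 0 := by
      rw [← norm_pos_iff, nw r' hr']
      exact hr'
    have n4 : circleMap 0 r' p.2 + circleMap 0 r p.1.1 ≠ 0 := by
      rw [← norm_pos_iff]
      exact lt_of_lt_of_le (sub_pos.mpr hrr) (gd_sum_ne (nw r hr _) (nw r' hr' _))
    exact mul_ne_zero (mul_ne_zero (pow_ne_zero _ n1) (pow_ne_zero _ n2))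
      (mul_ne_zero (pow_ne_zero _ n3) n4)

/-- block GD -/
theorem t3_bound_pr {i j : ℕ} {r r' M : ℝ} (hr : 0 < r) (hrr : r < r') {Φ : ℂ → ℂ → ℂ → ℂ}
    (h : ∀ w s z, ‖w‖ = r → ‖s‖ = r → ‖z‖ = r' → ‖Φ w s z‖ ≤ M) :
    ‖T3 i j r r' Φ‖ ≤ M / (r ^ (i + 1) * r' ^ j * (r' - r)) := by
  have hr' : 0 < r' := hr.trans hrr
  have hd : 0 < r' - r := sub_pos.mpr hrr
  have hM : 0 ≤ M := (norm_nonneg _).trans (h r r r' (by simp [hr.le]) (by simp [hr.le])
    (by simp [hr'.le]))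
  have h1 : ‖T3 i j r r' Φ‖ ≤
      r * (r * (r' * (M / (r ^ 2 * r ^ (i + 1) * (r' ^ (j + 1) * (r' - r)))))) := by
    refine gd_ci_bound hr.le fun s hs => gd_ci_bound hr.le fun w hw =>
      gd_ci_bound hr'.le fun z hz => ?_
    rw [norm_div, norm_mul, norm_mul, norm_mul, norm_pow, norm_pow, norm_pow, hw, hs, hz]
    have h2 := gd_sum_ne hs hz
    exact div_le_div₀ hM (h w s z hw hs hz) (by positivity) (by gcongr)
  refine h1.trans (le_of_eq ?_)
  rw [pow_succ r' j]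
  field_simp

/-- block GD -/
theorem t3_smul_pr (i j : ℕ) (r r' : ℝ) (a : ℂ) (Φ : ℂ → ℂ → ℂ → ℂ) :
    T3 i j r r' (fun w s z => a * Φ w s z) = a * T3 i j r r' Φ := by
  unfold T3
  simp only [mul_div_assoc, gd_ci_smul]

/-- block GD -/
theorem t3_add_pr (i j : ℕ) {r r' : ℝ} (hr : 0 < r) (hrr : r < r') {Φ Ψ : ℂ → ℂ → ℂ → ℂ}
    (h1 : ContinuousOn (un Φ) (tor r r')) (h2 : ContinuousOn (un Ψ) (tor r r')) :
    T3 i j r r' (fun w s z => Φ w s z + Ψ w s z) = T3 i j r r' Φ + T3 i j r r' Ψ := by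
  have hr' : 0 < r' := hr.trans hrr
  have cΦ := gd_K_cont i j hr hrr h1
  have cΨ := gd_K_cont i j hr hrr h2
  -- the inner integrals are continuous
  have dΦ : Continuous (fun p : ℝ × ℝ => ci r' (fun z =>
      gd_K i j Φ (circleMap 0 r p.2) (circleMap 0 r p.1) z)) := gd_ci_cont cΦ
  have dΨ : Continuous (fun p : ℝ × ℝ => ci r' (fun z =>
      gd_K i j Ψ (circleMap 0 r p.2) (circleMap 0 r p.1) z)) := gd_ci_cont cΨ
  have eΦ : Continuous (fun θ : ℝ => ci r (fun w => ci r' (fun z =>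
      gd_K i j Φ w (circleMap 0 r θ) z))) :=
    gd_ci_cont (f := fun θ w => ci r' (fun z => gd_K i j Φ w (circleMap 0 r θ) z)) dΦ
  have eΨ : Continuous (fun θ : ℝ => ci r (fun w => ci r' (fun z =>
      gd_K i j Ψ w (circleMap 0 r θ) z))) :=
    gd_ci_cont (f := fun θ w => ci r' (fun z => gd_K i j Ψ w (circleMap 0 r θ) z)) dΨ
  have hrep : ∀ x : ℂ, ‖x‖ = r → ∃ θ : ℝ, circleMap 0 r θ = x := by
    intro x hx
    have h3 : x ∈ sphere (0 : ℂ) |r| := by
      rw [abs_of_pos hr]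
      simpa using hx
    rw [← range_circleMap] at h3
    exact h3
  have key : T3 i j r r' (fun w s z => Φ w s z + Ψ w s z) =
      ci r (fun s => ci r (fun w => ci r' (fun z => gd_K i j Φ w s z)) +
        ci r (fun w => ci r' (fun z => gd_K i j Ψ w s z))) := by
    unfold T3
    refine gd_ci_congr hr.le fun s hs => ?_
    obtain ⟨θ, rfl⟩ := hrep s hs
    have k1 : Continuous (fun φ : ℝ => ((θ, φ) : ℝ × ℝ)) := Continuous.prodMk_right θ
    have f1 := dΦ.comp k1
    have f2 := dΨ.comp k1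
    rw [← gd_ci_add (f := fun w => ci r' (fun z => gd_K i j Φ w (circleMap 0 r θ) z))
      (g := fun w => ci r' (fun z => gd_K i j Ψ w (circleMap 0 r θ) z)) f1 f2]
    refine gd_ci_congr hr.le fun w hw => ?_
    obtain ⟨φ, rfl⟩ := hrep w hw
    have k2 : Continuous (fun t : ℝ => (((θ, φ), t) : (ℝ × ℝ) × ℝ)) :=
      Continuous.prodMk_right (θ, φ)
    have g1 := cΦ.comp k2
    have g2 := cΨ.comp k2
    rw [← gd_ci_add (f := fun z => gd_K i j Φ (circleMap 0 r φ) (circleMap 0 r θ) z)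
      (g := fun z => gd_K i j Ψ (circleMap 0 r φ) (circleMap 0 r θ) z) g1 g2]
    refine gd_ci_congr hr'.le fun z _ => ?_
    exact add_div _ _ _
  rw [key, gd_ci_add (f := fun s => ci r (fun w => ci r' (fun z => gd_K i j Φ w s z)))
    (g := fun s => ci r (fun w => ci r' (fun z => gd_K i j Ψ w s z))) eΦ eΨ]
  rfl

end Pool.Agent.EXC
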