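import Pool.Agent.Lib_helper15.EXC.DefsG
import Pool.Agent.Lib_helper15.EXCF.GA
import Pool.Agent.Lib_helper15.EXCF.GD
import Pool.Agent.Lib_helper15.EXCF.GF2
set_option autoImplicit false

namespace Pool.Agent.EXC

open Finset Complex Metric Filter MeasureTheory
open scoped Topology

/-- the common step -/
theorem gc_step {i j e : ℕ} {r r' : ℝ} (hr : 0 < r) (hrr : r < r')
    {P F : ℂ → ℂ → ℂ → ℂ} (hP : Continuous (un P))
    (hh : ∀ t w s z, P (t * w) (t * s) (t * z) = t ^ e * P w s z)
    (hF : ContinuousOn (un F) (tor r r')) {G : ℂ → ℂ → ℂ → ℂ}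
    (hG : ∀ w s z, ‖w‖ = r → ‖s‖ = r → ‖z‖ = r' →
      ci 1 (fun t => t ^ e / t ^ (i + j + 3) * F (t * w) (t * s) (t * z)) = G w s z) :
    T3 i j r r' (fun w s z => P w s z * F w s z) = T3 i j r r' (fun w s z => P w s z * G w s z) := by
  have hr' : 0 < r' := hr.trans hrr
  set Ψ : ℂ → ℂ → ℂ → ℂ := fun w s z =>
    P w s z * F w s z / (w ^ 2 * s ^ (i + 1) * (z ^ (j + 1) * (z + s))) with hΨ
  have hne : ∀ u ∈ tor r r', u.1 ^ 2 * u.2.1 ^ (i + 1) * (u.2.2 ^ (j + 1) * (u.2.2 + u.2.1)) ≠ 0 := by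
    intro u hu
    have h1 : u.1 ≠ 0 := by
      intro h
      have := hu.1
      rw [h, norm_zero] at this
      linarith
    have h2 : u.2.1 ≠ 0 := by
      intro h
      have := hu.2.1
      rw [h, norm_zero] at this
      linarith
    have h3 : u.2.2 ≠ 0 := by
      intro h
      have := hu.2.2
      rw [h, norm_zero] at this
      linarith
    have h4 : u.2.2 + u.2.1 ≠ 0 := by
      intro h
      have h5 : u.2.2 = -u.2.1 := eq_neg_of_add_eq_zero_left h
      have := hu.2.2
      rw [h5, norm_neg, hu.2.1] at this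
      linarith
    exact mul_ne_zero (mul_ne_zero (pow_ne_zero _ h1) (pow_ne_zero _ h2))
      (mul_ne_zero (pow_ne_zero _ h3) h4)
  have hc : ContinuousOn (un Ψ) (tor r r') := by
    have hden : Continuous (fun u : ℂ × ℂ × ℂ =>
        u.1 ^ 2 * u.2.1 ^ (i + 1) * (u.2.2 ^ (j + 1) * (u.2.2 + u.2.1))) := by fun_prop
    exact (hP.continuousOn.mul hF).div hden.continuousOn hne
  have h1 := t3_avg_pr hr hr' hc
  have e1 : T3 i j r r' (fun w s z => P w s z * F w s z) =
      ci r (fun s => ci r fun w => ci r' fun z => Ψ w s z) := rfl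
  rw [e1, h1]
  unfold T3
  refine ga_congr hr fun s hs => ga_congr hr fun w hw => ga_congr hr' fun z hz => ?_
  show _ = P w s z * G w s z / (w ^ 2 * s ^ (i + 1) * (z ^ (j + 1) * (z + s)))
  rw [← hG w s z hw hs hz]
  have e2 : P w s z * ci 1 (fun t => t ^ e / t ^ (i + j + 3) * F (t * w) (t * s) (t * z)) /
      (w ^ 2 * s ^ (i + 1) * (z ^ (j + 1) * (z + s))) =
      (P w s z / (w ^ 2 * s ^ (i + 1) * (z ^ (j + 1) * (z + s)))) *
        ci 1 (fun t => t ^ e / t ^ (i + j + 3) * F (t * w) (t * s) (t * z)) := by ring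
  rw [e2, ← ga_const_mul]
  refine ga_congr one_pos fun t ht => ?_
  have ht0 : t ≠ 0 := by
    intro h
    rw [h, norm_zero] at ht
    exact zero_ne_one ht
  simp only [hΨ]
  rw [hh]
  have hD := hne (w, s, z) ⟨hw, hs, hz⟩
  simp only at hD
  have e3 : (t * w) ^ 2 * (t * s) ^ (i + 1) * ((t * z) ^ (j + 1) * (t * z + t * s)) =
      t ^ 2 * t ^ (i + j + 3) * (w ^ 2 * s ^ (i + 1) * (z ^ (j + 1) * (z + s))) := by
    ring
  rw [e3]
  have ht2 : t ^ 2 ≠ 0 := pow_ne_zero _ ht0
  have ht3 : t ^ (i + j + 3) ≠ 0 := pow_ne_zero _ ht0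
  field_simp

theorem t3_hom_pr {i j e : ℕ} {r r' R : ℝ} (hr : 0 < r) (hrr : r < r') (hR : r' < R)
    {P F : ℂ → ℂ → ℂ → ℂ} (hP : Continuous (un P))
    (hh : ∀ t w s z, P (t * w) (t * s) (t * z) = t ^ e * P w s z)
    (hF : DifferentiableOn ℂ (un F) (pdisc R)) :
    (i + j + 2 < e → T3 i j r r' (fun w s z => P w s z * F w s z) = 0) ∧
    (e = i + j + 2 → T3 i j r r' (fun w s z => P w s z * F w s z) =
      F 0 0 0 * T3 i j r r' P) := by
  have hr' : 0 < r' := hr.trans hrr
  have hsub : tor r r' ⊆ pdisc R := fun u hu =>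
    ⟨by rw [hu.1]; linarith, by rw [hu.2.1]; linarith, by rw [hu.2.2]; linarith⟩
  have hFc : ContinuousOn (un F) (tor r r') := hF.continuousOn.mono hsub
  have hdt : ∀ w s z : ℂ, ‖w‖ = r → ‖s‖ = r → ‖z‖ = r' →
      DifferentiableOn ℂ (fun t : ℂ => F (t * w) (t * s) (t * z)) (closedBall 0 1) := by
    intro w s z hw hs hz
    have hm : ∀ t ∈ closedBall (0 : ℂ) 1, ((t * w, t * s, t * z) : ℂ × ℂ × ℂ) ∈ pdisc R := by
      intro t ht
      rw [mem_closedBall_zero_iff] at ht
      have h2 : ∀ v : ℂ, ‖v‖ ≤ r' → ‖t * v‖ < R := fun v hv => by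
        rw [norm_mul]
        calc ‖t‖ * ‖v‖ ≤ 1 * r' := mul_le_mul ht hv (norm_nonneg _) zero_le_one
          _ < R := by linarith
      exact ⟨h2 w (by rw [hw]; exact hrr.le), h2 s (by rw [hs]; exact hrr.le), h2 z hz.le⟩
    have hd : DifferentiableOn ℂ (fun t : ℂ => un F (t * w, t * s, t * z)) (closedBall 0 1) := by
      refine hF.comp ?_ hm
      fun_prop
    exact hd
  constructor
  · intro he
    obtain ⟨m, hm⟩ : ∃ m, e = i + j + 3 + m := ⟨e - (i + j + 3), by omega⟩
    have h1 := gc_step (i := i) (j := j) (e := e) hr hrr hP hh hFc (G := fun _ _ _ => 0) (by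
      intro w s z hw hs hz
      have h2 := gf2_ci one_pos (F := fun t => t ^ (m + 1) * F (t * w) (t * s) (t * z))
        ((by fun_prop : DifferentiableOn ℂ (fun t : ℂ => t ^ (m + 1)) (closedBall 0 1)).mul
          (hdt w s z hw hs hz)) 0
      rw [iteratedDeriv_zero, Nat.factorial_zero, Nat.cast_one, div_one] at h2
      have h3 : (0 : ℂ) ^ (m + 1) * F (0 * w) (0 * s) (0 * z) = 0 := by
        rw [zero_pow (by omega), zero_mul]
      rw [h3] at h2
      rw [← h2]
      refine ga_congr one_pos fun t ht => ?_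
      have ht0 : t ≠ 0 := by
        intro h
        rw [h, norm_zero] at ht
        exact zero_ne_one ht
      rw [hm, pow_add]
      have ht3 : t ^ (i + j + 3) ≠ 0 := pow_ne_zero _ ht0
      field_simp
      ring)
    rw [h1]
    have h4 := t3_smul_pr i j r r' 0 P
    simpa using h4
  · intro he
    have h1 := gc_step (i := i) (j := j) (e := e) hr hrr hP hh hFc (G := fun _ _ _ => F 0 0 0) (by
      intro w s z hw hs hz
      have h2 := gf2_ci one_pos (F := fun t => F (t * w) (t * s) (t * z)) (hdt w s z hw hs hz) 0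
      rw [iteratedDeriv_zero, Nat.factorial_zero, Nat.cast_one, div_one, zero_mul, zero_mul,
        zero_mul] at h2
      rw [← h2]
      refine ga_congr one_pos fun t ht => ?_
      have ht0 : t ≠ 0 := by
        intro h
        rw [h, norm_zero] at ht
        exact zero_ne_one ht
      rw [he]
      have ht3 : t ^ (i + j + 3) ≠ 0 := pow_ne_zero _ ht0
      have ht4 : t ^ (i + j + 3) = t ^ (i + j + 2) * t := by ring
      have ht5 : t ^ (i + j + 2) ≠ 0 := pow_ne_zero _ ht0
      rw [ht4, zero_add, pow_one]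
      field_simp)
    rw [h1, ← t3_smul_pr]
    congr 1
    funext w s z
    ring

theorem t3_exp_pr {i j e d : ℕ} {r r' : ℝ} (hr : 0 < r) (hrr : r < r')
    {P : ℂ → ℂ → ℂ → ℂ} (hP : Continuous (un P))
    (hh : ∀ t w s z, P (t * w) (t * s) (t * z) = t ^ e * P w s z) (hd : e + d = i + j + 2)
    (L : ℂ) : T3 i j r r' (fun w s z => P w s z * Complex.exp (L * ell w s z)) =
      L ^ d / d.factorial * T3 i j r r' (fun w s z => P w s z * ell w s z ^ d) := by
  have hr' : 0 < r' := hr.trans hrr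
  have hE : Continuous (un (fun w s z => Complex.exp (L * ell w s z))) := by
    unfold un ell
    fun_prop
  have h1 := gc_step (i := i) (j := j) (e := e) hr hrr hP hh
    (F := fun w s z => Complex.exp (L * ell w s z)) hE.continuousOn
    (G := fun w s z => (L * ell w s z) ^ d / d.factorial) (by
      intro w s z hw hs hz
      set c : ℂ := L * ell w s z with hc
      have h2 := gf2_ci one_pos (F := fun t => Complex.exp (c * t))
        (by fun_prop : DifferentiableOn ℂ (fun t : ℂ => Complex.exp (c * t)) (closedBall 0 1)) d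
      rw [iteratedDeriv_cexp_const_mul] at h2
      simp only [mul_zero, Complex.exp_zero, mul_one] at h2
      rw [← h2]
      refine ga_congr one_pos fun t ht => ?_
      have ht0 : t ≠ 0 := by
        intro h
        rw [h, norm_zero] at ht
        exact zero_ne_one ht
      have e1 : L * ell (t * w) (t * s) (t * z) = c * t := by
        rw [hc]
        unfold ell
        ring
      rw [e1]
      have e2 : t ^ (i + j + 3) = t ^ e * t ^ (d + 1) := by
        rw [← pow_add]
        congr 1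
        omega
      rw [e2]
      have ht3 : t ^ e ≠ 0 := pow_ne_zero _ ht0
      have ht4 : t ^ (d + 1) ≠ 0 := pow_ne_zero _ ht0
      field_simp)
  rw [h1, ← t3_smul_pr]
  congr 1
  funext w s z
  rw [mul_pow]
  ring

end Pool.Agent.EXC
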