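import Pool.Agent.Lib_helper15.EXC.DefsG
import Pool.Agent.Lib_helper15.EXCF.GD
/-! EXC, block GE: the seven values. -/

set_option autoImplicit false

namespace Pool.Agent.EXC

open Finset Complex Metric Filter MeasureTheory
open scoped Topology

theorem ge_ci_congr {r : ℝ} (hr : 0 ≤ r) {f g : ℂ → ℂ} (h : ∀ z : ℂ, ‖z‖ = r → f z = g z) :
    ci r f = ci r g := by
  unfold ci
  congr 1
  apply circleIntegral.integral_congr hr
  intro z hz
  apply h
  simpa using hz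

theorem ge_ci_mul (r : ℝ) (a : ℂ) (f : ℂ → ℂ) : ci r (fun z => a * f z) = a * ci r f := by
  unfold ci
  rw [circleIntegral.integral_const_mul]
  ring

theorem ge_ci_pow {r : ℝ} (hr : 0 < r) (b j : ℕ) :
    ci r (fun z => z ^ b / z ^ (j + 1)) = if b = j then 1 else 0 := by
  have h1 : ci r (fun z => z ^ b / z ^ (j + 1)) =
      ci r (fun z => (z - 0) ^ ((b : ℤ) - (j + 1 : ℕ))) := by
    apply ge_ci_congr hr.le
    intro z hz
    have hz0 : z ≠ 0 := by
      intro h0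
      rw [h0, norm_zero] at hz
      exact hr.ne hz
    rw [sub_zero, zpow_sub₀ hz0, zpow_natCast, zpow_natCast]
  rw [h1]
  unfold ci
  split_ifs with hbj
  · have h2 : (∮ z in C(0, r), (z - 0) ^ ((b : ℤ) - (j + 1 : ℕ))) =
        ∮ z in C((0:ℂ), r), (z - 0)⁻¹ := by
      congr 1
      ext z
      rw [← zpow_neg_one]
      congr 1
      rw [hbj]
      push_cast
      ring
    rw [h2, circleIntegral.integral_sub_center_inv _ hr.ne']
    exact inv_mul_cancel₀ two_pi_I_ne_zero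
  · rw [circleIntegral.integral_sub_zpow_of_ne, mul_zero]
    intro h3
    apply hbj
    push_cast at h3
    omega

theorem ge_ci_sum {r : ℝ} {ι : Type*} (S : Finset ι) {f : ι → ℂ → ℂ}
    (h : ∀ k ∈ S, CircleIntegrable (f k) 0 r) :
    ci r (fun z => ∑ k ∈ S, f k z) = ∑ k ∈ S, ci r (f k) := by
  unfold ci
  rw [circleIntegral.integral_fun_sum h, Finset.mul_sum]

theorem ge_int {r : ℝ} (hr : 0 < r) (b j : ℕ) (a : ℂ) :
    CircleIntegrable (fun z => a * (z ^ b / z ^ (j + 1))) 0 r := by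
  apply ContinuousOn.circleIntegrable hr.le
  apply ContinuousOn.mul continuousOn_const
  apply ContinuousOn.div (by fun_prop) (by fun_prop)
  intro z hz
  have hz1 : ‖z‖ = r := by simpa using hz
  have hz0 : z ≠ 0 := by
    intro h0
    rw [h0, norm_zero] at hz1
    exact hr.ne hz1
  exact pow_ne_zero _ hz0

/-- double integrals of polynomials -/
theorem ge_ci2 {r r' : ℝ} (hr : 0 < r) (hr' : 0 < r') (i j : ℕ) (S : Finset (ℕ × ℕ))
    (q : ℕ × ℕ → ℂ) :
    ci r (fun s => ci r' fun z => (∑ p ∈ S, q p * (s ^ p.1 * z ^ p.2)) /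
      (s ^ (i + 1) * z ^ (j + 1))) = if (i, j) ∈ S then q (i, j) else 0 := by
  have h1 : ∀ s : ℂ, (ci r' fun z => (∑ p ∈ S, q p * (s ^ p.1 * z ^ p.2)) /
      (s ^ (i + 1) * z ^ (j + 1))) =
      ∑ p ∈ S, (q p * if p.2 = j then 1 else 0) * (s ^ p.1 / s ^ (i + 1)) := by
    intro s
    have h2 : (fun z : ℂ => (∑ p ∈ S, q p * (s ^ p.1 * z ^ p.2)) / (s ^ (i + 1) * z ^ (j + 1))) =
        fun z => ∑ p ∈ S, (q p * (s ^ p.1 / s ^ (i + 1))) * (z ^ p.2 / z ^ (j + 1)) := by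
      ext z
      rw [Finset.sum_div]
      apply Finset.sum_congr rfl
      intro p _
      rw [mul_div_assoc, mul_div_mul_comm]
      ring
    rw [h2, ge_ci_sum S (fun p _ => ge_int hr' p.2 j _)]
    apply Finset.sum_congr rfl
    intro p _
    rw [ge_ci_mul, ge_ci_pow hr']
    ring
  rw [funext h1, ge_ci_sum S (fun p _ => ge_int hr p.1 i _)]
  have h3 : ∀ p ∈ S, ci r (fun z => (q p * if p.2 = j then 1 else 0) * (z ^ p.1 / z ^ (i + 1))) =
      if p = (i, j) then q p else 0 := by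
    intro p _
    rw [ge_ci_mul, ge_ci_pow hr]
    by_cases ha : p.2 = j
    · by_cases hb : p.1 = i
      · have : p = (i, j) := Prod.ext hb ha
        simp [ha, hb, this]
      · have : p ≠ (i, j) := fun h => hb (by rw [h])
        simp [hb, this]
    · have : p ≠ (i, j) := fun h => ha (by rw [h])
      simp [ha, this]
  rw [Finset.sum_congr rfl h3]
  simp

/-- powers of `w` other than the first have zero integral -/
theorem ge_w {r : ℝ} (r' : ℝ) (hr : 0 < r) (i j : ℕ) {m : ℕ} (hm : m ≠ 1) (c : ℂ → ℂ → ℂ) :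
    T3 i j r r' (fun w s z => w ^ m * c s z) = 0 := by
  unfold T3
  have h1 : ∀ s : ℂ, (ci r fun w => ci r' fun z =>
      w ^ m * c s z / (w ^ 2 * s ^ (i + 1) * (z ^ (j + 1) * (z + s)))) = 0 := by
    intro s
    have h2 : ∀ w : ℂ, (ci r' fun z =>
        w ^ m * c s z / (w ^ 2 * s ^ (i + 1) * (z ^ (j + 1) * (z + s)))) =
        (ci r' fun z => c s z / (s ^ (i + 1) * (z ^ (j + 1) * (z + s)))) * (w ^ m / w ^ 2) := by
      intro w
      rw [mul_comm (ci r' _), ← ge_ci_mul]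
      congr 1
      ext z
      rw [mul_assoc (w ^ 2), mul_div_mul_comm]
    rw [funext h2, ge_ci_mul, ge_ci_pow hr m 1, if_neg hm, mul_zero]
  rw [funext h1]
  have h3 := ge_ci_mul r 0 (fun _ => (0 : ℂ))
  simpa using h3

/-- the first power of `w`; the factor `z + s` cancels -/
theorem ge_w1 {r r' : ℝ} (hr : 0 < r) (hrr : r < r') (i j : ℕ) (Q : ℂ → ℂ → ℂ) :
    T3 i j r r' (fun w s z => w ^ 1 * ((z + s) * Q s z)) =
      ci r (fun s => ci r' fun z => Q s z / (s ^ (i + 1) * z ^ (j + 1))) := by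
  unfold T3
  apply ge_ci_congr hr.le
  intro s hs
  have h2 : ∀ w : ℂ, (ci r' fun z =>
      w ^ 1 * ((z + s) * Q s z) / (w ^ 2 * s ^ (i + 1) * (z ^ (j + 1) * (z + s)))) =
      (ci r' fun z => Q s z / (s ^ (i + 1) * z ^ (j + 1))) * (w ^ 1 / w ^ 2) := by
    intro w
    rw [mul_comm (ci r' _), ← ge_ci_mul]
    apply ge_ci_congr (hr.trans hrr).le
    intro z hz
    have hzs : z + s ≠ 0 := by
      intro h0
      have h1 : z = -s := eq_neg_of_add_eq_zero_left h0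
      rw [h1, norm_neg, hs] at hz
      exact hrr.ne hz
    have e1 : w ^ 2 * s ^ (i + 1) * (z ^ (j + 1) * (z + s)) =
        (w ^ 2 * (s ^ (i + 1) * z ^ (j + 1))) * (z + s) := by ring
    have e2 : w ^ 1 * ((z + s) * Q s z) = (w ^ 1 * Q s z) * (z + s) := by ring
    rw [e1, e2, mul_div_mul_right _ _ hzs, mul_div_mul_comm]
  rw [funext h2, ge_ci_mul, ge_ci_pow hr 1 1, if_pos rfl, mul_one]

/-- sums over powers of `w` -/
theorem ge_sum {r r' : ℝ} (hr : 0 < r) (hrr : r < r') (i j : ℕ) (c : ℕ → ℂ → ℂ → ℂ)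
    (hc : ∀ m, Continuous (fun u : ℂ × ℂ => c m u.1 u.2)) (n : ℕ) :
    T3 i j r r' (fun w s z => ∑ m ∈ range n, w ^ m * c m s z) =
      ∑ m ∈ range n, T3 i j r r' (fun w s z => w ^ m * c m s z) := by
  induction n with
  | zero =>
    simp only [Finset.range_zero, Finset.sum_empty]
    have := t3_smul_pr i j r r' 0 (fun _ _ _ => 0)
    simpa using this
  | succ n ih =>
    have hcm : ∀ m, Continuous (un (fun w s z => w ^ m * c m s z)) := by
      intro m
      unfold un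
      exact (continuous_fst.pow m).mul ((hc m).comp continuous_snd)
    rw [Finset.sum_range_succ, ← ih, ← t3_add_pr i j hr hrr]
    · congr 1
      ext w s z
      rw [Finset.sum_range_succ]
    · have : Continuous (un (fun w s z => ∑ m ∈ range n, w ^ m * c m s z)) := by
        unfold un
        apply continuous_finsetSum
        intro m _
        exact hcm m
      exact this.continuousOn
    · exact (hcm n).continuousOn

/-- the value of a polynomial -/
theorem ge_main {r r' : ℝ} (hr : 0 < r) (hrr : r < r') (i j : ℕ) (Φ : ℂ → ℂ → ℂ → ℂ)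
    (c : ℕ → ℂ → ℂ → ℂ) (hc : ∀ m, Continuous (fun u : ℂ × ℂ => c m u.1 u.2)) (n : ℕ)
    (hΦ : ∀ w s z, Φ w s z = ∑ m ∈ range (n + 2), w ^ m * c m s z)
    (S : Finset (ℕ × ℕ)) (q : ℕ × ℕ → ℂ)
    (h1 : ∀ s z, c 1 s z = (z + s) * ∑ p ∈ S, q p * (s ^ p.1 * z ^ p.2)) :
    T3 i j r r' Φ = if (i, j) ∈ S then q (i, j) else 0 := by
  have e1 : Φ = fun w s z => ∑ m ∈ range (n + 2), w ^ m * c m s z := by
    ext w s z
    exact hΦ w s z
  rw [e1, ge_sum hr hrr i j c hc, Finset.sum_eq_single 1]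
  · have e2 : (fun w s z => w ^ 1 * c 1 s z) =
        fun w s z => w ^ 1 * ((z + s) * ∑ p ∈ S, q p * (s ^ p.1 * z ^ p.2)) := by
      ext w s z
      rw [h1]
    rw [e2, ge_w1 hr hrr, ge_ci2 hr (hr.trans hrr)]
  · intro m _ hm
    exact ge_w r' hr i j hm _
  · intro h
    exact absurd (Finset.mem_range.2 (by omega)) h

/-- `PP 0` -/
def ge_c0 : ℕ → ℂ → ℂ → ℂ
  | 0 => fun s z => (s * z) ^ 2
  | 1 => fun s z => 2 * (s + z) * (s * z)
  | 2 => fun s z => (s + z) ^ 2 + 2 * (s * z)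
  | 3 => fun s z => 2 * (s + z)
  | _ => fun _ _ => 1

/-- `PP 2` -/
def ge_c2 : ℕ → ℂ → ℂ → ℂ
  | 0 => fun s z => s ^ 2 + z ^ 2 + 4 * (s * z)
  | 1 => fun s z => 6 * (s + z)
  | _ => fun _ _ => 6

/-- `PP 1 * ell` -/
def ge_c1 : ℕ → ℂ → ℂ → ℂ
  | 0 => fun s z => (s * z) * (s + z) ^ 2
  | 1 => fun s z => (s + z) ^ 3 + 4 * (s + z) * (s * z)
  | 2 => fun s z => 5 * (s + z) ^ 2 + 4 * (s * z)
  | 3 => fun s z => 8 * (s + z)
  | _ => fun _ _ => 4

/-- `PP 0 * ell ^ 2` -/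
noncomputable def ge_c3 : ℕ → ℂ → ℂ → ℂ
  | 0 => fun s z => (s + z) ^ 2 * (s * z) ^ 2 / 4
  | 1 => fun s z => (s * z + (s + z) ^ 2 / 2) * ((s + z) * (s * z))
  | 2 => fun s z => (s * z + (s + z) ^ 2 / 2) ^ 2 + 3 / 2 * ((s + z) ^ 2 * (s * z))
  | 3 => fun s z => (s + z) * (s * z) + 3 * (s + z) * (s * z + (s + z) ^ 2 / 2)
  | 4 => fun s z => 9 / 4 * (s + z) ^ 2 + 2 * (s * z + (s + z) ^ 2 / 2)
  | 5 => fun s z => 3 * (s + z)
  | _ => fun _ _ => 1

theorem ge_c0_cont (m : ℕ) : Continuous (fun u : ℂ × ℂ => ge_c0 m u.1 u.2) := by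
  rcases m with _ | _ | _ | _ | m <;> simp only [ge_c0] <;> fun_prop

theorem ge_c1_cont (m : ℕ) : Continuous (fun u : ℂ × ℂ => ge_c1 m u.1 u.2) := by
  rcases m with _ | _ | _ | _ | m <;> simp only [ge_c1] <;> fun_prop

theorem ge_c2_cont (m : ℕ) : Continuous (fun u : ℂ × ℂ => ge_c2 m u.1 u.2) := by
  rcases m with _ | _ | m <;> simp only [ge_c2] <;> fun_prop

theorem ge_c3_cont (m : ℕ) : Continuous (fun u : ℂ × ℂ => ge_c3 m u.1 u.2) := by
  rcases m with _ | _ | _ | _ | _ | _ | m <;> simp only [ge_c3] <;> fun_prop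

theorem ge_v0 {r r' : ℝ} (hr : 0 < r) (hrr : r < r') (i j : ℕ) :
    T3 i j r r' (PP 0) = if (i, j) ∈ ({(1, 1)} : Finset (ℕ × ℕ)) then 2 else 0 := by
  apply ge_main hr hrr i j (PP 0) ge_c0 ge_c0_cont 3 _ {(1, 1)} (fun _ => 2)
  · intro s z
    simp only [ge_c0, Finset.sum_singleton]
    ring
  · intro w s z
    simp only [Finset.sum_range_succ, Finset.sum_range_zero, ge_c0, PP]
    ring

theorem ge_v2 {r r' : ℝ} (hr : 0 < r) (hrr : r < r') (i j : ℕ) :
    T3 i j r r' (PP 2) = if (i, j) ∈ ({(0, 0)} : Finset (ℕ × ℕ)) then 6 else 0 := by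
  apply ge_main hr hrr i j (PP 2) ge_c2 ge_c2_cont 1 _ {(0, 0)} (fun _ => 6)
  · intro s z
    simp only [ge_c2, Finset.sum_singleton]
    ring
  · intro w s z
    simp only [Finset.sum_range_succ, Finset.sum_range_zero, ge_c2, PP]
    ring

theorem ge_v1 {r r' : ℝ} (hr : 0 < r) (hrr : r < r') (i j : ℕ) :
    T3 i j r r' (fun w s z => PP 1 w s z * ell w s z ^ 1) =
      if (i, j) ∈ ({(2, 0), (1, 1), (0, 2)} : Finset (ℕ × ℕ)) then
        (if (i, j) = (1, 1) then 6 else 1) else 0 := by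
  apply ge_main hr hrr i j _ ge_c1 ge_c1_cont 3 _ {(2, 0), (1, 1), (0, 2)}
    (fun p => if p = (1, 1) then 6 else 1)
  · intro s z
    rw [Finset.sum_insert (by decide), Finset.sum_insert (by decide), Finset.sum_singleton]
    simp only [ge_c1]
    norm_num
    ring
  · intro w s z
    simp only [Finset.sum_range_succ, Finset.sum_range_zero, ge_c1, PP, ell]
    ring

theorem ge_v3 {r r' : ℝ} (hr : 0 < r) (hrr : r < r') (i j : ℕ) :
    T3 i j r r' (fun w s z => PP 0 w s z * ell w s z ^ 2) =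
      if (i, j) ∈ ({(2, 2), (3, 1), (1, 3)} : Finset (ℕ × ℕ)) then
        (if (i, j) = (2, 2) then 2 else 1 / 2) else 0 := by
  apply ge_main hr hrr i j _ ge_c3 ge_c3_cont 5 _ {(2, 2), (3, 1), (1, 3)}
    (fun p => if p = (2, 2) then 2 else 1 / 2)
  · intro s z
    rw [Finset.sum_insert (by decide), Finset.sum_insert (by decide), Finset.sum_singleton]
    simp only [ge_c3]
    norm_num
    ring
  · intro w s z
    simp only [Finset.sum_range_succ, Finset.sum_range_zero, ge_c3, PP, ell]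
    ring

theorem t3_vals_pr {r r' : ℝ} (hr : 0 < r) (hrr : r < r') :
    T3 1 1 r r' (PP 0) = 2 ∧ T3 2 0 r r' (PP 0) = 0 ∧ T3 0 2 r r' (PP 0) = 0 ∧
    T3 0 0 r r' (PP 2) = 6 ∧
    T3 2 0 r r' (fun w s z => PP 1 w s z * ell w s z ^ 1) = 1 ∧
    T3 0 2 r r' (fun w s z => PP 1 w s z * ell w s z ^ 1) = 1 ∧
    T3 2 2 r r' (fun w s z => PP 0 w s z * ell w s z ^ 2) = 2 := by
  refine ⟨?_, ?_, ?_, ?_, ?_, ?_, ?_⟩
  · rw [ge_v0 hr hrr, if_pos (by decide)]
  · rw [ge_v0 hr hrr, if_neg (by decide)]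
  · rw [ge_v0 hr hrr, if_neg (by decide)]
  · rw [ge_v2 hr hrr, if_pos (by decide)]
  · rw [ge_v1 hr hrr, if_pos (by decide), if_neg (by decide)]
  · rw [ge_v1 hr hrr, if_pos (by decide), if_neg (by decide)]
  · rw [ge_v3 hr hrr, if_pos (by decide), if_pos rfl]


end Pool.Agent.EXC
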