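import Pool.Agent.Lib_helper15.EXC.DefsG
import Mathlib.Analysis.Complex.Schwarz
set_option autoImplicit false

namespace Pool.Agent.EXC

open Finset Complex Metric Filter MeasureTheory
open scoped Topology

theorem t3_schwarz_pr {R h₀ C₀ ρ : ℝ} {H : ℂ → ℂ → ℂ → ℂ} (hR : 0 < R) (hh : 0 < h₀) (hC : 1 ≤ C₀)
    (hd : DifferentiableOn ℂ (un H) (pdisc R)) (h0 : H 0 0 0 = (h₀ : ℂ))
    (hb : ∀ u ∈ pdisc R, ‖un H u‖ ≤ C₀ * h₀) (hρ : 0 < ρ) (hρR : ρ < R) {w s z : ℂ}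
    (hw : ‖w‖ ≤ ρ) (hs : ‖s‖ ≤ ρ) (hz : ‖z‖ ≤ ρ) :
    ‖H w s z - h₀‖ ≤ 2 * C₀ * h₀ * (ρ / R) := by
  set φ : ℂ → ℂ := fun t => un H (t * w, t * s, t * z) with hφ
  have hmem : ∀ t ∈ ball (0 : ℂ) (R / ρ), (t * w, t * s, t * z) ∈ pdisc R := by
    intro t ht
    rw [mem_ball_zero_iff] at ht
    have h1 : ‖t‖ * ρ < R := by
      rwa [lt_div_iff₀ hρ] at ht
    have h2 : ∀ v : ℂ, ‖v‖ ≤ ρ → ‖t * v‖ < R := fun v hv => by
      rw [norm_mul]
      exact (mul_le_mul_of_nonneg_left hv (norm_nonneg _)).trans_lt h1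
    exact ⟨h2 w hw, h2 s hs, h2 z hz⟩
  have hdφ : DifferentiableOn ℂ φ (ball 0 (R / ρ)) := by
    refine hd.comp ?_ hmem
    fun_prop
  have hφ0 : φ 0 = (h₀ : ℂ) := by
    simp only [hφ, un, zero_mul, h0]
  have hlt : (1 : ℂ) ∈ ball (0 : ℂ) (R / ρ) := by
    rw [mem_ball_zero_iff, norm_one, lt_div_iff₀ hρ, one_mul]
    exact hρR
  have hlim : ‖H w s z - h₀‖ ≤ (2 * C₀ * h₀) / (R / ρ) := by
    have hm : Set.MapsTo φ (ball 0 (R / ρ)) (closedBall (φ 0) (2 * C₀ * h₀)) := by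
      intro t ht
      rw [mem_closedBall, dist_eq_norm, hφ0]
      have h1 := hb _ (hmem t ht)
      have h2 : ‖φ t - h₀‖ ≤ C₀ * h₀ + h₀ := by
        refine (norm_sub_le _ _).trans ?_
        rw [Complex.norm_real, Real.norm_eq_abs, abs_of_pos hh]
        exact add_le_add h1 le_rfl
      have h3 : h₀ ≤ C₀ * h₀ := by nlinarith
      linarith
    have h1 := Complex.dist_le_div_mul_dist_of_mapsTo_ball hdφ hm hlt
    rw [dist_eq_norm, dist_eq_norm, hφ0, sub_zero, norm_one] at h1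
    have h2 : φ 1 = H w s z := by simp only [hφ, un, one_mul]
    rwa [h2, mul_one] at h1
  refine hlim.trans (le_of_eq ?_)
  field_simp

end Pool.Agent.EXC
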