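import Pool.Agent.Lib_helper15.EXC.DefsG
import Pool.Agent.Lib_helper15.EXCF.GC
import Pool.Agent.Lib_helper15.EXCF.GD
import Pool.Agent.Lib_helper15.EXCF.GE
import Pool.Agent.Lib_helper15.EXCF.GF1
/-!
# EXC, part G: the Gram matrix, abstract form

Block GG: `gram_abs`.
-/

set_option autoImplicit false

namespace Pool.Agent.EXC

open Finset Complex Metric Filter MeasureTheory
open scoped Topology

theorem gg_pp_hom (k : ℕ) (hk : k ≤ 4) (t w s z : ℂ) :
    PP k (t * w) (t * s) (t * z) = t ^ (4 - k) * PP k w s z := by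
  interval_cases k <;> simp only [PP] <;> ring

theorem gg_pp_cont (k : ℕ) (hk : k ≤ 4) : Continuous (un (PP k)) := by
  interval_cases k <;> unfold un <;> simp only [PP] <;> fun_prop

theorem gg_pp_bound {k : ℕ} (hk : k ≤ 4) {ρ : ℝ} (hρ : 0 ≤ ρ) {w s z : ℂ} (h1 : ‖w + s‖ ≤ ρ)
    (h2 : ‖w + z‖ ≤ ρ) : ‖PP k w s z‖ ≤ 6 * ρ ^ (4 - k) := by
  have a0 := norm_nonneg (w + s)
  have b0 := norm_nonneg (w + z)
  set a := ‖w + s‖ with ha
  set b := ‖w + z‖ with hb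
  interval_cases k
  · simp only [PP, norm_mul, norm_pow]
    rw [← ha, ← hb]
    have e1 : a ^ 2 ≤ ρ ^ 2 := pow_le_pow_left₀ a0 h1 2
    have e2 : b ^ 2 ≤ ρ ^ 2 := pow_le_pow_left₀ b0 h2 2
    have e3 : a ^ 2 * b ^ 2 ≤ ρ ^ 2 * ρ ^ 2 := mul_le_mul e1 e2 (by positivity) (by positivity)
    have e4 : (0 : ℝ) ≤ ρ ^ 4 := by positivity
    calc a ^ 2 * b ^ 2 ≤ ρ ^ 2 * ρ ^ 2 := e3
      _ = ρ ^ 4 := by ring
      _ ≤ 6 * ρ ^ (4 - 0) := by simpa using (by linarith : ρ ^ 4 ≤ 6 * ρ ^ 4)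
  · simp only [PP]
    refine (norm_add_le _ _).trans ?_
    simp only [norm_mul, norm_pow, Complex.norm_ofNat]
    rw [← ha, ← hb]
    have e1 : a ^ 2 ≤ ρ ^ 2 := pow_le_pow_left₀ a0 h1 2
    have e2 : b ^ 2 ≤ ρ ^ 2 := pow_le_pow_left₀ b0 h2 2
    have e3 : a * b ^ 2 ≤ ρ * ρ ^ 2 := mul_le_mul h1 e2 (by positivity) (by positivity)
    have e4 : a ^ 2 * b ≤ ρ ^ 2 * ρ := mul_le_mul e1 h2 (by positivity) (by positivity)
    have e5 : (0 : ℝ) ≤ ρ ^ 3 := by positivity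
    calc 2 * a * b ^ 2 + 2 * a ^ 2 * b = 2 * (a * b ^ 2) + 2 * (a ^ 2 * b) := by ring
      _ ≤ 2 * (ρ * ρ ^ 2) + 2 * (ρ ^ 2 * ρ) := by linarith
      _ = 4 * ρ ^ 3 := by ring
      _ ≤ 6 * ρ ^ (4 - 1) := by simpa using (by linarith : 4 * ρ ^ 3 ≤ 6 * ρ ^ 3)
  · simp only [PP]
    refine (norm_add_le _ _).trans ((add_le_add_left (norm_add_le _ _) _).trans ?_)
    simp only [norm_mul, norm_pow, Complex.norm_ofNat]
    rw [← ha, ← hb]
    have e1 : a ^ 2 ≤ ρ ^ 2 := pow_le_pow_left₀ a0 h1 2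
    have e2 : b ^ 2 ≤ ρ ^ 2 := pow_le_pow_left₀ b0 h2 2
    have e3 : a * b ≤ ρ * ρ := mul_le_mul h1 h2 (by positivity) (by positivity)
    calc a ^ 2 + b ^ 2 + 4 * a * b = a ^ 2 + b ^ 2 + 4 * (a * b) := by ring
      _ ≤ ρ ^ 2 + ρ ^ 2 + 4 * (ρ * ρ) := by linarith
      _ = 6 * ρ ^ (4 - 2) := by
        norm_num
        ring
  · simp only [PP]
    refine (norm_add_le _ _).trans ?_
    simp only [norm_mul, Complex.norm_ofNat]
    rw [← ha, ← hb]
    calc 2 * a + 2 * b ≤ 6 * ρ := by linarith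
      _ = 6 * ρ ^ (4 - 3) := by norm_num
  · simp [PP]

theorem gg_ell {L : ℝ} (hL : 0 < L) {w s z : ℂ} (hw : ‖w‖ = 1 / L) (hs : ‖s‖ = 1 / L)
    (hz : ‖z‖ = 2 / L) : ‖Complex.exp (L * ell w s z)‖ ≤ 13 := by
  have h1 : ‖ell w s z‖ ≤ 5 / 2 / L := by
    unfold ell
    refine (norm_add_le _ _).trans ?_
    rw [norm_div, Complex.norm_ofNat]
    have := norm_add_le s z
    calc ‖w‖ + ‖s + z‖ / 2 ≤ 1 / L + (1 / L + 2 / L) / 2 := by
          rw [hw]
          have : ‖s + z‖ ≤ 1 / L + 2 / L := by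
            rw [hs, hz] at this
            exact this
          linarith
      _ = 5 / 2 / L := by
        field_simp
        ring
  have h2 : ‖(L : ℂ) * ell w s z‖ ≤ 5 / 2 := by
    rw [norm_mul, Complex.norm_real, Real.norm_eq_abs, abs_of_pos hL]
    calc L * ‖ell w s z‖ ≤ L * (5 / 2 / L) := mul_le_mul_of_nonneg_left h1 hL.le
      _ = 5 / 2 := by field_simp
  refine (Complex.norm_exp_le_exp_norm _).trans ?_
  refine (Real.exp_le_exp.2 h2).trans ?_
  have h3 : Real.exp (5 / 2) = Real.exp 1 ^ 2 * Real.exp (1 / 2) := by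
    rw [← Real.exp_nat_mul, ← Real.exp_add]
    norm_num
  have h4 := Real.exp_one_lt_d9
  have h5 : Real.exp (1 / 2) ≤ 1.65 := by
    have h6 : Real.exp (1 / 2) ^ 2 = Real.exp 1 := by
      rw [← Real.exp_nat_mul]
      norm_num
    nlinarith [Real.exp_pos (1 / 2 : ℝ)]
  have h7 : Real.exp 1 ^ 2 ≤ 2.7182818286 ^ 2 := pow_le_pow_left₀ (Real.exp_pos _).le h4.le 2
  rw [h3]
  calc Real.exp 1 ^ 2 * Real.exp (1 / 2) ≤ 2.7182818286 ^ 2 * 1.65 :=
        mul_le_mul h7 h5 (Real.exp_pos _).le (by positivity)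
    _ ≤ 13 := by norm_num

/-- the size of the integral of `PP k · exp · W` -/
theorem gg_bound {L : ℝ} (hL : 0 < L) {k i j : ℕ} (hk : k ≤ 4) {W : ℂ → ℂ → ℂ → ℂ} {m : ℝ}
    (hW : ∀ w s z, ‖w‖ = 1 / L → ‖s‖ = 1 / L → ‖z‖ = 2 / L → ‖W w s z‖ ≤ m) :
    ‖T3 i j (1 / L) (2 / L) (fun w s z => PP k w s z * (Complex.exp (L * ell w s z) *
      W w s z))‖ ≤ 20000 * m * (L ^ (k + i + j) / L ^ 2) := by
  have hm : 0 ≤ m := by
    have h1 : ‖((1 / L : ℝ) : ℂ)‖ = 1 / L := by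
      rw [Complex.norm_real, Real.norm_eq_abs, abs_of_pos (by positivity)]
    have h2 : ‖((2 / L : ℝ) : ℂ)‖ = 2 / L := by
      rw [Complex.norm_real, Real.norm_eq_abs, abs_of_pos (by positivity)]
    exact (norm_nonneg _).trans (hW _ _ _ h1 h1 h2)
  have h1 : ∀ w s z : ℂ, ‖w‖ = 1 / L → ‖s‖ = 1 / L → ‖z‖ = 2 / L →
      ‖PP k w s z * (Complex.exp (L * ell w s z) * W w s z)‖ ≤ 6 * (4 / L) ^ (4 - k) * (13 * m) := by
    intro w s z hw hs hz
    rw [norm_mul, norm_mul]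
    have a1 : ‖w + s‖ ≤ 4 / L := by
      refine (norm_add_le _ _).trans ?_
      rw [hw, hs, ← add_div]
      gcongr
      norm_num
    have a2 : ‖w + z‖ ≤ 4 / L := by
      refine (norm_add_le _ _).trans ?_
      rw [hw, hz, ← add_div]
      gcongr
      norm_num
    have a3 := gg_pp_bound hk (by positivity) a1 a2
    exact mul_le_mul a3 (mul_le_mul (gg_ell hL hw hs hz) (hW w s z hw hs hz) (norm_nonneg _)
      (by norm_num)) (by positivity) (by positivity)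
  have h2 := t3_bound_pr (i := i) (j := j) (r := 1 / L) (r' := 2 / L) (by positivity)
    (by gcongr; norm_num) h1
  refine h2.trans ?_
  have e1 : (2 / L - 1 / L : ℝ) = 1 / L := by
    rw [← sub_div]
    norm_num
  rw [e1, div_pow, div_pow, div_pow, one_pow]
  have e2 : L ^ (k + i + j) / L ^ 2 * L ^ (4 - k) = L ^ (i + 1) * L ^ j * L := by
    have e3 : L ^ (k + i + j) * L ^ (4 - k) = L ^ (i + 1) * L ^ j * L * L ^ 2 := by
      rw [← pow_add, ← pow_add, ← pow_succ, ← pow_add]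
      congr 1
      omega
    rw [div_mul_eq_mul_div, e3]
    field_simp
  have hLk : 0 < L ^ (4 - k) := by positivity
  have h4k : (4 : ℝ) ^ (4 - k) ≤ 256 := by
    calc (4 : ℝ) ^ (4 - k) ≤ 4 ^ 4 := pow_le_pow_right₀ (by norm_num) (by omega)
      _ = 256 := by norm_num
  have h2j : (1 : ℝ) ≤ 2 ^ j := one_le_pow₀ (by norm_num)
  have e4 : 6 * (4 ^ (4 - k) / L ^ (4 - k)) * (13 * m) /
      (1 / L ^ (i + 1) * (2 ^ j / L ^ j) * (1 / L)) =
      (78 * 4 ^ (4 - k) * m / 2 ^ j) * (L ^ (i + 1) * L ^ j * L / L ^ (4 - k)) := by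
    field_simp
    ring
  rw [e4, ← e2, mul_div_cancel_right₀ _ hLk.ne']
  have h5 : 78 * (4 : ℝ) ^ (4 - k) * m / 2 ^ j ≤ 20000 * m := by
    rw [div_le_iff₀ (by positivity)]
    nlinarith [mul_nonneg hm (by linarith : (0 : ℝ) ≤ 256 - 4 ^ (4 - k)),
      mul_nonneg hm (by linarith : (0 : ℝ) ≤ 2 ^ j - 1)]
  exact mul_le_mul_of_nonneg_right h5 (by positivity)

/-- the sum over `k` -/
theorem gg_sum {r r' : ℝ} (hr : 0 < r) (hrr : r < r') (i j : ℕ) (δ L : ℂ)
    {W : ℂ → ℂ → ℂ → ℂ} (hW : ContinuousOn (un W) (tor r r')) :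
    T3 i j r r' (fun w s z => (w + s + δ) ^ 2 * (w + z + δ) ^ 2 *
      Complex.exp (L * ell w s z) * W w s z) =
    ∑ k ∈ range 5, δ ^ k * T3 i j r r' (fun w s z => PP k w s z *
      (Complex.exp (L * ell w s z) * W w s z)) := by
  have hE : Continuous (un (fun w s z => Complex.exp (L * ell w s z))) := by
    unfold un ell
    fun_prop
  have hc : ∀ k ≤ 4, ContinuousOn (un (fun w s z => δ ^ k * (PP k w s z *
      (Complex.exp (L * ell w s z) * W w s z)))) (tor r r') := by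
    intro k hk
    exact continuousOn_const.mul ((gg_pp_cont k hk).continuousOn.mul (hE.continuousOn.mul hW))
  have key : ∀ n ≤ 5, ContinuousOn (un (fun w s z => ∑ k ∈ range n, δ ^ k * (PP k w s z *
      (Complex.exp (L * ell w s z) * W w s z)))) (tor r r') ∧
      T3 i j r r' (fun w s z => ∑ k ∈ range n, δ ^ k * (PP k w s z *
        (Complex.exp (L * ell w s z) * W w s z))) =
      ∑ k ∈ range n, δ ^ k * T3 i j r r' (fun w s z => PP k w s z *
        (Complex.exp (L * ell w s z) * W w s z)) := by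
    intro n
    induction n with
    | zero =>
      intro _
      simp only [range_zero, sum_empty]
      refine ⟨continuousOn_const, ?_⟩
      have := t3_smul_pr i j r r' 0 (fun _ _ _ => 0)
      simpa using this
    | succ n ih =>
      intro hn
      obtain ⟨h1, h2⟩ := ih (by omega)
      simp only [sum_range_succ]
      refine ⟨h1.add (hc n (by omega)), ?_⟩
      rw [t3_add_pr i j hr hrr h1 (hc n (by omega)), h2, t3_smul_pr]
  rw [← (key 5 le_rfl).2]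
  congr 1
  funext w s z
  simp only [sum_range_succ, range_zero, sum_empty, PP]
  ring

theorem gram_abs_pr : ∃ C : ℝ, 1 ≤ C ∧ ∀ (L R δ h₀ C₀ : ℝ) (H : ℂ → ℂ → ℂ → ℂ), 0 < L →
    4 ≤ R * L → 0 ≤ δ → δ * L ≤ 1 → 0 < h₀ → 1 ≤ C₀ → DifferentiableOn ℂ (un H) (pdisc R) →
    (∀ u ∈ pdisc R, ‖un H u‖ ≤ C₀ * h₀) → H 0 0 0 = (h₀ : ℂ) → ∀ J : ℕ → ℕ → ℂ,
    (∀ i j, J i j = T3 i j (1 / L) (2 / L) (fun w s z =>
      (w + s + δ) ^ 2 * (w + z + δ) ^ 2 * Complex.exp (L * ell w s z) * H w s z)) →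
    ‖J 1 1 - 2 * h₀‖ ≤ C * C₀ * (1 / (R * L) + δ * L) * h₀ ∧
    ‖J 2 2 - L ^ 2 * h₀‖ ≤ C * C₀ * (1 / (R * L) + δ * L) * (L ^ 2 * h₀) ∧
    ‖J 2 0 - δ * L * h₀‖ ≤ C * C₀ * (1 / (R * L) + δ * L) * (δ * L * h₀) ∧
    ‖J 0 2 - δ * L * h₀‖ ≤ C * C₀ * (1 / (R * L) + δ * L) * (δ * L * h₀) ∧
    ‖J 0 0 - 6 * δ ^ 2 * h₀‖ ≤ C * C₀ * (1 / (R * L) + δ * L) * (δ ^ 2 * h₀) := by
  refine ⟨80000, by norm_num, ?_⟩
  intro L R δ h₀ C₀ H hL hRL hδ hδL hh hC hd hb h0 J hJ
  have hR : 0 < R := by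
    by_contra h
    push Not at h
    nlinarith
  have hr : (0 : ℝ) < 1 / L := by positivity
  have hrr : (1 : ℝ) / L < 2 / L := by gcongr; norm_num
  have hrR : 2 / L < R := by
    rw [div_lt_iff₀ hL]
    linarith
  have hsub : tor (1 / L) (2 / L) ⊆ pdisc R := fun u hu =>
    ⟨by rw [hu.1]; linarith, by rw [hu.2.1]; linarith, by rw [hu.2.2]; linarith⟩
  have hHc : ContinuousOn (un H) (tor (1 / L) (2 / L)) := hd.continuousOn.mono hsub
  have hE : Differentiable ℂ (un (fun w s z => Complex.exp ((L : ℂ) * ell w s z))) := by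
    unfold un ell
    fun_prop
  have hF : DifferentiableOn ℂ (un (fun w s z => Complex.exp ((L : ℂ) * ell w s z) * H w s z))
      (pdisc R) := hE.differentiableOn.mul hd
  have hF0 : Complex.exp ((L : ℂ) * ell 0 0 0) * H 0 0 0 = (h₀ : ℂ) := by
    simp only [ell, h0]
    simp
  set G : ℕ → ℕ → ℕ → ℂ := fun k i j => T3 i j (1 / L) (2 / L) (fun w s z => PP k w s z *
      (Complex.exp ((L : ℂ) * ell w s z) * H w s z)) with hG
  have hJG : ∀ i j, J i j = ∑ k ∈ range 5, (δ : ℂ) ^ k * G k i j := fun i j => by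
    rw [hJ, gg_sum hr hrr i j δ L hHc]
  have hC0 : 0 < C₀ := by linarith
  have hbound : ∀ k ≤ 4, ∀ i j, ‖G k i j‖ ≤ 20000 * (C₀ * h₀) * (L ^ (k + i + j) / L ^ 2) :=
    fun k hk i j => gg_bound hL hk fun w s z hw hs hz => hb (w, s, z) (hsub ⟨hw, hs, hz⟩)
  have hhom : ∀ k ≤ 4, ∀ i j, (i + j + 2 < 4 - k → G k i j = 0) ∧
      (4 - k = i + j + 2 → G k i j = h₀ * T3 i j (1 / L) (2 / L) (PP k)) := by
    intro k hk i j
    have := t3_hom_pr (i := i) (j := j) (e := 4 - k) hr hrr hrR (gg_pp_cont k hk)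
      (gg_pp_hom k hk) hF
    rw [hF0] at this
    exact this
  -- the values with the exponential
  set κ : ℝ := 1 / (R * L) with hκ
  have hκ0 : 0 < κ := by positivity
  have hmain : ∀ k ≤ 4, ∀ i j d, 4 - k + d = i + j + 2 →
      ‖G k i j - h₀ * ((L : ℂ) ^ d / d.factorial * T3 i j (1 / L) (2 / L)
        (fun w s z => PP k w s z * ell w s z ^ d))‖ ≤
      20000 * (4 * C₀ * h₀ * κ) * (L ^ (k + i + j) / L ^ 2) := by
    intro k hk i j d hkd
    have e1 := t3_exp_pr (i := i) (j := j) (e := 4 - k) (d := d) hr hrr (gg_pp_cont k hk)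
      (gg_pp_hom k hk) hkd (L : ℂ)
    have hW : ContinuousOn (un (fun w s z => H w s z - h₀)) (tor (1 / L) (2 / L)) :=
      hHc.sub continuousOn_const
    have hP := gg_pp_cont k hk
    have c1 : ContinuousOn (un (fun w s z => (h₀ : ℂ) * (PP k w s z *
        Complex.exp ((L : ℂ) * ell w s z)))) (tor (1 / L) (2 / L)) :=
      (continuous_const.mul (hP.mul hE.continuous)).continuousOn
    have c2 : ContinuousOn (un (fun w s z => PP k w s z *
        (Complex.exp ((L : ℂ) * ell w s z) * (H w s z - h₀)))) (tor (1 / L) (2 / L)) :=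
      hP.continuousOn.mul (hE.continuous.continuousOn.mul hW)
    have e2 : G k i j = h₀ * T3 i j (1 / L) (2 / L) (fun w s z => PP k w s z *
        Complex.exp ((L : ℂ) * ell w s z)) + T3 i j (1 / L) (2 / L) (fun w s z => PP k w s z *
        (Complex.exp ((L : ℂ) * ell w s z) * (H w s z - h₀))) := by
      rw [← t3_smul_pr, ← t3_add_pr i j hr hrr c1 c2]
      simp only [hG]
      congr 1
      funext w s z
      ring
    rw [e2, e1, add_sub_cancel_left]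
    refine (gg_bound hL hk (m := 2 * C₀ * h₀ * ((2 / L) / R)) fun w s z hw hs hz => ?_).trans
      (le_of_eq ?_)
    · exact t3_schwarz_pr hR hh hC hd h0 hb (by positivity) hrR (by rw [hw]; linarith)
        (by rw [hs]; linarith) hz.le
    · rw [hκ]
      congr 2
      field_simp
      ring
  obtain ⟨v1, v2, v3, v4, v5, v6, v7⟩ := t3_vals_pr hr hrr
  have hδk : ∀ k, ‖(δ : ℂ) ^ k‖ = δ ^ k := fun k => by
    rw [norm_pow, Complex.norm_real, Real.norm_eq_abs, abs_of_nonneg hδ]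
  have hδn : ‖(δ : ℂ)‖ = δ := by
    have := hδk 1
    simpa using this
  set x : ℝ := δ * L with hx
  have hx0 : 0 ≤ x := mul_nonneg hδ hL.le
  have hM : 0 < C₀ * h₀ := by positivity
  refine ⟨?_, ?_, ?_, ?_, ?_⟩
  · -- (1,1)
    have g0 : G 0 1 1 = 2 * h₀ := by
      rw [(hhom 0 (by norm_num) 1 1).2 rfl, v1, mul_comm]
    have b : ∀ k, 1 ≤ k → k ≤ 4 → ‖(δ : ℂ) ^ k * G k 1 1‖ ≤ 20000 * (C₀ * h₀) * x := by
      intro k hk1 hk4
      rw [norm_mul, hδk]
      refine (mul_le_mul_of_nonneg_left (hbound k hk4 1 1) (by positivity)).trans ?_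
      have e1 : δ ^ k * (20000 * (C₀ * h₀) * (L ^ (k + 1 + 1) / L ^ 2)) =
          20000 * (C₀ * h₀) * x ^ k := by
        rw [hx, mul_pow, pow_add, pow_add]
        field_simp
      rw [e1]
      refine mul_le_mul_of_nonneg_left ?_ (by positivity)
      calc x ^ k ≤ x ^ 1 := pow_le_pow_of_le_one hx0 hδL hk1
        _ = x := pow_one x
    have e2 : J 1 1 - 2 * h₀ = (δ : ℂ) ^ 1 * G 1 1 1 + (δ : ℂ) ^ 2 * G 2 1 1 +
        (δ : ℂ) ^ 3 * G 3 1 1 + (δ : ℂ) ^ 4 * G 4 1 1 := by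
      rw [hJG]
      simp only [sum_range_succ, range_zero, sum_empty, g0]
      ring
    rw [e2]
    have b1 := b 1 le_rfl (by norm_num)
    have b2 := b 2 (by norm_num) (by norm_num)
    have b3 := b 3 (by norm_num) (by norm_num)
    have b4 := b 4 (by norm_num) le_rfl
    refine (norm_add₄_le).trans ?_
    have : 0 ≤ C₀ * h₀ * κ := by positivity
    nlinarith
  · -- (2,2)
    have g0 := hmain 0 (by norm_num) 2 2 2 rfl
    rw [v7] at g0
    have e0 : (h₀ : ℂ) * ((L : ℂ) ^ 2 / (2 : ℕ).factorial * 2) = L ^ 2 * h₀ := by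
      simp
      ring
    rw [e0] at g0
    have b : ∀ k, 1 ≤ k → k ≤ 4 → ‖(δ : ℂ) ^ k * G k 2 2‖ ≤ 20000 * (C₀ * h₀) * x * L ^ 2 := by
      intro k hk1 hk4
      rw [norm_mul, hδk]
      refine (mul_le_mul_of_nonneg_left (hbound k hk4 2 2) (by positivity)).trans ?_
      have e1 : δ ^ k * (20000 * (C₀ * h₀) * (L ^ (k + 2 + 2) / L ^ 2)) =
          20000 * (C₀ * h₀) * x ^ k * L ^ 2 := by
        rw [hx, mul_pow, pow_add, pow_add]
        field_simp
      rw [e1]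
      refine mul_le_mul_of_nonneg_right (mul_le_mul_of_nonneg_left ?_ (by positivity))
        (by positivity)
      calc x ^ k ≤ x ^ 1 := pow_le_pow_of_le_one hx0 hδL hk1
        _ = x := pow_one x
    have e2 : J 2 2 - L ^ 2 * h₀ = (G 0 2 2 - L ^ 2 * h₀) + ((δ : ℂ) ^ 1 * G 1 2 2 +
        (δ : ℂ) ^ 2 * G 2 2 2 + (δ : ℂ) ^ 3 * G 3 2 2 + (δ : ℂ) ^ 4 * G 4 2 2) := by
      rw [hJG]
      simp only [sum_range_succ, range_zero, sum_empty]
      ring
    rw [e2]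
    have b1 := b 1 le_rfl (by norm_num)
    have b2 := b 2 (by norm_num) (by norm_num)
    have b3 := b 3 (by norm_num) (by norm_num)
    have b4 := b 4 (by norm_num) le_rfl
    refine (norm_add_le _ _).trans ((add_le_add g0 norm_add₄_le).trans ?_)
    have e3 : 20000 * (4 * C₀ * h₀ * κ) * (L ^ (0 + 2 + 2) / L ^ 2) =
        80000 * (C₀ * h₀ * κ * L ^ 2) := by
      field_simp
      ring
    rw [e3]
    have e4 : 80000 * C₀ * (κ + x) * (L ^ 2 * h₀) = 80000 * (C₀ * h₀ * κ * L ^ 2) +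
        4 * (20000 * (C₀ * h₀) * x * L ^ 2) := by ring
    rw [e4]
    linarith
  · -- (2,0)
    have g0 : G 0 2 0 = 0 := by
      rw [(hhom 0 (by norm_num) 2 0).2 rfl, v2, mul_zero]
    have g1 := hmain 1 (by norm_num) 2 0 1 rfl
    rw [v5] at g1
    have e0 : (h₀ : ℂ) * ((L : ℂ) ^ 1 / (1 : ℕ).factorial * 1) = L * h₀ := by
      simp
      ring
    rw [e0] at g1
    have b : ∀ k, 2 ≤ k → k ≤ 4 → ‖(δ : ℂ) ^ k * G k 2 0‖ ≤ 20000 * (C₀ * h₀) * x * x := by
      intro k hk1 hk4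
      rw [norm_mul, hδk]
      refine (mul_le_mul_of_nonneg_left (hbound k hk4 2 0) (by positivity)).trans ?_
      have e1 : δ ^ k * (20000 * (C₀ * h₀) * (L ^ (k + 2 + 0) / L ^ 2)) =
          20000 * (C₀ * h₀) * x ^ k := by
        rw [hx, mul_pow, pow_add, pow_add]
        field_simp
      rw [e1, mul_assoc (20000 * (C₀ * h₀)) x x]
      refine mul_le_mul_of_nonneg_left ?_ (by positivity)
      calc x ^ k ≤ x ^ 2 := pow_le_pow_of_le_one hx0 hδL hk1
        _ = x * x := sq x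
    have e2 : J 2 0 - δ * L * h₀ = (δ : ℂ) * (G 1 2 0 - L * h₀) + ((δ : ℂ) ^ 2 * G 2 2 0 +
        (δ : ℂ) ^ 3 * G 3 2 0 + (δ : ℂ) ^ 4 * G 4 2 0) := by
      rw [hJG]
      simp only [sum_range_succ, range_zero, sum_empty, g0]
      ring
    rw [e2]
    have b2 := b 2 le_rfl (by norm_num)
    have b3 := b 3 (by norm_num) (by norm_num)
    have b4 := b 4 (by norm_num) le_rfl
    have b1 : ‖(δ : ℂ) * (G 1 2 0 - L * h₀)‖ ≤ 80000 * (C₀ * h₀ * κ * x) := by
      rw [norm_mul, hδn]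
      refine (mul_le_mul_of_nonneg_left g1 hδ).trans (le_of_eq ?_)
      rw [hx]
      field_simp
      ring
    refine (norm_add_le _ _).trans ((add_le_add b1 norm_add₃_le).trans ?_)
    have e4 : 80000 * C₀ * (κ + x) * (δ * L * h₀) = 80000 * (C₀ * h₀ * κ * x) +
        4 * (20000 * (C₀ * h₀) * x * x) := by
      rw [hx]
      ring
    rw [e4]
    have : 0 ≤ 20000 * (C₀ * h₀) * x * x := by positivity
    linarith
  · -- (0,2)
    have g0 : G 0 0 2 = 0 := by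
      rw [(hhom 0 (by norm_num) 0 2).2 rfl, v3, mul_zero]
    have g1 := hmain 1 (by norm_num) 0 2 1 rfl
    rw [v6] at g1
    have e0 : (h₀ : ℂ) * ((L : ℂ) ^ 1 / (1 : ℕ).factorial * 1) = L * h₀ := by
      simp
      ring
    rw [e0] at g1
    have b : ∀ k, 2 ≤ k → k ≤ 4 → ‖(δ : ℂ) ^ k * G k 0 2‖ ≤ 20000 * (C₀ * h₀) * x * x := by
      intro k hk1 hk4
      rw [norm_mul, hδk]
      refine (mul_le_mul_of_nonneg_left (hbound k hk4 0 2) (by positivity)).trans ?_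
      have e1 : δ ^ k * (20000 * (C₀ * h₀) * (L ^ (k + 0 + 2) / L ^ 2)) =
          20000 * (C₀ * h₀) * x ^ k := by
        rw [hx, mul_pow, pow_add, pow_add]
        field_simp
      rw [e1, mul_assoc (20000 * (C₀ * h₀)) x x]
      refine mul_le_mul_of_nonneg_left ?_ (by positivity)
      calc x ^ k ≤ x ^ 2 := pow_le_pow_of_le_one hx0 hδL hk1
        _ = x * x := sq x
    have e2 : J 0 2 - δ * L * h₀ = (δ : ℂ) * (G 1 0 2 - L * h₀) + ((δ : ℂ) ^ 2 * G 2 0 2 +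
        (δ : ℂ) ^ 3 * G 3 0 2 + (δ : ℂ) ^ 4 * G 4 0 2) := by
      rw [hJG]
      simp only [sum_range_succ, range_zero, sum_empty, g0]
      ring
    rw [e2]
    have b2 := b 2 le_rfl (by norm_num)
    have b3 := b 3 (by norm_num) (by norm_num)
    have b4 := b 4 (by norm_num) le_rfl
    have b1 : ‖(δ : ℂ) * (G 1 0 2 - L * h₀)‖ ≤ 80000 * (C₀ * h₀ * κ * x) := by
      rw [norm_mul, hδn]
      refine (mul_le_mul_of_nonneg_left g1 hδ).trans (le_of_eq ?_)
      rw [hx]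
      field_simp
      ring
    refine (norm_add_le _ _).trans ((add_le_add b1 norm_add₃_le).trans ?_)
    have e4 : 80000 * C₀ * (κ + x) * (δ * L * h₀) = 80000 * (C₀ * h₀ * κ * x) +
        4 * (20000 * (C₀ * h₀) * x * x) := by
      rw [hx]
      ring
    rw [e4]
    have : 0 ≤ 20000 * (C₀ * h₀) * x * x := by positivity
    linarith
  · -- (0,0)
    have g0 : G 0 0 0 = 0 := (hhom 0 (by norm_num) 0 0).1 (by norm_num)
    have g1 : G 1 0 0 = 0 := (hhom 1 (by norm_num) 0 0).1 (by norm_num)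
    have g2 : G 2 0 0 = 6 * h₀ := by
      rw [(hhom 2 (by norm_num) 0 0).2 rfl, v4, mul_comm]
    have b : ∀ k, 3 ≤ k → k ≤ 4 → ‖(δ : ℂ) ^ k * G k 0 0‖ ≤ 20000 * (C₀ * h₀) * δ ^ 2 * x := by
      intro k hk1 hk4
      rw [norm_mul, hδk]
      refine (mul_le_mul_of_nonneg_left (hbound k hk4 0 0) (by positivity)).trans ?_
      have e1 : δ ^ k * (20000 * (C₀ * h₀) * (L ^ (k + 0 + 0) / L ^ 2)) =
          20000 * (C₀ * h₀) * δ ^ 2 * x ^ (k - 2) := by
        obtain ⟨n, rfl⟩ : ∃ n, k = n + 2 := ⟨k - 2, by omega⟩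
        have : n + 2 - 2 = n := by omega
        rw [this, hx, mul_pow, pow_add, pow_add]
        field_simp
        ring
      rw [e1]
      refine mul_le_mul_of_nonneg_left ?_ (by positivity)
      calc x ^ (k - 2) ≤ x ^ 1 := pow_le_pow_of_le_one hx0 hδL (by omega)
        _ = x := pow_one x
    have e2 : J 0 0 - 6 * δ ^ 2 * h₀ = (δ : ℂ) ^ 3 * G 3 0 0 + (δ : ℂ) ^ 4 * G 4 0 0 := by
      rw [hJG]
      simp only [sum_range_succ, range_zero, sum_empty, g0, g1, g2]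
      ring
    rw [e2]
    have b3 := b 3 le_rfl (by norm_num)
    have b4 := b 4 (by norm_num) le_rfl
    refine (norm_add_le _ _).trans ?_
    have : 0 ≤ C₀ * h₀ * κ * δ ^ 2 := by positivity
    have h' : 0 ≤ C₀ * h₀ * δ ^ 2 * x := by positivity
    have e4 : 80000 * C₀ * (κ + x) * (δ ^ 2 * h₀) = 80000 * (C₀ * h₀ * κ * δ ^ 2) +
        80000 * (C₀ * h₀ * δ ^ 2 * x) := by ring
    rw [e4]
    linarith

end Pool.Agent.EXC
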