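import Pool.Agent.Lib_helper15.EXC.DefsI
import Pool.Agent.Lib_helper53.LEF.EV
/-! EXC, block GH: the factors of the zeta function near the edge. -/

set_option autoImplicit false

namespace Pool.Agent.EXC

open Finset Complex Metric Filter MeasureTheory
open Pool.Agent.GA
open Pool.Agent.LSP (MX)
open Pool.Agent.LVB (IsST)
open Pool.Agent.LK (PQ)
open Pool.Agent.LE
open Pool.Agent.LG (J3)
open scoped Topology

/-- the Euler factors at `1` -/
theorem gh_tot (q : ℕ) [NeZero q] :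
    ∏ p ∈ q.primeFactors, (1 - ((p : ℝ))⁻¹) = (q.totient : ℝ) / q := by
  have h := Nat.totient_eq_mul_prod_factors q
  have hq : (q : ℝ) ≠ 0 := by exact_mod_cast NeZero.ne q
  have h1 : ((q.totient : ℚ) : ℝ) = ((q : ℚ) * ∏ p ∈ q.primeFactors, (1 - (p : ℚ)⁻¹) : ℚ) := by
    rw [h]
  push_cast at h1
  rw [h1]
  field_simp

theorem gh_z1_one : z1 1 = 1 := by
  unfold z1
  simp

theorem gh_prod_one (q : ℕ) : ∏ p ∈ q.primeFactors, (1 - (p : ℂ) ^ (-(1 : ℂ))) =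
    ((∏ p ∈ q.primeFactors, (1 - ((p : ℝ))⁻¹) : ℝ) : ℂ) := by
  push_cast
  refine Finset.prod_congr rfl fun p _ => ?_
  rw [Complex.cpow_neg, Complex.cpow_one]

theorem gh_one (q : ℕ) [NeZero q] : zq1 q 1 = (((q.totient : ℝ) / q : ℝ) : ℂ) := by
  unfold zq1
  rw [gh_z1_one, mul_one, gh_prod_one, gh_tot]

theorem gh_pos {p : ℕ} (hp : p.Prime) : 0 < 1 - ((p : ℝ) ^ 2)⁻¹ ∧ 1 - ((p : ℝ) ^ 2)⁻¹ ≤ 1 := by
  have h2 : (2 : ℝ) ≤ p := by exact_mod_cast hp.two_le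
  have h4 : (1 : ℝ) < (p : ℝ) ^ 2 := by nlinarith
  have h5 : ((p : ℝ) ^ 2)⁻¹ < 1 := inv_lt_one_of_one_lt₀ h4
  have h6 : 0 < ((p : ℝ) ^ 2)⁻¹ := by positivity
  constructor <;> linarith

theorem gh_two (q : ℕ) : zq q 2 =
    (((∏ p ∈ q.primeFactors, (1 - ((p : ℝ) ^ 2)⁻¹)) * (Real.pi ^ 2 / 6) : ℝ) : ℂ) := by
  unfold zq
  rw [riemannZeta_two]
  push_cast
  congr 1
  refine Finset.prod_congr rfl fun p _ => ?_
  rw [Complex.cpow_neg]
  norm_cast

/-- one factor near `1` -/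
theorem gh_factor {p : ℕ} (hp : p.Prime) {v : ℂ} (hv : ‖v‖ * Real.log p ≤ 1) :
    ‖1 - (p : ℂ) ^ (-(1 + v))‖ ≤ (1 - (p : ℝ)⁻¹) * Real.exp (4 * (‖v‖ * Real.log p)) := by
  have h2 : (2 : ℝ) ≤ p := by exact_mod_cast hp.two_le
  have hp0 : (0 : ℝ) < p := by linarith
  have hpc : (p : ℂ) ≠ 0 := by exact_mod_cast hp0.ne'
  have hl : 0 ≤ Real.log p := Real.log_nonneg (by linarith)
  have hi : (p : ℝ)⁻¹ ≤ 1 / 2 := by
    rw [inv_le_comm₀ hp0 (by norm_num)]
    norm_num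
    exact hp.two_le
  have hi0 : 0 < (p : ℝ)⁻¹ := by positivity
  have h1 : (p : ℂ) ^ (-(1 + v)) = (p : ℂ)⁻¹ * cexp (-(v * (Real.log p : ℝ))) := by
    rw [neg_add, Complex.cpow_add _ _ hpc, Complex.cpow_neg, Complex.cpow_one,
      Complex.cpow_def_of_ne_zero hpc, Complex.natCast_log]
    congr 2
    ring
  have h3 : ‖cexp (-(v * (Real.log p : ℝ))) - 1‖ ≤ 2 * (‖v‖ * Real.log p) := by
    have h4 : ‖-(v * ((Real.log p : ℝ) : ℂ))‖ = ‖v‖ * Real.log p := by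
      rw [norm_neg, norm_mul, Complex.norm_real, Real.norm_of_nonneg hl]
    have h5 := Complex.norm_exp_sub_one_le (x := -(v * ((Real.log p : ℝ) : ℂ))) (by
      rw [h4]
      exact hv)
    rwa [h4] at h5
  have h6 : 1 - (p : ℂ) ^ (-(1 + v)) = ((1 - (p : ℝ)⁻¹ : ℝ) : ℂ) -
      (p : ℂ)⁻¹ * (cexp (-(v * (Real.log p : ℝ))) - 1) := by
    rw [h1]
    push_cast
    ring
  have h0 : 0 ≤ ‖v‖ * Real.log p := mul_nonneg (norm_nonneg _) hl
  calc ‖1 - (p : ℂ) ^ (-(1 + v))‖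
      ≤ ‖((1 - (p : ℝ)⁻¹ : ℝ) : ℂ)‖ + ‖(p : ℂ)⁻¹ * (cexp (-(v * (Real.log p : ℝ))) - 1)‖ := by
        rw [h6]
        exact norm_sub_le _ _
    _ ≤ (1 - (p : ℝ)⁻¹) + (1 / 2) * (2 * (‖v‖ * Real.log p)) := by
        rw [Complex.norm_real, Real.norm_of_nonneg (by linarith), norm_mul, norm_inv,
          Complex.norm_natCast]
        gcongr
    _ ≤ (1 - (p : ℝ)⁻¹) * (1 + 4 * (‖v‖ * Real.log p)) := by nlinarith
    _ ≤ (1 - (p : ℝ)⁻¹) * Real.exp (4 * (‖v‖ * Real.log p)) := by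
        have h7 := Real.add_one_le_exp (4 * (‖v‖ * Real.log p))
        have h8 : 0 ≤ 1 - (p : ℝ)⁻¹ := by linarith
        gcongr
        linarith

/-- block GH (uses LE.zq_facts_pr): the factors of the zeta function -/
theorem zq_near_pr : ∃ C : ℝ, 1 ≤ C ∧ ∀ (q : ℕ) [NeZero q], 3 ≤ q →
    (∀ v : ℂ, ‖v‖ ≤ 1 / (4 * Real.log q) → ‖zq1 q (1 + v)‖ ≤ C * ((q.totient : ℝ) / q)) ∧
    zq1 q 1 = (((q.totient : ℝ) / q : ℝ) : ℂ) ∧
    (∀ v : ℂ, ‖v‖ ≤ 1 / 2 → ‖(zq q (2 + v))⁻¹‖ ≤ C * ‖zq q 2‖⁻¹) ∧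
    zq q 2 = (‖zq q 2‖ : ℂ) ∧ 0 < ‖zq q 2‖ := by
  obtain ⟨C₀, hC₀⟩ := zq_facts_pr
  refine ⟨25 * |C₀| + 1, by linarith [abs_nonneg C₀], fun q hq0 hq3 => ?_⟩
  have hq : (3 : ℝ) ≤ q := by exact_mod_cast hq3
  have hlog : 1 < Real.log q := by
    have h1 : Real.exp 1 < q := by
      have := Real.exp_one_lt_d9
      linarith
    rw [Real.lt_log_iff_exp_lt (by linarith)]
    exact h1
  -- the value at `2`
  set R : ℝ := (∏ p ∈ q.primeFactors, (1 - ((p : ℝ) ^ 2)⁻¹)) * (Real.pi ^ 2 / 6) with hR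
  have hz2 : zq q 2 = (R : ℂ) := gh_two q
  have hP0 : 0 < ∏ p ∈ q.primeFactors, (1 - ((p : ℝ) ^ 2)⁻¹) :=
    Finset.prod_pos fun p hp => (gh_pos (Nat.prime_of_mem_primeFactors hp)).1
  have hP1 : ∏ p ∈ q.primeFactors, (1 - ((p : ℝ) ^ 2)⁻¹) ≤ 1 :=
    Finset.prod_le_one (fun p hp => (gh_pos (Nat.prime_of_mem_primeFactors hp)).1.le)
      fun p hp => (gh_pos (Nat.prime_of_mem_primeFactors hp)).2
  have hpi := Real.pi_pos
  have hpi2 := Real.pi_lt_d2
  have hR0 : 0 < R := by positivity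
  have hR2 : R ≤ 2 := by
    have h1 : Real.pi ^ 2 / 6 ≤ 2 := by nlinarith
    have h2 : 0 ≤ Real.pi ^ 2 / 6 := by positivity
    calc R ≤ 1 * (Real.pi ^ 2 / 6) := by
          rw [hR]
          gcongr
      _ ≤ 2 := by linarith
  have hn : ‖zq q 2‖ = R := by
    rw [hz2, Complex.norm_real, Real.norm_of_nonneg hR0.le]
  refine ⟨fun v hv => ?_, gh_one q, fun v hv => ?_, ?_, ?_⟩
  · -- near `1`
    have hv1 : ‖v‖ * Real.log q ≤ 1 / 4 := by
      rw [le_div_iff₀ (by positivity)] at hv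
      linarith
    have hv2 : ‖v‖ ≤ 1 / 4 := by
      have := norm_nonneg v
      nlinarith
    have hre : |v.re| ≤ 1 / 4 := (Complex.abs_re_le_norm v).trans hv2
    have him : |v.im| ≤ 1 / 4 := (Complex.abs_im_le_norm v).trans hv2
    have h1 := (((hC₀ 1 (1 + v)).1 (by
      simp only [Complex.add_re, Complex.one_re]
      linarith [(abs_le.1 hre).1]) (by
      simp only [Complex.add_re, Complex.one_re]
      linarith [(abs_le.1 hre).2])).2).2
    have h2 : ‖z1 (1 + v)‖ ≤ 9 * |C₀| := by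
      have h3 : zq1 1 (1 + v) = z1 (1 + v) := by
        unfold zq1
        simp
      rw [h3] at h1
      refine h1.trans ?_
      have h4 : |(1 + v).im| = |v.im| := by simp
      rw [h4, Nat.cast_one, mul_one]
      have h5 : (|v.im| + 2) ^ 2 ≤ 9 := by
        have := abs_nonneg v.im
        nlinarith
      have h6 := le_abs_self C₀
      have h7 := abs_nonneg C₀
      have h8 : 0 ≤ (|v.im| + 2) ^ 2 := by positivity
      calc C₀ * (|v.im| + 2) ^ 2 ≤ |C₀| * (|v.im| + 2) ^ 2 := by gcongr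
        _ ≤ |C₀| * 9 := by gcongr
        _ = 9 * |C₀| := by ring
    have hlogp : ∀ p ∈ q.primeFactors, 0 ≤ Real.log p := fun p hp =>
      Real.log_nonneg (by exact_mod_cast (Nat.prime_of_mem_primeFactors hp).one_lt.le)
    have hsum : ∑ p ∈ q.primeFactors, Real.log p ≤ Real.log q := by
      rw [← Real.log_prod (fun p hp => by
        exact_mod_cast (Nat.prime_of_mem_primeFactors hp).ne_zero)]
      have h3 : (∏ p ∈ q.primeFactors, p) ≤ q :=
        Nat.le_of_dvd (Nat.pos_of_ne_zero (NeZero.ne q)) (Nat.prod_primeFactors_dvd q)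
      have h4 : (∏ p ∈ q.primeFactors, (p : ℝ)) ≤ q := by
        rw [← Nat.cast_prod]
        exact Nat.cast_le.2 h3
      refine Real.log_le_log (Finset.prod_pos fun p hp => ?_) h4
      exact_mod_cast (Nat.prime_of_mem_primeFactors hp).pos
    have hprod : ‖∏ p ∈ q.primeFactors, (1 - (p : ℂ) ^ (-(1 + v)))‖ ≤
        (q.totient : ℝ) / q * Real.exp 1 := by
      rw [norm_prod]
      have h3 : ∏ p ∈ q.primeFactors, ‖1 - (p : ℂ) ^ (-(1 + v))‖ ≤
          ∏ p ∈ q.primeFactors, ((1 - (p : ℝ)⁻¹) * Real.exp (4 * (‖v‖ * Real.log p))) := by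
        refine Finset.prod_le_prod (fun _ _ => norm_nonneg _) fun p hp => ?_
        refine gh_factor (Nat.prime_of_mem_primeFactors hp) ?_
        have h4 : Real.log p ≤ Real.log q :=
          (Finset.single_le_sum hlogp hp).trans hsum
        have := norm_nonneg v
        nlinarith
      refine h3.trans ?_
      rw [Finset.prod_mul_distrib, gh_tot, ← Real.exp_sum]
      have h5 : 0 ≤ (q.totient : ℝ) / q := by positivity
      refine mul_le_mul_of_nonneg_left (Real.exp_le_exp.2 ?_) h5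
      rw [← Finset.mul_sum, ← Finset.mul_sum]
      have := norm_nonneg v
      nlinarith
    unfold zq1
    rw [norm_mul]
    have h5 : 0 ≤ (q.totient : ℝ) / q := by positivity
    have h6 := Real.exp_one_lt_d9
    have h7 := abs_nonneg C₀
    calc ‖∏ p ∈ q.primeFactors, (1 - (p : ℂ) ^ (-(1 + v)))‖ * ‖z1 (1 + v)‖
        ≤ ((q.totient : ℝ) / q * Real.exp 1) * (9 * |C₀|) :=
          mul_le_mul hprod h2 (norm_nonneg _) (by positivity)
      _ = (Real.exp 1 * 9 * |C₀|) * ((q.totient : ℝ) / q) := by ring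
      _ ≤ (25 * |C₀| + 1) * ((q.totient : ℝ) / q) := by
          refine mul_le_mul_of_nonneg_right ?_ h5
          nlinarith
  · have hre : |v.re| ≤ 1 / 2 := (Complex.abs_re_le_norm v).trans hv
    have h1 := ((hC₀ q (2 + v)).2 (by
      simp only [Complex.add_re, Complex.re_ofNat]
      linarith [(abs_le.1 hre).1])).2.1
    rw [hn]
    have h2 := le_abs_self C₀
    have h3 := abs_nonneg C₀
    refine h1.trans ?_
    rw [← div_eq_mul_inv, le_div_iff₀ hR0]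
    nlinarith
  · rw [hn]
    exact hz2
  · rw [hn]
    exact hR0


end Pool.Agent.EXC
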