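import Pool.Agent.Lib_helper15.EXC.DefsI
import Pool.Agent.Lib_helper15.EXCF.GH
import Pool.Agent.Lib_helper53.LEF.EV
import Pool.Agent.Lib_helper53.LEF.ES
/-! EXC, block GI. -/

set_option autoImplicit false

namespace Pool.Agent.EXC

open Finset Complex Metric Filter MeasureTheory
open Pool.Agent.GA
open Pool.Agent.LSP (MX)
open Pool.Agent.LVB (IsST)
open Pool.Agent.LK (PQ)
open Pool.Agent.LE
open Pool.Agent.LG (J3)
open scoped Topology

theorem gi_gamma : ∃ G : ℝ, 1 ≤ G ∧ ∀ s : ℂ, ‖s‖ ≤ 1 / 20 →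
    DifferentiableAt ℂ Complex.Gamma (1 + s) ∧ ‖Complex.Gamma (1 + s)‖ ≤ G := by
  have hd : ∀ s : ℂ, ‖s‖ ≤ 1 / 20 → DifferentiableAt ℂ Complex.Gamma (1 + s) := by
    intro s hs
    apply Complex.differentiableAt_Gamma
    intro m hm
    have h1 := (abs_re_le_norm s).trans hs
    have h2 : (1 + s).re = -(m : ℝ) := by rw [hm]; simp
    rw [add_re, one_re] at h2
    have h3 := abs_le.1 h1
    have h4 : (0 : ℝ) ≤ m := Nat.cast_nonneg m
    linarith [h3.1]
  have hc : ContinuousOn (fun s : ℂ => ‖Complex.Gamma (1 + s)‖) (closedBall 0 (1 / 20)) := by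
    intro s hs
    have h1 : ‖s‖ ≤ 1 / 20 := by simpa using hs
    have h2 : ContinuousAt (fun s : ℂ => Complex.Gamma (1 + s)) s :=
      ContinuousAt.comp (f := fun s : ℂ => 1 + s) (g := Complex.Gamma) (hd s h1).continuousAt
        (by fun_prop)
    exact h2.norm.continuousWithinAt
  obtain ⟨G, hG⟩ := (isCompact_closedBall (0 : ℂ) (1 / 20)).bddAbove_image hc
  refine ⟨max G 1, le_max_right _ _, fun s hs => ⟨hd s hs, ?_⟩⟩
  exact (hG ⟨s, by simpa using hs, rfl⟩).trans (le_max_left _ _)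

theorem gi_cpow {x : ℝ} (hx : 0 < x) (v : ℂ) :
    ‖((x : ℝ) : ℂ) ^ v‖ ≤ Real.exp (|Real.log x| * ‖v‖) := by
  rw [Complex.norm_cpow_eq_rpow_re_of_pos hx, Real.rpow_def_of_pos hx]
  apply Real.exp_le_exp.2
  calc Real.log x * v.re ≤ |Real.log x * v.re| := le_abs_self _
    _ = |Real.log x| * |v.re| := abs_mul _ _
    _ ≤ |Real.log x| * ‖v‖ := mul_le_mul_of_nonneg_left (abs_re_le_norm v) (abs_nonneg _)

theorem gi_log {q : ℕ} (hq : 3 ≤ q) : 1 ≤ Real.log q := by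
  have h1 : (Real.exp 1) < (q : ℝ) := by
    have := Real.exp_one_lt_d9
    have h2 : (3 : ℝ) ≤ q := by exact_mod_cast hq
    linarith
  have h2 : (0 : ℝ) < q := lt_trans (Real.exp_pos 1) h1
  exact ((Real.lt_log_iff_exp_lt h2).2 h1).le

theorem gi_log2pi : |Real.log (2 * Real.pi)| ≤ 2 := by
  have hpi := Real.pi_gt_three
  have hpi' := Real.pi_lt_d2
  have h0 : 0 ≤ Real.log (2 * Real.pi) := Real.log_nonneg (by linarith)
  rw [abs_of_nonneg h0, Real.log_le_iff_le_exp (by linarith)]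
  have h1 : (2.7 : ℝ) < Real.exp 1 := lt_trans (by norm_num) Real.exp_one_gt_d9
  have h2 : Real.exp 2 = Real.exp 1 * Real.exp 1 := by rw [← Real.exp_add]; norm_num
  rw [h2]
  nlinarith

theorem gi_q {q : ℕ} (hq : 3 ≤ q) {a : ℝ} (ha0 : 0 < a) (ha : a ≤ 1 / 20) {v : ℂ}
    (hv : ‖v‖ ≤ 2 * (a / Real.log q)) :
    ‖(((q / (2 * Real.pi) : ℝ) : ℂ) ^ v)‖ ≤ Real.exp 1 := by
  have hq0 : (0 : ℝ) < q := by have : (3 : ℝ) ≤ q := by exact_mod_cast hq
                               linarith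
  have hl := gi_log hq
  have hpi := Real.pi_gt_three
  refine (gi_cpow (by positivity) v).trans (Real.exp_le_exp.2 ?_)
  have h1 : |Real.log (q / (2 * Real.pi))| ≤ Real.log q + 2 := by
    rw [Real.log_div hq0.ne' (by positivity)]
    calc |Real.log q - Real.log (2 * Real.pi)| ≤ |Real.log q| + |Real.log (2 * Real.pi)| :=
          abs_sub _ _
      _ ≤ Real.log q + 2 := by
          rw [abs_of_nonneg (by linarith : 0 ≤ Real.log q)]
          linarith [gi_log2pi]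
  have h2 : ‖v‖ * Real.log q ≤ 2 * a := by
    have := mul_le_mul_of_nonneg_right hv (by linarith : 0 ≤ Real.log q)
    rwa [mul_assoc, div_mul_cancel₀ _ (by linarith : Real.log q ≠ 0)] at this
  have h3 : ‖v‖ ≤ ‖v‖ * Real.log q := le_mul_of_one_le_right (norm_nonneg _) hl
  calc |Real.log (q / (2 * Real.pi))| * ‖v‖ ≤ (Real.log q + 2) * ‖v‖ :=
        mul_le_mul_of_nonneg_right h1 (norm_nonneg _)
    _ = ‖v‖ * Real.log q + 2 * ‖v‖ := by ring
    _ ≤ 1 := by linarith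

theorem gi_w {v : ℂ} (hv : ‖v‖ ≤ 1 / 20) :
    ‖(((4 * Real.pi ^ 2 : ℝ) : ℂ) ^ (-v))‖ ≤ Real.exp 1 := by
  have hpi := Real.pi_gt_three
  refine (gi_cpow (by positivity) (-v)).trans (Real.exp_le_exp.2 ?_)
  have h1 : Real.log (4 * Real.pi ^ 2) = 2 * Real.log (2 * Real.pi) := by
    have : (4 * Real.pi ^ 2 : ℝ) = (2 * Real.pi) ^ 2 := by ring
    rw [this, Real.log_pow]
    norm_num
  rw [h1, norm_neg, abs_mul, abs_of_pos (by norm_num : (0 : ℝ) < 2)]
  have h2 := gi_log2pi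
  nlinarith [norm_nonneg v, abs_nonneg (Real.log (2 * Real.pi))]

theorem hf_facts_pr : ∃ C : ℝ, 1 ≤ C ∧ ∀ (q : ℕ) [NeZero q] (χ : DirichletCharacter ℂ q), 3 ≤ q →
    ∀ (g : ℂ → ℂ) (g₀ a : ℝ), Differentiable ℂ g → 0 < g₀ → g 0 = (g₀ : ℂ) → 0 < a → a ≤ 1 / 20 →
    (∀ w : ℂ, ‖w‖ ≤ 2 * a / Real.log q → ‖g w‖ ≤ 2 * g₀) →
    ∀ (I : Finset ℕ) (P : Measure (ℕ → ℝ)), (∀ p ∈ I, p.Prime) → IsST I P →
    ∀ K : ℕ, (∀ p : ℕ, p.Prime → p ≤ K → p ∈ I) → ∀ B : ℕ → ℝ, SuppIn K B → ∀ F C₂ : ℝ,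
    0 < F → 1 ≤ C₂ →
    (EW P I (w2 χ 0 0 0) (MX K B) = (F : ℂ) →
      (∀ w s z : ℂ, ‖w‖ ≤ a / Real.log q → ‖s‖ ≤ a / Real.log q → ‖z‖ ≤ a / Real.log q →
        ‖EW P I (w2 χ w s z) (MX K B)‖ ≤ C₂ * F) →
      DifferentiableOn ℂ (un (Hf χ g P I K B)) (pdisc (a / Real.log q)) ∧
      (∀ u ∈ pdisc (a / Real.log q), ‖un (Hf χ g P I K B) u‖ ≤ C * C₂ * hf0 q g₀ F) ∧
      Hf χ g P I K B 0 0 0 = (hf0 q g₀ F : ℂ)) ∧
    (EW P I (w1 χ 0) (MX K B) = (F : ℂ) →
      (∀ z : ℂ, ‖z‖ ≤ a / Real.log q → ‖EW P I (w1 χ z) (MX K B)‖ ≤ C₂ * F) →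
      DifferentiableOn ℂ (Hl χ g P I K B) (ball 0 (a / Real.log q)) ∧
      (∀ z ∈ ball (0 : ℂ) (a / Real.log q), ‖Hl χ g P I K B z‖ ≤ C * C₂ * (g₀ * F)) ∧
      Hl χ g P I K B 0 = ((g₀ * F : ℝ) : ℂ)) := by
  obtain ⟨C0, hC0, hzn⟩ := zq_near_pr
  obtain ⟨Cz, hzf⟩ := zq_facts_pr
  obtain ⟨G, hG, hgam⟩ := gi_gamma
  have hE : 1 ≤ Real.exp 1 := by
    have := Real.add_one_le_exp (1 : ℝ)
    linarith
  refine ⟨16 * G ^ 2 * Real.exp 1 ^ 2 * C0 ^ 2, ?_, ?_⟩
  · have h1 : 1 ≤ G ^ 2 := one_le_pow₀ hG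
    have h2 : 1 ≤ Real.exp 1 ^ 2 := one_le_pow₀ hE
    have h3 : 1 ≤ C0 ^ 2 := one_le_pow₀ hC0
    have h4 : (1 : ℝ) ≤ 16 * G ^ 2 := by linarith
    exact one_le_mul_of_one_le_of_one_le (one_le_mul_of_one_le_of_one_le h4 h2) h3
  intro q _ χ hq g g₀ a hg hg0 hgz ha0 ha hgb I P hI hP K hKI B hB F C₂ hF hC₂
  obtain ⟨hz1, hz2, hz3, hz4, hz5⟩ := hzn q hq
  obtain ⟨hew2, hew1⟩ := ew_diff_pr χ hI hP hKI hB
  have hl := gi_log hq
  have hl0 : 0 < Real.log q := by linarith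
  have hq0 : (0 : ℝ) < q := by have : (3 : ℝ) ≤ q := by exact_mod_cast hq
                               linarith
  set R : ℝ := a / Real.log q with hR
  have hR0 : 0 < R := div_pos ha0 hl0
  have hR1 : R ≤ 1 / 20 := by
    rw [hR, div_le_iff₀ hl0]
    nlinarith
  have hRl : R * Real.log q = a := by rw [hR]; field_simp
  have h2R : 2 * a / Real.log q = 2 * R := by rw [hR]; ring
  rw [h2R] at hgb
  have hbq : (((q / (2 * Real.pi) : ℝ) : ℂ)) ≠ 0 := by
    have : (0 : ℝ) < q / (2 * Real.pi) := by positivity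
    exact_mod_cast this.ne'
  have hbp : (((4 * Real.pi ^ 2 : ℝ) : ℂ)) ≠ 0 := by
    have : (0 : ℝ) < 4 * Real.pi ^ 2 := by positivity
    exact_mod_cast this.ne'
  have h4R : 2 * R ≤ 1 / (4 * Real.log q) := by
    rw [le_div_iff₀ (by positivity)]
    nlinarith
  have htot : (0 : ℝ) ≤ (q.totient : ℝ) / q := by positivity
  constructor
  · intro hF0 hFb
    refine ⟨?_, ?_, ?_⟩
    · intro u hu
      obtain ⟨h1, h2, h3⟩ := hu
      have e1 := h1.le.trans hR1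
      have e2 := h2.le.trans hR1
      have e3 := h3.le.trans hR1
      have r1 := abs_le.1 ((abs_re_le_norm u.1).trans e1)
      have r2 := abs_le.1 ((abs_re_le_norm u.2.1).trans e2)
      have r3 := abs_le.1 ((abs_re_le_norm u.2.2).trans e3)
      have hA := (hzf q (1 + u.2.1 + u.2.2)).1 (by simp only [add_re, one_re]; linarith [r2.1, r3.1])
        (by simp only [add_re, one_re]; linarith [r2.2, r3.2])
      have hBr : (13 / 10 : ℝ) ≤ (2 + 2 * u.1 + u.2.1 + u.2.2).re := by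
        have : (2 + 2 * u.1 + u.2.1 + u.2.2).re = 2 + 2 * u.1.re + u.2.1.re + u.2.2.re := by
          simp
        rw [this]
        linarith [r1.1, r2.1, r3.1]
      have hB' := (hzf q (2 + 2 * u.1 + u.2.1 + u.2.2)).2 hBr
      have hEW : DifferentiableAt ℂ
          (fun u : ℂ × ℂ × ℂ => EW P I (w2 χ u.1 u.2.1 u.2.2) (MX K B)) u := by
        have hop : IsOpen {u : ℂ × ℂ × ℂ | ‖u.1‖ < 1 / 7 ∧ ‖u.2.1‖ < 1 / 7 ∧
            -(3 / 10) < u.2.2.re} :=
          (isOpen_lt (continuous_fst.norm) continuous_const).inter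
            ((isOpen_lt (continuous_snd.fst.norm) continuous_const).inter
              (isOpen_lt continuous_const (Complex.continuous_re.comp continuous_snd.snd)))
        have hmem : u ∈ {u : ℂ × ℂ × ℂ | ‖u.1‖ < 1 / 7 ∧ ‖u.2.1‖ < 1 / 7 ∧
            -(3 / 10) < u.2.2.re} := ⟨by linarith, by linarith, by linarith [r3.1]⟩
        exact (hew2 u hmem).differentiableAt (hop.mem_nhds hmem)
      have hG1 : DifferentiableAt ℂ (fun u : ℂ × ℂ × ℂ => Complex.Gamma (1 + u.2.1)) u :=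
        DifferentiableAt.comp (f := fun u : ℂ × ℂ × ℂ => 1 + u.2.1) u (hgam u.2.1 e2).1
          (by fun_prop)
      have hG2 : DifferentiableAt ℂ (fun u : ℂ × ℂ × ℂ => Complex.Gamma (1 + u.2.2)) u :=
        DifferentiableAt.comp (f := fun u : ℂ × ℂ × ℂ => 1 + u.2.2) u (hgam u.2.2 e3).1
          (by fun_prop)
      have hg1 : DifferentiableAt ℂ (fun u : ℂ × ℂ × ℂ => g (u.1 + u.2.1)) u :=
        DifferentiableAt.comp (f := fun u : ℂ × ℂ × ℂ => u.1 + u.2.1) u (hg _) (by fun_prop)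
      have hg2 : DifferentiableAt ℂ (fun u : ℂ × ℂ × ℂ => g (u.1 + u.2.2)) u :=
        DifferentiableAt.comp (f := fun u : ℂ × ℂ × ℂ => u.1 + u.2.2) u (hg _) (by fun_prop)
      have hc1 : DifferentiableAt ℂ (fun u : ℂ × ℂ × ℂ =>
          (((q / (2 * Real.pi) : ℝ) : ℂ) ^ (u.2.1 + u.2.2))) u :=
        DifferentiableAt.const_cpow (by fun_prop) (Or.inl hbq)
      have hc2 : DifferentiableAt ℂ (fun u : ℂ × ℂ × ℂ =>
          (((4 * Real.pi ^ 2 : ℝ) : ℂ) ^ (-u.1))) u :=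
        DifferentiableAt.const_cpow (by fun_prop) (Or.inl hbp)
      have hq1 : DifferentiableAt ℂ (fun u : ℂ × ℂ × ℂ => zq1 q (1 + u.2.1 + u.2.2)) u :=
        DifferentiableAt.comp (f := fun u : ℂ × ℂ × ℂ => 1 + u.2.1 + u.2.2) u hA.1 (by fun_prop)
      have hq2 : DifferentiableAt ℂ
          (fun u : ℂ × ℂ × ℂ => zq q (2 + 2 * u.1 + u.2.1 + u.2.2)) u :=
        DifferentiableAt.comp (f := fun u : ℂ × ℂ × ℂ => 2 + 2 * u.1 + u.2.1 + u.2.2) u hB'.1
          (by fun_prop)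
      have hdv : DifferentiableAt ℂ (fun u : ℂ × ℂ × ℂ => zq1 q (1 + u.2.1 + u.2.2) /
          zq q (2 + 2 * u.1 + u.2.1 + u.2.2)) u := by
        simp only [div_eq_mul_inv]
        exact hq1.mul (hq2.inv hB'.2.2)
      have hall := (((((hg1.pow 2).mul (hg2.pow 2)).mul (hG1.mul hG2)).mul
        (hc1.mul hc2)).mul hdv).mul hEW
      exact hall.differentiableWithinAt
    · intro u hu
      obtain ⟨h1, h2, h3⟩ := hu
      have e1 := h1.le.trans hR1
      have e2 := h2.le.trans hR1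
      have e3 := h3.le.trans hR1
      have n1 : ‖u.1 + u.2.1‖ ≤ 2 * R := (norm_add_le _ _).trans (by linarith)
      have n2 : ‖u.1 + u.2.2‖ ≤ 2 * R := (norm_add_le _ _).trans (by linarith)
      have n3 : ‖u.2.1 + u.2.2‖ ≤ 2 * R := (norm_add_le _ _).trans (by linarith)
      have n4 : ‖2 * u.1 + u.2.1 + u.2.2‖ ≤ 1 / 2 := by
        have t1 := norm_add_le (2 * u.1 + u.2.1) u.2.2
        have t2 := norm_add_le (2 * u.1) u.2.1
        have t3 : ‖2 * u.1‖ = 2 * ‖u.1‖ := by simp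
        linarith
      have b1 := hgb _ n1
      have b2 := hgb _ n2
      have b3 := (hgam u.2.1 e2).2
      have b4 := (hgam u.2.2 e3).2
      have b5 := gi_q hq ha0 ha n3
      have b6 := gi_w e1
      have b7 := hz1 _ (n3.trans h4R)
      have b8 := hz3 _ n4
      have b9 := hFb u.1 u.2.1 u.2.2 h1.le h2.le h3.le
      have e7 : (1 : ℂ) + (u.2.1 + u.2.2) = 1 + u.2.1 + u.2.2 := by ring
      have e8 : (2 : ℂ) + (2 * u.1 + u.2.1 + u.2.2) = 2 + 2 * u.1 + u.2.1 + u.2.2 := by ring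
      rw [e7] at b7
      rw [e8] at b8
      have hnorm : ‖un (Hf χ g P I K B) u‖ =
          ‖g (u.1 + u.2.1)‖ ^ 2 * ‖g (u.1 + u.2.2)‖ ^ 2 *
          (‖Complex.Gamma (1 + u.2.1)‖ * ‖Complex.Gamma (1 + u.2.2)‖) *
          (‖(((q / (2 * Real.pi) : ℝ) : ℂ) ^ (u.2.1 + u.2.2))‖ *
            ‖(((4 * Real.pi ^ 2 : ℝ) : ℂ) ^ (-u.1))‖) *
          (‖zq1 q (1 + u.2.1 + u.2.2)‖ * ‖(zq q (2 + 2 * u.1 + u.2.1 + u.2.2))⁻¹‖) *
          ‖EW P I (w2 χ u.1 u.2.1 u.2.2) (MX K B)‖ := by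
        unfold un Hf
        rw [norm_mul, norm_mul, norm_mul, norm_mul, norm_mul, norm_mul, norm_mul, norm_pow,
          norm_pow, div_eq_mul_inv (zq1 q (1 + u.2.1 + u.2.2)), norm_mul]
      have hz5' : 0 ≤ ‖zq q 2‖⁻¹ := inv_nonneg.2 hz5.le
      rw [hnorm]
      calc _ ≤ (2 * g₀) ^ 2 * (2 * g₀) ^ 2 * (G * G) * (Real.exp 1 * Real.exp 1) *
            (C0 * ((q.totient : ℝ) / q) * (C0 * ‖zq q 2‖⁻¹)) * (C₂ * F) := by
            gcongr
        _ = 16 * G ^ 2 * Real.exp 1 ^ 2 * C0 ^ 2 * C₂ * hf0 q g₀ F := by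
            unfold hf0
            rw [div_eq_mul_inv _ ‖zq q 2‖]
            ring
    · unfold Hf hf0
      rw [hF0]
      simp only [add_zero, mul_zero, neg_zero, Complex.cpow_zero, Complex.Gamma_one, hgz, mul_one]
      rw [hz2, hz4]
      push_cast
      simp only [Complex.norm_real, Real.norm_eq_abs, abs_of_pos hz5]
      ring
  · intro hF0 hFb
    refine ⟨?_, ?_, ?_⟩
    · intro z hz
      have h3 : ‖z‖ < R := by simpa using hz
      have e3 := h3.le.trans hR1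
      have r3 := abs_le.1 ((abs_re_le_norm z).trans e3)
      have hEW : DifferentiableAt ℂ (fun z : ℂ => EW P I (w1 χ z) (MX K B)) z := by
        apply (hew1 z (by show (-(3 / 10) : ℝ) < z.re; linarith [r3.1])).differentiableAt
        apply IsOpen.mem_nhds
        · exact isOpen_lt (by fun_prop) Complex.continuous_re
        · show (-(3 / 10) : ℝ) < z.re
          linarith [r3.1]
      have hG2 : DifferentiableAt ℂ (fun z : ℂ => Complex.Gamma (1 + z)) z :=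
        DifferentiableAt.comp (f := fun z : ℂ => 1 + z) z (hgam z e3).1 (by fun_prop)
      have hc1 : DifferentiableAt ℂ (fun z : ℂ =>
          (((q / (2 * Real.pi) : ℝ) : ℂ) ^ z)) z :=
        DifferentiableAt.const_cpow (by fun_prop) (Or.inl hbq)
      exact ((((hg z).mul hG2).mul hc1).mul hEW).differentiableWithinAt
    · intro z hz
      have h3 : ‖z‖ < R := by simpa using hz
      have e3 := h3.le.trans hR1
      have b1 := hgb z (by linarith)
      have b3 := (hgam z e3).2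
      have b5 := gi_q hq ha0 ha (v := z) (by linarith)
      have b9 := hFb z h3.le
      unfold Hl
      rw [norm_mul, norm_mul, norm_mul]
      calc _ ≤ (2 * g₀) * G * Real.exp 1 * (C₂ * F) := by gcongr
        _ = (2 * G * Real.exp 1) * (C₂ * (g₀ * F)) := by ring
        _ ≤ (16 * G ^ 2 * Real.exp 1 ^ 2 * C0 ^ 2) * (C₂ * (g₀ * F)) := by
            have t0 : 0 ≤ C₂ * (g₀ * F) := by positivity
            apply mul_le_mul_of_nonneg_right _ t0
            have t1 : G ≤ G ^ 2 := by nlinarith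
            have t2 : Real.exp 1 ≤ Real.exp 1 ^ 2 := by nlinarith
            have t3 : 1 ≤ C0 ^ 2 := one_le_pow₀ hC0
            calc 2 * G * Real.exp 1 ≤ 16 * G ^ 2 * Real.exp 1 ^ 2 := by gcongr; norm_num
              _ ≤ 16 * G ^ 2 * Real.exp 1 ^ 2 * C0 ^ 2 :=
                  le_mul_of_one_le_right (by positivity) t3
        _ = 16 * G ^ 2 * Real.exp 1 ^ 2 * C0 ^ 2 * C₂ * (g₀ * F) := by ring
    · unfold Hl
      rw [hF0, hgz]
      simp only [add_zero, Complex.cpow_zero, Complex.Gamma_one, mul_one]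
      push_cast
      ring


end Pool.Agent.EXC
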