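import Pool.Agent.Lib_helper15.EXC.DefsI
/-! EXC block GJ: the integrals in terms of `T3` -/

set_option autoImplicit false

namespace Pool.Agent.EXC

open Finset Complex Metric Filter MeasureTheory
open Pool.Agent.GA
open Pool.Agent.LSP (MX)
open Pool.Agent.LVB (IsST)
open Pool.Agent.LK (PQ)
open Pool.Agent.LE
open Pool.Agent.LG (J3)
open scoped Topology

variable {q : ℕ} [NeZero q]

omit [NeZero q] in
theorem gj_sqrt {N : ℕ} (hN : 1 ≤ N) (s : ℂ) :
    ((Real.sqrt N : ℝ) : ℂ) ^ s = Complex.exp (Real.log N * s / 2) := by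
  have hN0 : (0 : ℝ) < N := by exact_mod_cast hN
  have h0 : 0 < Real.sqrt N := Real.sqrt_pos.2 hN0
  rw [Complex.cpow_def_of_ne_zero (by exact_mod_cast h0.ne'), ← Complex.ofReal_log h0.le,
    Real.log_sqrt hN0.le]
  congr 1
  push_cast
  ring

theorem gj_Y {N : ℕ} (hN : 1 ≤ N) {Y : ℝ} (hY : Y = q * Real.sqrt N) (s : ℂ) :
    ((Y / (2 * Real.pi) : ℝ) : ℂ) ^ s =
      Complex.exp (Real.log N * s / 2) * ((q / (2 * Real.pi) : ℝ) : ℂ) ^ s := by
  have hq : (0 : ℝ) < q := by exact_mod_cast Nat.pos_of_ne_zero (NeZero.ne q)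
  have e : Y / (2 * Real.pi) = Real.sqrt N * (q / (2 * Real.pi)) := by rw [hY]; ring
  rw [e, Complex.ofReal_mul, Complex.mul_cpow_ofReal_nonneg (Real.sqrt_nonneg _) (by positivity),
    gj_sqrt hN]

omit [NeZero q] in
theorem gj_N {N : ℕ} (hN : 1 ≤ N) (w : ℂ) :
    (((N : ℝ) / (4 * Real.pi ^ 2) : ℝ) : ℂ) ^ w =
      Complex.exp (Real.log N * w) * ((4 * Real.pi ^ 2 : ℝ) : ℂ) ^ (-w) := by
  have hN0 : (0 : ℝ) < N := by exact_mod_cast hN
  have hp : (0 : ℝ) < 4 * Real.pi ^ 2 := by positivity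
  have h1 : (0 : ℝ) < (N : ℝ) / (4 * Real.pi ^ 2) := by positivity
  rw [Complex.cpow_def_of_ne_zero (by exact_mod_cast h1.ne'), ← Complex.ofReal_log h1.le,
    Complex.cpow_def_of_ne_zero (by exact_mod_cast hp.ne'), ← Complex.ofReal_log hp.le,
    ← Complex.exp_add, Real.log_div hN0.ne' hp.ne']
  congr 1
  push_cast
  ring

theorem j3_eq_pr {χ : DirichletCharacter ℂ q} {g : ℂ → ℂ} {δ : ℝ}
    (hg : ∀ w : ℂ, DirichletCharacter.LFunction χ (1 + w) = (w + δ) * g w)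
    (P : Measure (ℕ → ℝ)) (I : Finset ℕ) (K : ℕ) (B : ℕ → ℝ) {N : ℕ} (hN : 1 ≤ N) {Y : ℝ}
    (hY : Y = q * Real.sqrt N) (i i' : ℕ) (r r' : ℝ) :
    J3 χ P I K B i i' N Y r r' = T3 i i' r r' (fun w s z => (w + s + δ) ^ 2 * (w + z + δ) ^ 2 *
      Complex.exp (Real.log N * ell w s z) * Hf χ g P I K B w s z) := by
  unfold J3 T3 ci
  congr 1
  congr 1
  funext s
  rw [← circleIntegral.integral_const_mul, ← circleIntegral.integral_const_mul]
  simp only [← circleIntegral.integral_const_mul]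
  congr 1
  funext w
  congr 1
  funext z
  have e1 : DirichletCharacter.LFunction χ (1 + s + w) = (w + s + δ) * g (w + s) := by
    rw [← hg]; congr 1; ring
  have e2 : DirichletCharacter.LFunction χ (1 + w + z) = (w + z + δ) * g (w + z) := by
    rw [← hg]; congr 1; ring
  have hq : (0 : ℝ) < q := by exact_mod_cast Nat.pos_of_ne_zero (NeZero.ne q)
  have hq' : ((q / (2 * Real.pi) : ℝ) : ℂ) ≠ 0 := by
    have : (0 : ℝ) < q / (2 * Real.pi) := by positivity
    exact_mod_cast this.ne'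
  have e3 : ((q / (2 * Real.pi) : ℝ) : ℂ) ^ (s + z) =
      ((q / (2 * Real.pi) : ℝ) : ℂ) ^ s * ((q / (2 * Real.pi) : ℝ) : ℂ) ^ z :=
    Complex.cpow_add _ _ hq'
  have e4 : Complex.exp (Real.log N * ell w s z) = Complex.exp (Real.log N * w) *
      (Complex.exp (Real.log N * s / 2) * Complex.exp (Real.log N * z / 2)) := by
    rw [← Complex.exp_add, ← Complex.exp_add]
    congr 1
    unfold ell
    ring
  unfold H2 Hf
  rw [e1, e2, e3, e4, gj_Y hN hY s, gj_Y hN hY z, gj_N hN w]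
  simp only [div_eq_mul_inv, mul_inv]
  generalize g (w + s) = a1
  generalize g (w + z) = a2
  generalize w + s + δ = a3
  generalize w + z + δ = a4
  generalize (z + s)⁻¹ = a5
  generalize (z ^ (i' + 1))⁻¹ = a6
  generalize (s ^ (i + 1))⁻¹ = a7
  generalize (w ^ 2)⁻¹ = a8
  ring

theorem h1_eq_pr {χ : DirichletCharacter ℂ q} {g : ℂ → ℂ} {δ : ℝ}
    (hg : ∀ w : ℂ, DirichletCharacter.LFunction χ (1 + w) = (w + δ) * g w)
    (P : Measure (ℕ → ℝ)) (I : Finset ℕ) (K : ℕ) (B : ℕ → ℝ) {N : ℕ} (hN : 1 ≤ N) {Y : ℝ}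
    (hY : Y = q * Real.sqrt N) (i : ℕ) (r : ℝ) :
    1 / (2 * Real.pi * Complex.I) * (∮ z in C(0, r), H1 χ P I K B Y z / z ^ (i + 1)) =
      ci r (fun z => (z + δ) * Complex.exp (Real.log N * z / 2) * Hl χ g P I K B z /
        z ^ (i + 1)) := by
  unfold ci
  rw [one_div]
  congr 1
  congr 1
  funext z
  unfold H1 Hl
  rw [gj_Y hN hY z, hg z]
  ring

end Pool.Agent.EXC

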