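import Pool.Agent.Lib_helper15.EXC.DefsI
import Pool.Agent.Lib_helper15.EXCF.GF2
import Pool.Agent.Lib_helper15.EXCF.GH
import Pool.Agent.Lib_helper15.EXCF.GI
import Pool.Agent.Lib_helper15.EXCF.GJ
import Pool.Agent.Lib_helper15.EXCF.GG
/-!
# EXC, part G: the Gram matrix of the instance
-/

set_option autoImplicit false

namespace Pool.Agent.EXC

open Finset Complex Metric Filter MeasureTheory
open Pool.Agent.GA
open Pool.Agent.LSP (MX)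
open Pool.Agent.LVB (IsST)
open Pool.Agent.LK (PQ)
open Pool.Agent.LE
open Pool.Agent.LG (J3)

/-- choice of `κ` -/
theorem fg_par {a ε D : ℝ} (ha : 0 < a) (hε : 0 < ε) (hD : 1 ≤ D) :
    ∃ κ : ℝ, 0 < κ ∧ ∀ (N q : ℕ), 2 ≤ N → 3 ≤ q → (q : ℝ) ≤ (N : ℝ) ^ κ → ∀ δ : ℝ, 0 ≤ δ →
    δ * Real.log N ≤ κ → 0 < Real.log N ∧ 1 ≤ Real.log q ∧ 4 ≤ a / Real.log q * Real.log N ∧
    δ * Real.log N ≤ 1 ∧
    D * (1 / (a / Real.log q * Real.log N) + δ * Real.log N) ≤ ε := by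
  refine ⟨min (a / 4) (min 1 (ε / (D * (1 / a + 1)))), by positivity, ?_⟩
  intro N q hN hq hqN δ hδ hδN
  set κ := min (a / 4) (min 1 (ε / (D * (1 / a + 1)))) with hκ
  have k1 : κ ≤ a / 4 := min_le_left _ _
  have k2 : κ ≤ 1 := (min_le_right _ _).trans (min_le_left _ _)
  have k3 : κ ≤ ε / (D * (1 / a + 1)) := (min_le_right _ _).trans (min_le_right _ _)
  have hκ0 : 0 < κ := by positivity
  have hNr : (2 : ℝ) ≤ N := by exact_mod_cast hN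
  have hqr : (3 : ℝ) ≤ q := by exact_mod_cast hq
  have hL : 0 < Real.log N := Real.log_pos (by linarith)
  have hlq : 1 ≤ Real.log q := by
    rw [Real.le_log_iff_exp_le (by linarith)]
    have := Real.exp_one_lt_d9
    linarith
  have hlq0 : 0 < Real.log q := by linarith
  have h1 : Real.log q ≤ κ * Real.log N := by
    have := Real.log_le_log (by linarith) hqN
    rwa [Real.log_rpow (by linarith)] at this
  have h2 : a / κ ≤ a / Real.log q * Real.log N := by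
    rw [div_mul_eq_mul_div, div_le_div_iff₀ hκ0 hlq0]
    nlinarith
  have h3 : 4 ≤ a / κ := by
    rw [le_div_iff₀ hκ0]
    linarith
  refine ⟨hL, hlq, h3.trans h2, hδN.trans k2, ?_⟩
  have h4 : 1 / (a / Real.log q * Real.log N) ≤ κ / a := by
    calc 1 / (a / Real.log q * Real.log N) ≤ 1 / (a / κ) :=
          one_div_le_one_div_of_le (by positivity) h2
      _ = κ / a := one_div_div _ _
  calc D * (1 / (a / Real.log q * Real.log N) + δ * Real.log N) ≤ D * (κ / a + κ) :=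
        mul_le_mul_of_nonneg_left (add_le_add h4 hδN) (by linarith)
    _ = D * (1 / a + 1) * κ := by ring
    _ ≤ D * (1 / a + 1) * (ε / (D * (1 / a + 1))) := mul_le_mul_of_nonneg_left k3 (by positivity)
    _ = ε := by
      have : D * (1 / a + 1) ≠ 0 := by positivity
      field_simp

theorem fg_q3 {q : ℕ} [NeZero q] {χ : DirichletCharacter ℂ q} (h : PQ χ) : 3 ≤ q :=
  three_le h.ne

theorem gram_pr {c₀ C₁ c₁ ε : ℝ} (hc₀ : 0 < c₀) (hC₁ : 1 ≤ C₁) (hc₁ : 0 < c₁) (hε : 0 < ε) :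
    ∃ (κ : ℝ) (N₀ : ℕ), 0 < κ ∧ ∀ N : ℕ, N₀ ≤ N → ∀ (q : ℕ) [NeZero q]
    (χ : DirichletCharacter ℂ q), PQ χ → (q : ℝ) ≤ (N : ℝ) ^ κ → ∀ (β : ℝ) (g : ℂ → ℂ) (g₀ : ℝ),
    GFun χ β c₀ g g₀ → 0 ≤ 1 - β → (1 - β) * Real.log N ≤ κ →
    ∀ (I : Finset ℕ) (P : Measure (ℕ → ℝ)), (∀ p ∈ I, p.Prime) → IsST I P →
    ∀ K : ℕ, (∀ p : ℕ, p.Prime → p ≤ K → p ∈ I) → ∀ B : ℕ → ℝ, SuppIn K B → ∀ F : ℝ, 0 < F →
    EW P I (w2 χ 0 0 0) (MX K B) = (F : ℂ) →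
    (∀ w s z : ℂ, ‖w‖ ≤ c₁ / Real.log q → ‖s‖ ≤ c₁ / Real.log q → ‖z‖ ≤ c₁ / Real.log q →
      ‖EW P I (w2 χ w s z) (MX K B)‖ ≤ C₁ * F) →
    ∀ Y L δ M : ℝ, Y = q * Real.sqrt N → L = Real.log N → δ = 1 - β → M = hf0 q g₀ F →
    0 < M ∧ ‖J3 χ P I K B 1 1 N Y (1 / L) (2 / L) - 2 * M‖ ≤ ε * M ∧
    ‖J3 χ P I K B 2 2 N Y (1 / L) (2 / L) - L ^ 2 * M‖ ≤ ε * (L ^ 2 * M) ∧
    ‖J3 χ P I K B 2 0 N Y (1 / L) (2 / L) - δ * L * M‖ ≤ ε * (δ * L * M) ∧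
    ‖J3 χ P I K B 0 2 N Y (1 / L) (2 / L) - δ * L * M‖ ≤ ε * (δ * L * M) ∧
    ‖J3 χ P I K B 0 0 N Y (1 / L) (2 / L) - 6 * δ ^ 2 * M‖ ≤ ε * (δ ^ 2 * M) := by
  obtain ⟨Cg, hCg, hgram⟩ := gram_abs_pr
  obtain ⟨Ch, hCh, hhf⟩ := hf_facts_pr
  obtain ⟨Cz, hCz, hzq⟩ := zq_near_pr
  set a : ℝ := min (1 / 20) (min (c₀ / 2) c₁) with ha
  have ha0 : 0 < a := by positivity
  have a1 : a ≤ 1 / 20 := min_le_left _ _
  have a2 : a ≤ c₀ / 2 := (min_le_right _ _).trans (min_le_left _ _)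
  have a3 : a ≤ c₁ := (min_le_right _ _).trans (min_le_right _ _)
  have hD : 1 ≤ Cg * (Ch * C₁) := by
    have : 1 ≤ Ch * C₁ := one_le_mul_of_one_le_of_one_le hCh hC₁
    exact one_le_mul_of_one_le_of_one_le hCg this
  obtain ⟨κ, hκ, hpar⟩ := fg_par ha0 hε hD
  refine ⟨κ, 2, hκ, ?_⟩
  intro N hN q _ χ hχ hqN β g g₀ hg hβ hβN I P hI hP K hK B hB F hF hF0 hFb Y L δ M hY hL hδ hM
  have hq3 := fg_q3 hχ
  obtain ⟨hL0, hlq, hRL, hδL, herr⟩ := hpar N q hN hq3 hqN (1 - β) hβ hβN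
  have hlq0 : 0 < Real.log q := by linarith
  have hg0 : 0 < g₀ := by linarith [hg.ge]
  have hgb : ∀ w : ℂ, ‖w‖ ≤ 2 * a / Real.log q → ‖g w‖ ≤ 2 * g₀ := fun w hw =>
    hg.bdd w (hw.trans (by gcongr; linarith))
  have hmono : a / Real.log q ≤ c₁ / Real.log q := by gcongr
  obtain ⟨h1, h2, h3⟩ := ((hhf q χ hq3 g g₀ a hg.diff hg0 hg.zero ha0 a1 hgb I P hI hP K hK B hB F
    C₁ hF hC₁).1 hF0 fun w s z hw hs hz => hFb w s z (hw.trans hmono) (hs.trans hmono)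
    (hz.trans hmono))
  obtain ⟨-, -, -, -, hz5⟩ := hzq q hq3
  have hM0 : 0 < M := by
    rw [hM]
    unfold hf0
    have : 0 < q.totient := Nat.totient_pos.2 (by omega)
    have : (0 : ℝ) < q.totient := by exact_mod_cast this
    have : (0 : ℝ) < q := by exact_mod_cast (by omega : 0 < q)
    positivity
  have hhM : ∀ u ∈ pdisc (a / Real.log q), ‖un (Hf χ g P I K B) u‖ ≤ Ch * C₁ * M := by
    rw [hM]
    exact h2
  have hLL : (L : ℂ) = (Real.log N : ℝ) := by rw [hL]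
  have h4 := hgram L (a / Real.log q) δ M (Ch * C₁) (Hf χ g P I K B) (by rw [hL]; exact hL0)
    (by rw [hL]; exact hRL) (by rw [hδ]; exact hβ) (by rw [hL, hδ]; exact hδL) hM0
    (one_le_mul_of_one_le_of_one_le hCh hC₁) h1 hhM (by rw [h3, hM])
    (fun i j => J3 χ P I K B i j N Y (1 / L) (2 / L)) (fun i j => by
      have := j3_eq_pr hg.fac P I K B (by omega : 1 ≤ N) hY i j (1 / L) (2 / L)
      rw [this, hδ, hL])
  have herr' : Cg * (Ch * C₁) * (1 / (a / Real.log q * L) + δ * L) ≤ ε := by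
    rw [hL, hδ]
    exact herr
  obtain ⟨e1, e2, e3, e4, e5⟩ := h4
  have hLp : 0 < L := by rw [hL]; exact hL0
  have hδ0 : 0 ≤ δ := by rw [hδ]; exact hβ
  refine ⟨hM0, e1.trans (mul_le_mul_of_nonneg_right herr' hM0.le),
    e2.trans (mul_le_mul_of_nonneg_right herr' (by positivity)),
    e3.trans (mul_le_mul_of_nonneg_right herr' (by positivity)),
    e4.trans (mul_le_mul_of_nonneg_right herr' (by positivity)),
    e5.trans (mul_le_mul_of_nonneg_right herr' (by positivity))⟩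

theorem gram_lin_pr {c₀ C₁ c₁ ε : ℝ} (hc₀ : 0 < c₀) (hC₁ : 1 ≤ C₁) (hc₁ : 0 < c₁) (hε : 0 < ε) :
    ∃ (κ : ℝ) (N₀ : ℕ), 0 < κ ∧ ∀ N : ℕ, N₀ ≤ N → ∀ (q : ℕ) [NeZero q]
    (χ : DirichletCharacter ℂ q), PQ χ → (q : ℝ) ≤ (N : ℝ) ^ κ → ∀ (β : ℝ) (g : ℂ → ℂ) (g₀ : ℝ),
    GFun χ β c₀ g g₀ → 0 ≤ 1 - β → (1 - β) * Real.log N ≤ κ →
    ∀ (I : Finset ℕ) (P : Measure (ℕ → ℝ)), (∀ p ∈ I, p.Prime) → IsST I P →
    ∀ K : ℕ, (∀ p : ℕ, p.Prime → p ≤ K → p ∈ I) → ∀ B : ℕ → ℝ, SuppIn K B → ∀ F : ℝ, 0 < F →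
    EW P I (w1 χ 0) (MX K B) = (F : ℂ) →
    (∀ z : ℂ, ‖z‖ ≤ c₁ / Real.log q → ‖EW P I (w1 χ z) (MX K B)‖ ≤ C₁ * F) →
    ∀ Y L δ M : ℝ, Y = q * Real.sqrt N → L = Real.log N → δ = 1 - β → M = g₀ * F →
    ∀ R : ℕ → ℂ, (∀ i, R i = 1 / (2 * Real.pi * Complex.I) *
      ∮ z in C(0, 1 / L), H1 χ P I K B Y z / z ^ (i + 1)) →
    R 0 = δ * M ∧ ‖R 1 - M‖ ≤ ε * M ∧ ‖R 2 - L / 2 * M‖ ≤ ε * (L * M) := by
  obtain ⟨Cg, hCg, hlin⟩ := lin_abs_pr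
  obtain ⟨Ch, hCh, hhf⟩ := hf_facts_pr
  set a : ℝ := min (1 / 20) (min (c₀ / 2) c₁) with ha
  have ha0 : 0 < a := by positivity
  have a1 : a ≤ 1 / 20 := min_le_left _ _
  have a2 : a ≤ c₀ / 2 := (min_le_right _ _).trans (min_le_left _ _)
  have a3 : a ≤ c₁ := (min_le_right _ _).trans (min_le_right _ _)
  have hD : 1 ≤ Cg * (Ch * C₁) := by
    have : 1 ≤ Ch * C₁ := one_le_mul_of_one_le_of_one_le hCh hC₁
    exact one_le_mul_of_one_le_of_one_le hCg this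
  obtain ⟨κ, hκ, hpar⟩ := fg_par ha0 hε hD
  refine ⟨κ, 2, hκ, ?_⟩
  intro N hN q _ χ hχ hqN β g g₀ hg hβ hβN I P hI hP K hK B hB F hF hF0 hFb Y L δ M hY hL hδ hM
    R hR
  have hq3 := fg_q3 hχ
  obtain ⟨hL0, hlq, hRL, hδL, herr⟩ := hpar N q hN hq3 hqN (1 - β) hβ hβN
  have hlq0 : 0 < Real.log q := by linarith
  have hg0 : 0 < g₀ := by linarith [hg.ge]
  have hgb : ∀ w : ℂ, ‖w‖ ≤ 2 * a / Real.log q → ‖g w‖ ≤ 2 * g₀ := fun w hw =>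
    hg.bdd w (hw.trans (by gcongr; linarith))
  have hmono : a / Real.log q ≤ c₁ / Real.log q := by gcongr
  obtain ⟨h1, h2, h3⟩ := ((hhf q χ hq3 g g₀ a hg.diff hg0 hg.zero ha0 a1 hgb I P hI hP K hK B hB F
    C₁ hF hC₁).2 hF0 fun z hz => hFb z (hz.trans hmono))
  have hM0 : 0 < M := by
    rw [hM]
    positivity
  have hhM : ∀ z ∈ ball (0 : ℂ) (a / Real.log q), ‖Hl χ g P I K B z‖ ≤ Ch * C₁ * M := by
    rw [hM]
    exact h2
  have h4 := hlin L (a / Real.log q) δ M (Ch * C₁) (Hl χ g P I K B) (by rw [hL]; exact hL0)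
    (by rw [hL]; exact hRL) (by rw [hδ]; exact hβ) (by rw [hL, hδ]; exact hδL) hM0
    (one_le_mul_of_one_le_of_one_le hCh hC₁) h1 hhM (by rw [h3, hM])
  have herr' : Cg * (Ch * C₁) * (1 / (a / Real.log q * L) + δ * L) ≤ ε := by
    rw [hL, hδ]
    exact herr
  have hRi : ∀ i, R i = ci (1 / L) (fun z => (z + δ) * Complex.exp (L * z / 2) *
      Hl χ g P I K B z / z ^ (i + 1)) := by
    intro i
    have := h1_eq_pr hg.fac P I K B (by omega : 1 ≤ N) hY i (1 / L)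
    rw [hR, this, hδ, hL]
  obtain ⟨e1, e2, e3⟩ := h4
  have hLp : 0 < L := by rw [hL]; exact hL0
  refine ⟨by rw [hRi]; exact e1, ?_, ?_⟩
  · rw [hRi]
    exact e2.trans (mul_le_mul_of_nonneg_right herr' hM0.le)
  · rw [hRi]
    exact e3.trans (mul_le_mul_of_nonneg_right herr' (by positivity))

end Pool.Agent.EXC
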