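import Pool.Agent.Lib_helper15.EXC.DefsI
/-!
# EXC, part X: X2 in the form needed by the mollifier
-/

set_option autoImplicit false

namespace Pool.Agent.EXC

open Finset Complex Metric Filter MeasureTheory
open Pool.Agent.GA
open Pool.Agent.LK (PQ)
open Pool.Agent.LE

theorem fm_pz {q : ℕ} [NeZero q] (χ : DirichletCharacter ℂ q) (z : ℕ) :
    ∏ p ∈ LM.Pz z, (1 - 1 / (p : ℝ)) * (1 - LM.cv χ p / p) = pz χ z := by
  unfold LM.Pz pz lf LM.cv vr
  refine Finset.prod_congr rfl fun p _ => ?_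
  rw [one_div, div_eq_mul_inv]

theorem xmoll_pr {ε : ℝ} (hε : 0 < ε) : ∃ (A₁ : ℕ) (κ : ℝ) (q₀ : ℕ), 1 ≤ A₁ ∧ 0 < κ ∧
    ∀ (q : ℕ) [NeZero q] (χ : DirichletCharacter ℂ q), PQ χ → q₀ ≤ q → ∀ (β c : ℝ) (g : ℂ → ℂ)
    (g₀ : ℝ), GFun χ β c g g₀ → DirichletCharacter.LFunction χ (β : ℂ) = 0 →
    (1 - β) * Real.log q ≤ κ →
    g₀ * ∏ p ∈ LM.Pz (q ^ A₁), (1 - 1 / (p : ℝ)) * (1 - LM.cv χ p / p) ≤ 1 + ε := by
  obtain ⟨C, hC, c, hc, -, hmain⟩ := x2
  have hC0 : 0 < C := by linarith
  set η : ℝ := min c (ε / (2 * (1 + ε)) / C) with hη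
  have hη0 : 0 < η := by positivity
  have hηc : η ≤ c := min_le_left _ _
  have hηC : C * η ≤ ε / (2 * (1 + ε)) := by
    calc C * η ≤ C * (ε / (2 * (1 + ε)) / C) := mul_le_mul_of_nonneg_left (min_le_right _ _) hC0.le
      _ = _ := by field_simp
  set lam : ℝ := Real.log (1 + ε / 2) with hlam
  have hlam0 : 0 < lam := Real.log_pos (by linarith)
  obtain ⟨A, hA⟩ := exists_nat_ge (4 * C / lam + 4 * C / (η * lam))
  obtain ⟨q₀, hq₀⟩ := exists_nat_ge (4 * C / lam)
  refine ⟨A + 1, min c (η ^ 2 * lam / (4 * C)), q₀, by omega, by positivity, ?_⟩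
  intro q _ χ hχ hq β c' g g₀ hg hβ hβq
  obtain ⟨hβ0, g', g₀', hg', hg0', hgz', hfac', -, hX⟩ := hmain q χ hχ.ne hχ.sq β
    (by rw [LF_eq]; exact hβ) (hβq.trans (min_le_left _ _))
  -- uniqueness of g₀
  have hgg : g₀ = g₀' := by
    have e1 := hg.fac 0
    have e2 := hfac' 0
    rw [LF_eq, e1, hg.zero, hgz', zero_add] at e2
    have h3 : ((1 - β : ℝ) : ℂ) ≠ 0 := by exact_mod_cast hβ0.ne'
    exact_mod_cast mul_left_cancel₀ h3 e2
  have hq3 := three_le hχ.ne
  have hqr : (3 : ℝ) ≤ q := by exact_mod_cast hq3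
  have hq0r : (0 : ℝ) < q := by linarith
  have hlq : 1 ≤ Real.log q := by
    rw [Real.le_log_iff_exp_le (by linarith)]
    have := Real.exp_one_lt_d9
    linarith
  have hlq0 : 0 < Real.log q := by linarith
  set z : ℕ := q ^ (A + 1) with hz
  have hqz : q ≤ z := by
    calc q = q ^ 1 := (pow_one q).symm
      _ ≤ q ^ (A + 1) := Nat.pow_le_pow_right (by omega) (by omega)
  have hlz : Real.log z = (A + 1 : ℝ) * Real.log q := by
    rw [hz]
    push_cast
    rw [Real.log_pow]
    push_cast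
    ring
  have h1 := hX η hη0 hηc z hqz
  have hAr : (0 : ℝ) < (A : ℝ) + 1 := by positivity
  -- the exponent
  have hE : C * ((1 - β) * Real.log q ^ 2 / η ^ 2 + Real.log q + 1 / η) / Real.log z + C / z ≤
      lam := by
    have hA1 : 4 * C / lam ≤ (A : ℝ) + 1 := by
      have : 0 < 4 * C / (η * lam) := by positivity
      linarith
    have hA2 : 4 * C / (η * lam) ≤ (A : ℝ) + 1 := by
      have : 0 < 4 * C / lam := by positivity
      linarith
    have t1 : C * ((1 - β) * Real.log q ^ 2 / η ^ 2) / Real.log z ≤ lam / 4 := by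
      have e1 : C * ((1 - β) * Real.log q ^ 2 / η ^ 2) / Real.log z =
          C / η ^ 2 * ((1 - β) * Real.log q) / (A + 1) := by
        rw [hlz]
        field_simp
      rw [e1]
      have e2 : C / η ^ 2 * ((1 - β) * Real.log q) ≤ lam / 4 := by
        calc C / η ^ 2 * ((1 - β) * Real.log q) ≤ C / η ^ 2 * (η ^ 2 * lam / (4 * C)) :=
              mul_le_mul_of_nonneg_left (hβq.trans (min_le_right _ _)) (by positivity)
          _ = lam / 4 := by
            field_simp
      rw [div_le_iff₀ hAr]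
      refine e2.trans ?_
      have : 0 ≤ (A : ℝ) := Nat.cast_nonneg A
      nlinarith
    have t2 : C * Real.log q / Real.log z ≤ lam / 4 := by
      rw [hlz]
      have e1 : C * Real.log q / ((A + 1) * Real.log q) = C / (A + 1) := by
        field_simp
      rw [e1, div_le_iff₀ hAr]
      rw [div_le_iff₀ hlam0] at hA1
      linarith
    have t3 : C * (1 / η) / Real.log z ≤ lam / 4 := by
      rw [hlz]
      have e1 : C * (1 / η) / ((A + 1) * Real.log q) ≤ C * (1 / η) / (A + 1) := by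
        apply div_le_div_of_nonneg_left (by positivity) hAr
        nlinarith
      refine e1.trans ?_
      rw [div_le_iff₀ hAr]
      rw [div_le_iff₀ (by positivity)] at hA2
      have e2 : C * (1 / η) = (4 * C) / (4 * η) := by
        field_simp
      rw [e2, div_le_iff₀ (by positivity)]
      nlinarith
    have t4 : C / (z : ℝ) ≤ lam / 4 := by
      have hzr : (q : ℝ) ≤ z := by exact_mod_cast hqz
      have h5 : 4 * C / lam ≤ z := by
        have : (q₀ : ℝ) ≤ q := by exact_mod_cast hq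
        linarith
      rw [div_le_iff₀ (by linarith)]
      rw [div_le_iff₀ hlam0] at h5
      linarith
    have e5 : C * ((1 - β) * Real.log q ^ 2 / η ^ 2 + Real.log q + 1 / η) / Real.log z =
        C * ((1 - β) * Real.log q ^ 2 / η ^ 2) / Real.log z + C * Real.log q / Real.log z +
        C * (1 / η) / Real.log z := by ring
    rw [e5]
    linarith
  have h2 : g₀ * (1 - C * η) * pz χ z ≤ 1 + ε / 2 := by
    rw [hgg]
    refine h1.trans ?_
    calc Real.exp _ ≤ Real.exp lam := Real.exp_le_exp.2 hE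
      _ = 1 + ε / 2 := Real.exp_log (by linarith)
  rw [fm_pz]
  have hp := pz_pos hχ.sq z
  have hg0 : 0 < g₀ := by linarith [hg.ge]
  have h3 : (1 + ε) * (1 - C * η) ≥ 1 + ε / 2 := by
    have h4 : (1 + ε) * (C * η) ≤ (1 + ε) * (ε / (2 * (1 + ε))) :=
      mul_le_mul_of_nonneg_left hηC (by linarith)
    have h5 : (1 + ε) * (ε / (2 * (1 + ε))) = ε / 2 := by
      field_simp
    nlinarith
  have h6 : 0 < 1 - C * η := by
    by_contra h
    push Not at h
    nlinarith
  have h7 : (1 - C * η) * (g₀ * pz χ z) ≤ (1 - C * η) * (1 + ε) := by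
    calc (1 - C * η) * (g₀ * pz χ z) = g₀ * (1 - C * η) * pz χ z := by ring
      _ ≤ 1 + ε / 2 := h2
      _ ≤ (1 - C * η) * (1 + ε) := by linarith
  exact le_of_mul_le_mul_left h7 h6

end Pool.Agent.EXC
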