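import Pool.Agent.Lib_helper15.EXC.DefsI
/-! EXC, block GX: partial summation for `L(1, χ)`. -/

set_option autoImplicit false

namespace Pool.Agent.EXC

open Finset Complex Metric Filter MeasureTheory
open Pool.Agent.GA
open scoped Topology

variable {q : ℕ} [NeZero q]

omit [NeZero q] in
theorem gx_abs (χ : DirichletCharacter ℂ q) (n : ℕ) : |vr χ n| ≤ 1 := by
  unfold vr
  exact (Complex.abs_re_le_norm _).trans (DirichletCharacter.norm_le_one χ _)

theorem gx_hasSum {χ : DirichletCharacter ℂ q} (h2 : χ ^ 2 = 1) {s : ℝ} (hs : 1 < s) :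
    HasSum (fun n : ℕ => vr χ (n + 1) * ((n : ℝ) + 1) ^ (-s)) (LF χ (s : ℂ)).re := by
  have hs' : 1 < (s : ℂ).re := by simpa using hs
  have h1 : LSeriesSummable (fun n => χ (n : ZMod q)) (s : ℂ) :=
    DirichletCharacter.LSeriesSummable_of_one_lt_re χ hs'
  have h3 : HasSum (LSeries.term (fun n => χ (n : ZMod q)) (s : ℂ)) (LF χ (s : ℂ)) := by
    rw [LF_eq_LS χ hs']
    exact h1.hasSum
  have h4 := (hasSum_nat_add_iff' 1).2 h3
  rw [Finset.sum_range_one, LSeries.term_zero, sub_zero] at h4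
  have h5 := Complex.hasSum_re h4
  convert h5 using 2 with n
  rw [LSeries.term_of_ne_zero (Nat.succ_ne_zero n), vr_eq h2]
  have h6 : (((n + 1 : ℕ) : ℂ)) ^ (s : ℂ) = ((((n : ℝ) + 1) ^ s : ℝ) : ℂ) := by
    rw [Complex.ofReal_cpow (by positivity)]
    push_cast
    rfl
  rw [h6, ← Complex.ofReal_div, Complex.ofReal_re, Real.rpow_neg (by positivity), div_eq_mul_inv]

theorem gx_rpow_le {s : ℝ} (hs : 1 ≤ s) (n : ℕ) :
    0 ≤ ((n : ℝ) + 1) ^ (1 - s) ∧ ((n : ℝ) + 1) ^ (1 - s) ≤ 1 :=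
  ⟨Real.rpow_nonneg (by positivity) _,
    Real.rpow_le_one_of_one_le_of_nonpos (by linarith [(Nat.cast_nonneg n : (0 : ℝ) ≤ n)])
      (by linarith)⟩

theorem gx_term_le (χ : DirichletCharacter ℂ q) {t : ℝ} (ht : 0 < t) {s : ℝ}
    (hs : 1 ≤ s) (n : ℕ) :
    ‖vr χ (n + 1) * ((n : ℝ) + 1) ^ (1 - s) * (t ^ (n + 1) / gs t (n + 1))‖ ≤ t ^ (n + 1) := by
  have h1 := gx_abs χ (n + 1)
  obtain ⟨h2, h3⟩ := gx_rpow_le hs n
  have h4 := gs_pos ht.le n
  have h5 : 0 ≤ t ^ (n + 1) := by positivity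
  have h6 : t ^ (n + 1) / gs t (n + 1) ≤ t ^ (n + 1) := div_le_self h5 h4
  have h7 : 0 ≤ t ^ (n + 1) / gs t (n + 1) := div_nonneg h5 (by linarith)
  rw [norm_mul, norm_mul, Real.norm_eq_abs, Real.norm_eq_abs, Real.norm_eq_abs,
    abs_of_nonneg h2, abs_of_nonneg h7]
  calc |vr χ (n + 1)| * ((n : ℝ) + 1) ^ (1 - s) * (t ^ (n + 1) / gs t (n + 1))
      ≤ 1 * 1 * (t ^ (n + 1) / gs t (n + 1)) := by
        apply mul_le_mul_of_nonneg_right _ h7
        exact mul_le_mul h1 h3 h2 zero_le_one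
    _ ≤ _ := by
        rw [one_mul, one_mul]
        exact h6

theorem gx_geom {t : ℝ} (ht : 0 < t) (ht1 : t < 1) : Summable fun n : ℕ => t ^ (n + 1) := by
  simp only [pow_succ]
  exact (summable_geometric_of_lt_one ht.le ht1).mul_right t

theorem gx_s {χ : DirichletCharacter ℂ q} (hχ : χ ≠ 1) (h2 : χ ^ 2 = 1)
    {t : ℝ} (ht : 0 < t) (ht1 : t < 1) {s : ℝ} (hs : 1 < s) :
    ∑' n : ℕ, vr χ (n + 1) * ((n : ℝ) + 1) ^ (1 - s) * (t ^ (n + 1) / gs t (n + 1)) ≤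
      (LF χ (s : ℂ)).re + q * (1 - t) := by
  have h3 : Summable fun n : ℕ =>
      vr χ (n + 1) * ((n : ℝ) + 1) ^ (1 - s) * (t ^ (n + 1) / gs t (n + 1)) :=
    Summable.of_norm_bounded (gx_geom ht ht1) (gx_term_le χ ht hs.le)
  have h4 := h3.hasSum.tendsto_sum_nat
  have h5 := (gx_hasSum h2 hs).tendsto_sum_nat.add_const (q * (1 - t))
  refine le_of_tendsto_of_tendsto' h4 h5 fun N => ?_
  have h6 := xg_abel (f := fun n => vr χ (n + 1))
    (a := fun n : ℕ => ((n : ℝ) + 1) ^ (1 - s) * bb t n) (Q := (q : ℝ))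
    (fun N => xg_partial hχ N) ?_ ?_ N
  · have h7 : ((((0 : ℕ) : ℝ) + 1) ^ (1 - s) * bb t 0) = 1 - t := by
      unfold bb gs
      norm_num
    have h8 := (abs_le.1 h6).1
    simp only [h7] at h8
    have h9 : ∑ i ∈ range N, ((i : ℝ) + 1) ^ (1 - s) * bb t i * vr χ (i + 1) =
        ∑ i ∈ range N, vr χ (i + 1) * ((i : ℝ) + 1) ^ (-s) -
        ∑ i ∈ range N, vr χ (i + 1) * ((i : ℝ) + 1) ^ (1 - s) *
          (t ^ (i + 1) / gs t (i + 1)) := by
      rw [← Finset.sum_sub_distrib]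
      refine Finset.sum_congr rfl fun i _ => ?_
      have h10 : ((i : ℝ) + 1) ^ (-s) = ((i : ℝ) + 1) ^ (1 - s) * (1 / ((i : ℝ) + 1)) := by
        have h11 : (0 : ℝ) < (i : ℝ) + 1 := by positivity
        rw [show (-s : ℝ) = (1 - s) - 1 by ring, Real.rpow_sub_one h11.ne', div_eq_mul_one_div]
      rw [h10]
      unfold bb
      ring
    rw [h9] at h8
    linarith
  · apply antitone_nat_of_succ_le
    intro n
    have h7 := bb_anti ht.le ht1.le (Nat.le_succ n)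
    have h8 := bb_nonneg ht.le ht1.le (n + 1)
    have h9 : (((n + 1 : ℕ) : ℝ) + 1) ^ (1 - s) ≤ ((n : ℝ) + 1) ^ (1 - s) := by
      apply Real.rpow_le_rpow_of_nonpos (by positivity) _ (by linarith)
      push_cast
      linarith
    exact mul_le_mul h9 h7 h8 (gx_rpow_le hs.le n).1
  · intro n
    exact mul_nonneg (gx_rpow_le hs.le n).1 (bb_nonneg ht.le ht1.le n)

theorem xh_lower_pr {χ : DirichletCharacter ℂ q} (hχ : χ ≠ 1) (h2 : χ ^ 2 = 1) {l : ℝ}
    (hl : LF χ 1 = (l : ℂ)) {t : ℝ} (ht : 0 < t) (ht1 : t < 1) :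
    ∑' n : ℕ, vr χ (n + 1) * t ^ (n + 1) / gs t (n + 1) ≤ l + q * (1 - t) := by
  have h3 : Tendsto (fun s : ℝ => ∑' n : ℕ, vr χ (n + 1) * ((n : ℝ) + 1) ^ (1 - s) *
      (t ^ (n + 1) / gs t (n + 1))) (𝓝[>] 1)
      (𝓝 (∑' n : ℕ, vr χ (n + 1) * t ^ (n + 1) / gs t (n + 1))) := by
    refine tendsto_tsum_of_dominated_convergence (gx_geom ht ht1) (fun n => ?_) ?_
    · have h4 : Continuous fun s : ℝ => vr χ (n + 1) * ((n : ℝ) + 1) ^ (1 - s) *
          (t ^ (n + 1) / gs t (n + 1)) := by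
        refine Continuous.mul (Continuous.mul continuous_const ?_) continuous_const
        exact Real.continuous_const_rpow (by positivity) |>.comp (by fun_prop)
      have h5 := (h4.tendsto 1).mono_left (nhdsWithin_le_nhds (s := Set.Ioi (1 : ℝ)))
      simpa only [sub_self, Real.rpow_zero, mul_one, mul_div_assoc] using h5
    · filter_upwards [self_mem_nhdsWithin] with s hs n
      exact gx_term_le χ ht (le_of_lt hs) n
  have h4 : Tendsto (fun s : ℝ => (LF χ (s : ℂ)).re + q * (1 - t)) (𝓝[>] 1)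
      (𝓝 (l + q * (1 - t))) := by
    have h5 : Continuous fun s : ℝ => (LF χ (s : ℂ)).re :=
      Complex.continuous_re.comp ((LF_diff hχ).continuous.comp Complex.continuous_ofReal)
    have h6 := ((h5.tendsto 1).mono_left (nhdsWithin_le_nhds (s := Set.Ioi (1 : ℝ))))
    rw [Complex.ofReal_one, hl, Complex.ofReal_re] at h6
    exact h6.add_const _
  refine le_of_tendsto_of_tendsto h3 h4 ?_
  filter_upwards [self_mem_nhdsWithin] with s hs
  exact gx_s hχ h2 ht ht1 hs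


end Pool.Agent.EXC
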