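import Pool.Agent.Lib_helper15.EXC.DefsI
/-! EXC, block GY: Lambert series. -/

set_option autoImplicit false

namespace Pool.Agent.EXC

open Finset Complex Metric Filter MeasureTheory
open Pool.Agent.GA
open scoped Topology

variable {q : ℕ} [NeZero q]

theorem gy_sum {v : ℕ → ℝ} (hv : ∀ n, |v n| ≤ 1) {t : ℝ} (ht : 0 < t) (ht1 : t < 1) :
    (Summable fun k : ℕ => (∑ d ∈ (k + 1).divisors, v d) * t ^ (k + 1)) ∧
    ∑' n : ℕ, v (n + 1) * t ^ (n + 1) / gs t (n + 1) =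
      (1 - t) * ∑' k : ℕ, (∑ d ∈ (k + 1).divisors, v d) * t ^ (k + 1) := by
  have hn : ‖t‖ < 1 := by
    rw [Real.norm_eq_abs, abs_of_pos ht]
    exact ht1
  set F : ℕ+ × ℕ+ → ℝ := fun c => v c.1 * t ^ (c.1 * c.2 : ℕ) with hF
  have h1 : Summable F := by
    have h2 := summable_prod_mul_pow 0 hn
    simp only [pow_zero, one_mul] at h2
    refine Summable.of_norm_bounded h2 fun c => ?_
    rw [hF, norm_mul, Real.norm_eq_abs, Real.norm_eq_abs, abs_of_nonneg (pow_nonneg ht.le _)]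
    exact mul_le_of_le_one_left (pow_nonneg ht.le _) (hv _)
  have h3 : Summable fun c : (n : ℕ+) × {x // x ∈ (n : ℕ).divisorsAntidiagonal} =>
      F (sigmaAntidiagonalEquivProd c) := sigmaAntidiagonalEquivProd.summable_iff.2 h1
  have h4 : ∀ n : ℕ+, ∑' x : {x // x ∈ (n : ℕ).divisorsAntidiagonal},
      F (sigmaAntidiagonalEquivProd ⟨n, x⟩) = (∑ d ∈ (n : ℕ).divisors, v d) * t ^ (n : ℕ) := by
    intro n
    rw [tsum_fintype, Finset.sum_mul]
    have h5 : ∀ x : {x // x ∈ (n : ℕ).divisorsAntidiagonal},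
        F (sigmaAntidiagonalEquivProd ⟨n, x⟩) = v x.1.1 * t ^ (x.1.1 * x.1.2) := fun x => rfl
    simp only [h5]
    rw [Finset.univ_eq_attach, Finset.sum_attach (n : ℕ).divisorsAntidiagonal
      (fun x => v x.1 * t ^ (x.1 * x.2)),
      Nat.sum_divisorsAntidiagonal (fun x y => v x * t ^ (x * y))]
    refine Finset.sum_congr rfl fun i hi => ?_
    rw [Nat.mul_div_cancel' (Nat.dvd_of_mem_divisors hi)]
  have h6 : Summable fun n : ℕ+ => (∑ d ∈ (n : ℕ).divisors, v d) * t ^ (n : ℕ) := by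
    have := h3.sigma
    simpa only [h4] using this
  have h7 : ∑' c, F c = ∑' n : ℕ+, (∑ d ∈ (n : ℕ).divisors, v d) * t ^ (n : ℕ) := by
    rw [← sigmaAntidiagonalEquivProd.tsum_eq F, h3.tsum_sigma]
    exact tsum_congr h4
  have h8 : ∑' c, F c = ∑' n : ℕ+, v n * t ^ (n : ℕ) / (1 - t ^ (n : ℕ)) := by
    rw [h1.tsum_prod]
    refine tsum_congr fun n => ?_
    have h9 : t ^ (n : ℕ) < 1 := pow_lt_one₀ ht.le ht1 n.ne_zero
    have h10 : 0 ≤ t ^ (n : ℕ) := pow_nonneg ht.le _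
    have h11 : ∑' m : ℕ+, (t ^ (n : ℕ)) ^ (m : ℕ) = t ^ (n : ℕ) / (1 - t ^ (n : ℕ)) := by
      rw [tsum_pnat_eq_tsum_succ (f := fun m => (t ^ (n : ℕ)) ^ m)]
      simp only [pow_succ]
      rw [tsum_mul_right, tsum_geometric_of_lt_one h10 h9]
      rw [div_eq_mul_inv, mul_comm]
    simp only [hF]
    rw [tsum_mul_left, mul_div_assoc, ← h11]
    congr 1
    refine tsum_congr fun m => ?_
    rw [← pow_mul]
  refine ⟨?_, ?_⟩
  · exact (summable_pnat_iff_summable_succ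
      (f := fun n => (∑ d ∈ n.divisors, v d) * t ^ n)).1 h6
  · rw [← tsum_pnat_eq_tsum_succ (f := fun n => (∑ d ∈ n.divisors, v d) * t ^ n), ← h7, h8,
      ← tsum_mul_left, ← tsum_pnat_eq_tsum_succ (f := fun n => v n * t ^ n / gs t n)]
    refine tsum_congr fun n => ?_
    have h9 : t ^ (n : ℕ) < 1 := pow_lt_one₀ ht.le ht1 n.ne_zero
    have h12 : gs t n * (1 - t) = 1 - t ^ (n : ℕ) := by
      unfold gs
      have := geom_sum_mul t n
      linarith
    have h13 : 0 < 1 - t := by linarith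
    have h14 : gs t n ≠ 0 := by
      intro h
      rw [h, zero_mul] at h12
      linarith
    rw [← h12]
    field_simp

theorem xh_lambert_pr (χ : DirichletCharacter ℂ q) {t : ℝ} (ht : 0 < t) (ht1 : t < 1) :
    (Summable fun k : ℕ => rr χ (k + 1) * t ^ (k + 1)) ∧
    ∑' n : ℕ, vr χ (n + 1) * t ^ (n + 1) / gs t (n + 1) =
      (1 - t) * ∑' k : ℕ, rr χ (k + 1) * t ^ (k + 1) := by
  refine gy_sum (v := vr χ) (fun n => ?_) ht ht1
  unfold vr
  exact (Complex.abs_re_le_norm _).trans (DirichletCharacter.norm_le_one χ _)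


end Pool.Agent.EXC
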