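import Pool.Agent.Lib_helper15.EXC.DefsI
/-! EXC block GZ: coefficients of `ζ(s) L(s, χ)` -/

set_option autoImplicit false

namespace Pool.Agent.EXC

open Finset Complex

theorem gz_mul {q : ℕ} {χ : DirichletCharacter ℂ q} (h2 : χ ^ 2 = 1) (m n : ℕ) :
    vr χ (m * n) = vr χ m * vr χ n := by
  have h : ((vr χ (m * n) : ℝ) : ℂ) = ((vr χ m * vr χ n : ℝ) : ℂ) := by
    rw [← vr_eq h2, Nat.cast_mul, map_mul, vr_eq h2, vr_eq h2, Complex.ofReal_mul]
  exact_mod_cast h

theorem gz_one {q : ℕ} {χ : DirichletCharacter ℂ q} : vr χ 1 = 1 := by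
  unfold vr; simp

theorem gz_pow {q : ℕ} {χ : DirichletCharacter ℂ q} (h2 : χ ^ 2 = 1) (p j : ℕ) :
    vr χ (p ^ j) = vr χ p ^ j := by
  induction j with
  | zero => simp [gz_one]
  | succ j ih => rw [pow_succ, gz_mul h2, ih, pow_succ]

/-- the arithmetic function -/
noncomputable def gzf {q : ℕ} (χ : DirichletCharacter ℂ q) : ArithmeticFunction ℝ :=
  ⟨fun n => if n = 0 then 0 else vr χ n, by simp⟩

theorem gzf_mult {q : ℕ} {χ : DirichletCharacter ℂ q} (h2 : χ ^ 2 = 1) :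
    (gzf χ).IsMultiplicative := by
  refine ⟨?_, ?_⟩
  · simp [gzf, gz_one]
  · intro m n _
    rcases Nat.eq_zero_or_pos m with hm | hm
    · simp [gzf, hm]
    rcases Nat.eq_zero_or_pos n with hn | hn
    · simp [gzf, hn]
    simp only [gzf, ArithmeticFunction.coe_mk]
    rw [if_neg (Nat.mul_pos hm hn).ne', if_neg hm.ne', if_neg hn.ne', gz_mul h2]

theorem rr_eq {q : ℕ} {χ : DirichletCharacter ℂ q} (k : ℕ) :
    rr χ k = ((ArithmeticFunction.zeta : ArithmeticFunction ℝ) * gzf χ) k := by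
  rw [ArithmeticFunction.coe_zeta_mul_apply]
  unfold rr
  refine Finset.sum_congr rfl fun d hd => ?_
  simp only [gzf, ArithmeticFunction.coe_mk]
  rw [if_neg (Nat.pos_of_mem_divisors hd).ne']

theorem rr_mul {q : ℕ} {χ : DirichletCharacter ℂ q} (h2 : χ ^ 2 = 1) {a b : ℕ}
    (h : a.Coprime b) : rr χ (a * b) = rr χ a * rr χ b := by
  rw [rr_eq, rr_eq, rr_eq]
  exact (ArithmeticFunction.isMultiplicative_zeta.natCast.mul (gzf_mult h2)).map_mul_of_coprime h

theorem rr_pp {q : ℕ} {χ : DirichletCharacter ℂ q} (h2 : χ ^ 2 = 1) {p : ℕ} (hp : p.Prime)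
    (n : ℕ) : rr χ (p ^ n) = ∑ j ∈ range (n + 1), vr χ p ^ j := by
  unfold rr
  rw [Nat.sum_divisors_prime_pow hp]
  exact Finset.sum_congr rfl fun j _ => gz_pow h2 p j

theorem rr_pp_nonneg {q : ℕ} {χ : DirichletCharacter ℂ q} (h2 : χ ^ 2 = 1) {p : ℕ}
    (hp : p.Prime) (n : ℕ) : 0 ≤ rr χ (p ^ n) := by
  rw [rr_pp h2 hp]
  rcases vr_cases h2 p with h | h | h
  · rw [h]; exact Finset.sum_nonneg fun _ _ => by positivity
  · rw [h]; exact Finset.sum_nonneg fun _ _ => by positivity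
  · rw [h, neg_one_geom_sum]; split_ifs <;> norm_num

theorem rr_pp_one {q : ℕ} {χ : DirichletCharacter ℂ q} (h2 : χ ^ 2 = 1) {p : ℕ}
    (hp : p.Prime) (n : ℕ) : 1 ≤ rr χ (p ^ (2 * n)) := by
  rw [rr_pp h2 hp]
  rcases vr_cases h2 p with h | h | h
  · rw [h]
    simp only [one_pow, sum_const, card_range, nsmul_eq_mul, mul_one]
    exact_mod_cast Nat.succ_pos _
  · rw [h, Finset.sum_range_succ']
    simp
  · rw [h, neg_one_geom_sum, if_neg]
    rw [Nat.not_even_iff_odd]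
    exact ⟨n, rfl⟩

theorem xh_rr_pr {q : ℕ} [NeZero q] {χ : DirichletCharacter ℂ q} (h2 : χ ^ 2 = 1) :
    (∀ k, 0 ≤ rr χ k) ∧ ∀ m : ℕ, 1 ≤ m → 1 ≤ rr χ (m ^ 2) := by
  constructor
  · intro k
    induction k using Nat.recOnPosPrimePosCoprime with
    | prime_pow p n hp hn => exact rr_pp_nonneg h2 hp n
    | zero => simp [rr]
    | one => simp [rr, gz_one]
    | coprime a b ha hb hab iha ihb => rw [rr_mul h2 hab]; exact mul_nonneg iha ihb
  · intro m
    induction m using Nat.recOnPosPrimePosCoprime with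
    | prime_pow p n hp hn =>
      intro _
      rw [← pow_mul, mul_comm n 2]
      exact rr_pp_one h2 hp n
    | zero => intro h; omega
    | one => intro _; simp [rr, gz_one]
    | coprime a b ha hb hab iha ihb =>
      intro _
      rw [mul_pow, rr_mul h2 (Nat.Coprime.pow 2 2 hab)]
      have h1 := iha (by omega)
      have h3 := ihb (by omega)
      nlinarith

end Pool.Agent.EXC

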