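import Pool.Agent.Lib_helper15.EXC.DefsI
import Pool.Agent.Lib_helper15.EXCF.GX
import Pool.Agent.Lib_helper15.EXCF.GY
import Pool.Agent.Lib_helper15.EXCF.GZ
/-!
# EXC, part X: final statements on the exceptional zero
-/

set_option autoImplicit false

namespace Pool.Agent.EXC

open Finset Complex Metric Filter MeasureTheory
open Pool.Agent.GA
open Pool.Agent.LSP (MX)
open Pool.Agent.LVB (IsST)
open Pool.Agent.LK (PQ)
open Pool.Agent.LE

theorem xpack_pr : ∃ c : ℝ, 0 < c ∧ c ≤ 1 ∧ ∀ (q : ℕ) [NeZero q] (χ : DirichletCharacter ℂ q),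
    PQ χ → ∀ β : ℝ, DirichletCharacter.LFunction χ (β : ℂ) = 0 → (1 - β) * Real.log q ≤ c →
    0 < 1 - β ∧ ∃ (g : ℂ → ℂ) (g₀ : ℝ), GFun χ β c g g₀ := by
  obtain ⟨C, hC, c, hc, hc1, hmain⟩ := x2
  refine ⟨c, hc, by linarith, fun q _ χ hχ β hβ hβq => ?_⟩
  obtain ⟨h1, g, g₀, hg, hg0, hgz, hfac, hb, -⟩ := hmain q χ hχ.ne hχ.sq β
    (by rw [LF_eq]; exact hβ) hβq
  exact ⟨h1, g, g₀, hg, hg0, hgz, fun w => by rw [← LF_eq]; exact hfac w,
    fun w hw => (hb w hw).2.1⟩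

/-- `(1 - 1/(2m))^(2m) ≥ 1/4` -/
theorem fx_pow {m : ℕ} (hm : 1 ≤ m) : 1 / 4 ≤ (1 - 1 / (2 * m : ℝ)) ^ (2 * m) := by
  have hm0 : (0 : ℝ) < m := by exact_mod_cast hm
  have hm1 : (1 : ℝ) ≤ m := by exact_mod_cast hm
  have h0 : 1 / (2 * m : ℝ) ≤ 1 := by
    rw [div_le_one (by positivity)]
    linarith
  have h1 := one_add_mul_le_pow (a := -(1 / (2 * m : ℝ))) (by linarith) m
  have e1 : 1 + (m : ℝ) * -(1 / (2 * m : ℝ)) = 1 / 2 := by
    field_simp
    ring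
  rw [e1] at h1
  have e2 : (1 - 1 / (2 * m : ℝ)) ^ (2 * m) = ((1 + -(1 / (2 * m : ℝ))) ^ m) ^ 2 := by
    rw [← pow_mul, mul_comm 2 m]
    ring
  rw [e2]
  nlinarith

theorem fx_one {q : ℕ} [NeZero q] {χ : DirichletCharacter ℂ q} (hχ : χ ≠ 1) (h2 : χ ^ 2 = 1)
    {l : ℝ} (hl : LF χ 1 = (l : ℂ)) : 3 / (256 * (q : ℝ)) ≤ l := by
  have hq3 := three_le hχ
  have hqr : (3 : ℝ) ≤ q := by exact_mod_cast hq3
  set M : ℕ := 16 * q with hM
  have hMr : (M : ℝ) = 16 * q := by rw [hM]; push_cast; ring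
  set t : ℝ := 1 - 1 / (M : ℝ) ^ 2 with ht
  have hM0 : (0 : ℝ) < M := by rw [hMr]; linarith
  have hM1 : (1 : ℝ) < M := by rw [hMr]; linarith
  have h3 : 1 / (M : ℝ) ^ 2 < 1 := by
    rw [div_lt_one (by positivity)]
    nlinarith
  have ht0 : 0 < t := by rw [ht]; linarith
  have ht1 : t < 1 := by
    rw [ht]
    have : 0 < 1 / (M : ℝ) ^ 2 := by positivity
    linarith
  have h4 := xh_lower_pr hχ h2 hl ht0 ht1
  obtain ⟨hs, h5⟩ := xh_lambert_pr χ ht0 ht1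
  obtain ⟨hr0, hr1⟩ := xh_rr_pr h2
  rw [h5] at h4
  -- the squares
  have h6 : (M : ℝ) * (1 / 4) ≤ ∑' k : ℕ, rr χ (k + 1) * t ^ (k + 1) := by
    have h7 : ∑ k ∈ (Icc 1 M).image (fun m => m ^ 2 - 1), rr χ (k + 1) * t ^ (k + 1) ≤
        ∑' k : ℕ, rr χ (k + 1) * t ^ (k + 1) :=
      hs.sum_le_tsum _ fun k _ => mul_nonneg (hr0 _) (pow_nonneg ht0.le _)
    refine le_trans ?_ h7
    rw [Finset.sum_image]
    · have h8 : ∀ m ∈ Icc 1 M, (1 / 4 : ℝ) ≤ rr χ (m ^ 2 - 1 + 1) * t ^ (m ^ 2 - 1 + 1) := by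
        intro m hm
        rw [Finset.mem_Icc] at hm
        have e1 : m ^ 2 - 1 + 1 = m ^ 2 := Nat.sub_add_cancel (Nat.one_le_pow _ _ hm.1)
        rw [e1]
        have h9 : (1 / 4 : ℝ) ≤ t ^ (m ^ 2) := by
          have h10 : t ^ (M ^ 2) ≤ t ^ (m ^ 2) :=
            pow_le_pow_of_le_one ht0.le ht1.le (Nat.pow_le_pow_left hm.2 2)
          refine le_trans ?_ h10
          have e2 : M ^ 2 = 2 * (128 * q ^ 2) := by rw [hM]; ring
          have e3 : (M : ℝ) ^ 2 = 2 * ((128 * q ^ 2 : ℕ) : ℝ) := by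
            rw [← Nat.cast_pow, e2]
            push_cast
            ring
          rw [ht, e3, e2]
          exact fx_pow (by have : 0 < q ^ 2 := by positivity
                           omega)
        calc (1 / 4 : ℝ) = 1 * (1 / 4) := by ring
          _ ≤ rr χ (m ^ 2) * t ^ (m ^ 2) :=
            mul_le_mul (hr1 m hm.1) h9 (by norm_num) (by linarith [hr1 m hm.1])
      have h9 := Finset.sum_le_sum h8
      rw [Finset.sum_const, Nat.card_Icc, nsmul_eq_mul] at h9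
      simpa using h9
    · intro m hm m' hm' h
      simp only [coe_Icc, Set.mem_Icc] at hm hm'
      have a1 : 1 ≤ m ^ 2 := Nat.one_le_pow _ _ hm.1
      have a2 : 1 ≤ m' ^ 2 := Nat.one_le_pow _ _ hm'.1
      have a3 : m ^ 2 = m' ^ 2 := by
        simp only at h
        omega
      exact (Nat.pow_left_injective (n := 2) (by norm_num)) a3
  have h1t : 1 - t = 1 / (M : ℝ) ^ 2 := by rw [ht]; ring
  have h7 : (1 - t) * ((M : ℝ) * (1 / 4)) ≤ l + q * (1 - t) :=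
    (mul_le_mul_of_nonneg_left h6 (by linarith)).trans h4
  rw [h1t, hMr] at h7
  have e1 : 1 / (16 * (q : ℝ)) ^ 2 * (16 * q * (1 / 4)) = 4 / (256 * q) := by
    field_simp
    ring
  have e2 : (q : ℝ) * (1 / (16 * (q : ℝ)) ^ 2) = 1 / (256 * q) := by
    field_simp
    ring
  rw [e1, e2] at h7
  have e3 : (4 : ℝ) / (256 * q) = 3 / (256 * q) + 1 / (256 * q) := by
    rw [← add_div]
    norm_num
  rw [e3] at h7
  linarith

theorem xlower_pr : ∃ c : ℝ, 0 < c ∧ ∀ (q : ℕ) [NeZero q] (χ : DirichletCharacter ℂ q), PQ χ →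
    ∀ β : ℝ, DirichletCharacter.LFunction χ (β : ℂ) = 0 → β ≤ 1 → c / (q : ℝ) ^ 2 ≤ 1 - β := by
  obtain ⟨C, hC, hgr⟩ := LF_growth
  refine ⟨3 / (2560 * C), by positivity, fun q _ χ hχ β hβ hβ1 => ?_⟩
  have hq3 := three_le hχ.ne
  have hqr : (3 : ℝ) ≤ q := by exact_mod_cast hq3
  have hq0 : (0 : ℝ) < q := by linarith
  by_cases h : 1 - β < 1 / 4
  · obtain ⟨l, hl0, hl⟩ := xc_one hχ.ne hχ.sq
    have h1 := fx_one hχ.ne hχ.sq hl
    have hdiff := LF_diff hχ.ne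
    have hderiv : ∀ x ∈ ball (1 : ℂ) (1 / 4), ‖deriv (LF χ) x‖ ≤ 10 * C * q := by
      intro x hx
      rw [mem_ball, dist_eq_norm] at hx
      have hb : ∀ w ∈ sphere x (1 / 4), ‖LF χ w‖ ≤ C * q * (5 / 2) := by
        intro w hw
        rw [mem_sphere, dist_eq_norm] at hw
        have hw1 : ‖w - 1‖ ≤ 1 / 2 := by
          calc ‖w - 1‖ = ‖(w - x) + (x - 1)‖ := by ring_nf
            _ ≤ ‖w - x‖ + ‖x - 1‖ := norm_add_le _ _
            _ ≤ 1 / 2 := by linarith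
        have hre : |(w - 1).re| ≤ 1 / 2 := (Complex.abs_re_le_norm _).trans hw1
        have him : |(w - 1).im| ≤ 1 / 2 := (Complex.abs_im_le_norm _).trans hw1
        simp only [sub_re, one_re, sub_im, one_im, sub_zero] at hre him
        have := (abs_le.1 hre).1
        refine (hgr q χ hχ.ne w (by linarith)).trans ?_
        exact mul_le_mul_of_nonneg_left (by linarith) (by positivity)
      have h2 := Complex.norm_deriv_le_of_forall_mem_sphere_norm_le (by norm_num : (0 : ℝ) < 1 / 4)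
        hdiff.diffContOnCl hb
      refine h2.trans (le_of_eq ?_)
      ring
    have hβm : (β : ℂ) ∈ ball (1 : ℂ) (1 / 4) := by
      rw [mem_ball, dist_eq_norm, ← Complex.ofReal_one, ← Complex.ofReal_sub, Complex.norm_real,
        Real.norm_eq_abs, abs_sub_comm, abs_of_nonneg (by linarith)]
      exact h
    have h1m : (1 : ℂ) ∈ ball (1 : ℂ) (1 / 4) := mem_ball_self (by norm_num)
    have h3 := (convex_ball (1 : ℂ) (1 / 4)).norm_image_sub_le_of_norm_deriv_le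
      (fun x _ => hdiff.differentiableAt) hderiv hβm h1m
    rw [LF_eq] at h3
    rw [hβ, sub_zero, ← LF_eq, hl, Complex.norm_real, Real.norm_eq_abs, abs_of_pos hl0,
      ← Complex.ofReal_one, ← Complex.ofReal_sub, Complex.norm_real, Real.norm_eq_abs,
      abs_of_nonneg (by linarith : 0 ≤ 1 - β)] at h3
    have h4 : 3 / (256 * (q : ℝ)) ≤ 10 * C * q * (1 - β) := h1.trans h3
    rw [div_le_iff₀ (by positivity)] at h4
    rw [div_div, div_le_iff₀ (by positivity)]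
    nlinarith
  · push Not at h
    refine le_trans ?_ h
    rw [div_div, div_le_iff₀ (by positivity)]
    have h5 : (9 : ℝ) ≤ (q : ℝ) ^ 2 := by nlinarith
    have h6 : (9 : ℝ) ≤ C * (q : ℝ) ^ 2 := by nlinarith
    nlinarith

end Pool.Agent.EXC
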