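import Pool.Agent.Lib_helper15.EXCF.FG
import Pool.Agent.Lib_helper15.EXCF.FX
import Pool.Agent.Lib_helper15.EXCF.FM

/-!
# EXC: final theorems `xpack_pr`, `xmoll_pr`, `xlower_pr`, `gram_pr`, `gram_lin_pr`
-/
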