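import Pool.Agent.Lib_helper15.EXC.DefsG
import Pool.Agent.Lib_helper15.EXCF.GA
/-! EXC, block GB: rotation invariance kills homogeneous kernels of the wrong degree. -/

set_option autoImplicit false

namespace Pool.Agent.EXC

open Finset Complex Metric Filter MeasureTheory
open scoped Topology

theorem gb_const (r r' : ℝ) (a : ℂ) (K : ℂ → ℂ → ℂ → ℂ) :
    ga_T r r' (fun w s z => a * K w s z) = a * ga_T r r' K := by
  unfold ga_T
  simp only [ga_const_mul]

theorem gb_step {i j e : ℕ} {r r' φ : ℝ} {P : ℂ → ℂ → ℂ → ℂ}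
    (hh : ∀ t w s z, P (t * w) (t * s) (t * z) = t ^ e * P w s z) :
    cexp (φ * I) ^ (i + j + 2) * T3 i j r r' P = cexp (φ * I) ^ e * T3 i j r r' P := by
  set t : ℂ := cexp (φ * I) with ht
  have ht0 : t ≠ 0 := Complex.exp_ne_zero _
  have h1 := ga_rot3 r r' φ
    (fun w s z => P w s z / (w ^ 2 * s ^ (i + 1) * (z ^ (j + 1) * (z + s))))
  rw [← ht] at h1
  have h2 : (fun w s z => P (t * w) (t * s) (t * z) /
      ((t * w) ^ 2 * (t * s) ^ (i + 1) * ((t * z) ^ (j + 1) * (t * z + t * s)))) =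
      fun w s z => (t ^ e / t ^ (i + j + 5)) *
        (P w s z / (w ^ 2 * s ^ (i + 1) * (z ^ (j + 1) * (z + s)))) := by
    funext w s z
    rw [hh]
    have h3 : (t * w) ^ 2 * (t * s) ^ (i + 1) * ((t * z) ^ (j + 1) * (t * z + t * s)) =
        t ^ (i + j + 5) * (w ^ 2 * s ^ (i + 1) * (z ^ (j + 1) * (z + s))) := by
      ring
    rw [h3, mul_div_mul_comm]
  have h4 : ga_T r r' (fun w s z => P w s z / (w ^ 2 * s ^ (i + 1) * (z ^ (j + 1) * (z + s)))) =
      t ^ 3 * ((t ^ e / t ^ (i + j + 5)) *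
        ga_T r r' (fun w s z => P w s z / (w ^ 2 * s ^ (i + 1) * (z ^ (j + 1) * (z + s))))) := by
    rw [← gb_const, ← h2]
    exact h1
  have h5 : T3 i j r r' P =
      ga_T r r' (fun w s z => P w s z / (w ^ 2 * s ^ (i + 1) * (z ^ (j + 1) * (z + s)))) := rfl
  rw [← h5] at h4
  have h6 : t ^ (i + j + 2) * T3 i j r r' P =
      t ^ (i + j + 2) * (t ^ 3 * ((t ^ e / t ^ (i + j + 5)) * T3 i j r r' P)) := by
    rw [← h4]
  rw [h6]
  have h7 : t ^ (i + j + 5) = t ^ (i + j + 2) * t ^ 3 := by ring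
  rw [h7]
  have h8 : t ^ (i + j + 2) ≠ 0 := pow_ne_zero _ ht0
  have h9 : t ^ 3 ≠ 0 := pow_ne_zero _ ht0
  field_simp

theorem gb_half {k : ℕ} (hk : k ≠ 0) : cexp (((Real.pi / k : ℝ) : ℂ) * I) ^ k = -1 := by
  rw [← Complex.exp_nat_mul]
  have h1 : (k : ℂ) ≠ 0 := Nat.cast_ne_zero.mpr hk
  have h2 : (k : ℂ) * (((Real.pi / k : ℝ) : ℂ) * I) = Real.pi * I := by
    push_cast
    field_simp
  rw [h2, Complex.exp_pi_mul_I]

theorem t3_rot_pr {i j e : ℕ} {r r' : ℝ} (hr : 0 < r) (hr' : 0 < r') {P : ℂ → ℂ → ℂ → ℂ}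
    (hh : ∀ t w s z, P (t * w) (t * s) (t * z) = t ^ e * P w s z) (he : e ≠ i + j + 2) :
    T3 i j r r' P = 0 := by
  rcases lt_or_gt_of_ne he with h | h
  · obtain ⟨k, hk⟩ := Nat.exists_eq_add_of_lt h
    have h1 := gb_step (i := i) (j := j) (r := r) (r' := r') (φ := Real.pi / ((k + 1 : ℕ) : ℝ)) hh
    have h2 := gb_half (k := k + 1) (Nat.succ_ne_zero k)
    set t : ℂ := cexp (((Real.pi / ((k + 1 : ℕ) : ℝ) : ℝ) : ℂ) * I) with ht
    have ht0 : t ^ e ≠ 0 := pow_ne_zero _ (Complex.exp_ne_zero _)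
    have h3 : t ^ (i + j + 2) = t ^ e * t ^ (k + 1) := by
      rw [← pow_add, hk, add_assoc]
    rw [h3, h2] at h1
    have h4 : t ^ e * (2 * T3 i j r r' P) = 0 := by linear_combination -h1
    rcases mul_eq_zero.mp h4 with h5 | h5
    · exact absurd h5 ht0
    · simpa using h5
  · obtain ⟨k, hk⟩ := Nat.exists_eq_add_of_lt h
    have h1 := gb_step (i := i) (j := j) (r := r) (r' := r') (φ := Real.pi / ((k + 1 : ℕ) : ℝ)) hh
    have h2 := gb_half (k := k + 1) (Nat.succ_ne_zero k)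
    set t : ℂ := cexp (((Real.pi / ((k + 1 : ℕ) : ℝ) : ℝ) : ℂ) * I) with ht
    have ht0 : t ^ (i + j + 2) ≠ 0 := pow_ne_zero _ (Complex.exp_ne_zero _)
    have h3 : t ^ e = t ^ (i + j + 2) * t ^ (k + 1) := by
      rw [← pow_add, hk, add_assoc]
    rw [h3, h2] at h1
    have h4 : t ^ (i + j + 2) * (2 * T3 i j r r' P) = 0 := by linear_combination h1
    rcases mul_eq_zero.mp h4 with h5 | h5
    · exact absurd h5 ht0
    · simpa using h5

end Pool.Agent.EXC
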